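import Mathlib

/-!
# Piece BPC: common zeros of `α x^k + β y^m = γ` and a polynomial of degree `< r ≤ m` in `y`

The polynomial `Y^m - h(x)`, `h = (γ - α x^k) / β`, is irreducible (Eisenstein at an irreducible factor of the squarefree
polynomial `h`).  The determinant of the multiplication by `G` modulo this polynomial is a nonzero polynomial in `x` of degree at most
`m (k + r)`, and it vanishes at the first coordinates of the common zeros.
-/

set_option autoImplicit false

namespace Pool.MP_a95293_nt.PS.Bp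

open Finset Polynomial

/-- multiplication by `∑ G j Y^j` modulo `Y^m - h` -/
noncomputable def Mt (m : ℕ) (h : ℚ[X]) (G : ℕ → ℚ[X]) : Matrix (Fin m) (Fin m) ℚ[X] :=
  Matrix.of fun i n => if (i : ℕ) ≤ n then G (n - i) else h * G (m + n - i)

theorem Mt_mul {A : Type} [CommRing A] (φ : ℚ[X] →+* A) (ρ : A) (m : ℕ) (h : ℚ[X]) (G : ℕ → ℚ[X])
    (hρ : ρ ^ m = φ h) (i : Fin m) :
    ∑ n : Fin m, φ (Mt m h G i n) * ρ ^ (n : ℕ) =
      ρ ^ (i : ℕ) * ∑ j ∈ range m, φ (G j) * ρ ^ j := by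
  obtain ⟨i, hi⟩ := i
  have e1 : ∑ n : Fin m, φ (Mt m h G ⟨i, hi⟩ n) * ρ ^ (n : ℕ) =
      ∑ n ∈ range m, φ (if i ≤ n then G (n - i) else h * G (m + n - i)) * ρ ^ n := by
    rw [← Fin.sum_univ_eq_sum_range
      (fun n => φ (if i ≤ n then G (n - i) else h * G (m + n - i)) * ρ ^ n) m]
    rfl
  rw [e1, ← sum_range_add_sum_Ico _ hi.le, sum_Ico_eq_sum_range, mul_sum]
  have e2 : ∑ j ∈ range m, ρ ^ i * (φ (G j) * ρ ^ j) =
      ∑ j ∈ range (m - i), ρ ^ i * (φ (G j) * ρ ^ j) +
        ∑ j ∈ range i, ρ ^ i * (φ (G (m - i + j)) * ρ ^ (m - i + j)) := by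
    rw [← sum_range_add_sum_Ico _ (Nat.sub_le m i), sum_Ico_eq_sum_range]
    congr 2
    congr 1
    omega
  show _ = ∑ j ∈ range m, ρ ^ i * (φ (G j) * ρ ^ j)
  rw [e2, add_comm]
  congr 1
  · refine sum_congr rfl fun t _ => ?_
    rw [if_pos (Nat.le_add_right i t), Nat.add_sub_cancel_left, pow_add]
    ring
  · refine sum_congr rfl fun t ht => ?_
    rw [mem_range] at ht
    rw [if_neg (by omega), map_mul, ← hρ, show m + t - i = m - i + t by omega]
    have e3 : ρ ^ m = ρ ^ i * ρ ^ (m - i) := by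
      rw [← pow_add]
      congr 1
      omega
    rw [e3, pow_add]
    ring

theorem irr (k m : ℕ) (hk : 1 ≤ k) (hm : 1 ≤ m) (a b : ℚ) (ha : a ≠ 0) (hb : b ≠ 0) :
    Irreducible (X ^ m - C (C a * X ^ k + C b) : ℚ[X][X]) := by
  set h : ℚ[X] := C a * X ^ k + C b with hh
  have hdeg : h.natDegree = k := by
    rw [hh, natDegree_add_C, natDegree_C_mul_X_pow k a ha]
  have h0 : h ≠ 0 := by
    intro h0
    rw [h0, natDegree_zero] at hdeg
    omega
  have hnu : ¬ IsUnit h := by
    intro hu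
    have := natDegree_eq_zero_of_isUnit hu
    omega
  obtain ⟨π, hπ, hπh⟩ := WfDvdMonoid.exists_irreducible_factor hnu h0
  have hsq : ¬ π ^ 2 ∣ h := by
    intro hd
    have e1 : h = C a * (X ^ k - C (-b / a)) := by
      rw [hh, mul_sub, ← C_mul, mul_div_cancel₀ _ ha, C_neg, sub_neg_eq_add]
    rw [e1] at hd
    have hu : IsUnit (C a : ℚ[X]) := isUnit_C.2 (IsUnit.mk0 a ha)
    have hd2 : π ^ 2 ∣ X ^ k - C (-b / a) := (hu.dvd_mul_left).1 hd
    have hs : Squarefree (X ^ k - C (-b / a) : ℚ[X]) :=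
      (separable_X_pow_sub_C (-b / a) (by exact_mod_cast (by omega : k ≠ 0))
        (div_ne_zero (neg_ne_zero.2 hb) ha)).squarefree
    rw [pow_two] at hd2
    exact hπ.not_isUnit (hs π hd2)
  have hP : (Ideal.span {π} : Ideal ℚ[X]).IsPrime :=
    (Ideal.span_singleton_prime hπ.ne_zero).2 hπ.prime
  have hmon : (X ^ m - C h : ℚ[X][X]).Monic := monic_X_pow_sub_C h (by omega)
  have hdegF : (X ^ m - C h : ℚ[X][X]).degree = m := degree_X_pow_sub_C (by omega) h
  refine irreducible_of_eisenstein_criterion hP ?_ ?_ ?_ ?_ hmon.isPrimitive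
  · rw [hmon.leadingCoeff]
    exact fun h1 => hP.ne_top ((Ideal.eq_top_iff_one _).2 h1)
  · intro n hn
    rw [hdegF] at hn
    have hn' : n < m := by exact_mod_cast hn
    rw [coeff_sub, coeff_X_pow, if_neg (by omega), zero_sub]
    apply Ideal.neg_mem_iff _ |>.2
    rw [coeff_C]
    split_ifs
    · exact Ideal.mem_span_singleton.2 hπh
    · exact Ideal.zero_mem _
  · rw [hdegF]
    exact_mod_cast hm
  · rw [coeff_sub, coeff_X_pow, if_neg (by omega), zero_sub, coeff_C_zero, Ideal.neg_mem_iff,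
      Ideal.span_singleton_pow, Ideal.mem_span_singleton]
    exact hsq

theorem Mt_det_ne (k m : ℕ) (hk : 1 ≤ k) (hm : 1 ≤ m) (a b : ℚ) (ha : a ≠ 0) (hb : b ≠ 0)
    (G : ℕ → ℚ[X]) (hG : ∃ j < m, G j ≠ 0) :
    (Mt m (C a * X ^ k + C b) G).det ≠ 0 := by
  classical
  set h : ℚ[X] := C a * X ^ k + C b with hh
  set F : ℚ[X][X] := X ^ m - C h with hF
  have hirr : Irreducible F := irr k m hk hm a b ha hb
  have hmon : F.Monic := monic_X_pow_sub_C h (by omega)
  have hdegF : F.degree = m := degree_X_pow_sub_C (by omega) h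
  intro h0
  obtain ⟨v, hv, hvM⟩ := Matrix.exists_vecMul_eq_zero_iff.2 h0
  set H : ℚ[X][X] := ∑ i : Fin m, C (v i) * X ^ (i : ℕ) with hH
  set Gp : ℚ[X][X] := ∑ j ∈ range m, C (G j) * X ^ j with hGp
  have hρ : (AdjoinRoot.root F) ^ m = AdjoinRoot.of F h := by
    have h1 : AdjoinRoot.mk F (X ^ m - C h) = 0 := by
      rw [← hF, AdjoinRoot.mk_self]
    rw [map_sub, map_pow, AdjoinRoot.mk_X, AdjoinRoot.mk_C, sub_eq_zero] at h1
    exact h1
  have h1 : AdjoinRoot.mk F (H * Gp) = 0 := by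
    have e1 : AdjoinRoot.mk F Gp =
        ∑ j ∈ range m, AdjoinRoot.of F (G j) * (AdjoinRoot.root F) ^ j := by
      rw [hGp, map_sum]
      refine sum_congr rfl fun j _ => ?_
      rw [map_mul, map_pow, AdjoinRoot.mk_X, AdjoinRoot.mk_C]
    have e2 : AdjoinRoot.mk F H =
        ∑ i : Fin m, AdjoinRoot.of F (v i) * (AdjoinRoot.root F) ^ (i : ℕ) := by
      rw [hH, map_sum]
      refine sum_congr rfl fun j _ => ?_
      rw [map_mul, map_pow, AdjoinRoot.mk_X, AdjoinRoot.mk_C]
    rw [map_mul, e1, e2, sum_mul]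
    calc ∑ i : Fin m, AdjoinRoot.of F (v i) * (AdjoinRoot.root F) ^ (i : ℕ) *
          ∑ j ∈ range m, AdjoinRoot.of F (G j) * (AdjoinRoot.root F) ^ j
        = ∑ i : Fin m, AdjoinRoot.of F (v i) *
          ∑ n : Fin m, AdjoinRoot.of F (Mt m h G i n) * (AdjoinRoot.root F) ^ (n : ℕ) := by
          refine sum_congr rfl fun i _ => ?_
          rw [Mt_mul (AdjoinRoot.of F) (AdjoinRoot.root F) m h G hρ i]
          ring
      _ = ∑ n : Fin m, (∑ i : Fin m, AdjoinRoot.of F (v i) * AdjoinRoot.of F (Mt m h G i n)) *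
          (AdjoinRoot.root F) ^ (n : ℕ) := by
          simp only [mul_sum, sum_mul]
          rw [sum_comm]
          refine sum_congr rfl fun n _ => sum_congr rfl fun i _ => ?_
          ring
      _ = 0 := by
          refine sum_eq_zero fun n _ => ?_
          have h2 := congrFun hvM n
          rw [Matrix.vecMul, dotProduct, Pi.zero_apply] at h2
          have h3 := congrArg (AdjoinRoot.of F) h2
          rw [map_sum, map_zero] at h3
          simp only [map_mul] at h3
          rw [h3, zero_mul]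
  rw [AdjoinRoot.mk_eq_zero] at h1
  rcases hirr.prime.dvd_or_dvd h1 with h2 | h2
  · have h3 : H.degree < F.degree := by
      rw [hdegF, hH]
      refine (degree_sum_le _ _).trans_lt ?_
      rw [Finset.sup_lt_iff (by exact_mod_cast WithBot.bot_lt_coe m)]
      intro i _
      refine (degree_C_mul_X_pow_le _ _).trans_lt ?_
      exact_mod_cast i.isLt
    have h4 : H = 0 := by
      by_contra h5
      exact hmon.not_dvd_of_degree_lt h5 h3 h2
    apply hv
    ext1 i
    have h5 := congrArg (fun f : ℚ[X][X] => f.coeff i) h4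
    simp only [hH, finsetSum_coeff, coeff_C_mul, coeff_X_pow, coeff_zero] at h5
    rw [sum_eq_single i] at h5
    · simpa using h5
    · intro j _ hj
      rw [if_neg, mul_zero]
      exact fun h6 => hj (Fin.ext h6.symm)
    · intro h6
      exact absurd (mem_univ i) h6
  · have h3 : Gp.degree < F.degree := by
      rw [hdegF, hGp]
      refine (degree_sum_le _ _).trans_lt ?_
      rw [Finset.sup_lt_iff (by exact_mod_cast WithBot.bot_lt_coe m)]
      intro i hi
      refine (degree_C_mul_X_pow_le _ _).trans_lt ?_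
      exact_mod_cast (mem_range.1 hi)
    have h4 : Gp = 0 := by
      by_contra h5
      exact hmon.not_dvd_of_degree_lt h5 h3 h2
    obtain ⟨j, hj, hGj⟩ := hG
    apply hGj
    have h5 := congrArg (fun f : ℚ[X][X] => f.coeff j) h4
    simp only [hGp, finsetSum_coeff, coeff_C_mul, coeff_X_pow, coeff_zero] at h5
    rw [sum_eq_single j] at h5
    · simpa using h5
    · intro i _ hi
      rw [if_neg (fun h6 => hi h6.symm), mul_zero]
    · intro h6
      exact absurd (mem_range.2 hj) h6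

theorem Mt_natDegree (k m r : ℕ) (a b : ℚ) (G : ℕ → ℚ[X]) (hG : ∀ j, (G j).natDegree ≤ r) :
    (Mt m (C a * X ^ k + C b) G).det.natDegree ≤ m * (k + r) := by
  classical
  have he : ∀ i n, (Mt m (C a * X ^ k + C b) G i n).natDegree ≤ k + r := by
    intro i n
    unfold Mt
    rw [Matrix.of_apply]
    split_ifs
    · exact (hG _).trans (Nat.le_add_left r k)
    · refine natDegree_mul_le.trans (Nat.add_le_add ?_ (hG _))
      compute_degree
  rw [Matrix.det_apply]
  refine natDegree_sum_le_of_forall_le _ _ fun σ _ => ?_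
  refine (natDegree_smul_le _ _).trans ?_
  refine (natDegree_prod_le _ _).trans ?_
  calc ∑ i : Fin m, (Mt m (C a * X ^ k + C b) G (σ i) i).natDegree ≤ ∑ _i : Fin m, (k + r) :=
        sum_le_sum fun i _ => he _ _
    _ = m * (k + r) := by simp

theorem bezout (k m r : ℕ) (hk : 1 ≤ k) (hm : 1 ≤ m) (hr : r ≤ m) (al be ga : ℤ) (h1 : al ≠ 0)
    (h2 : be ≠ 0) (h3 : ga ≠ 0) (c : Fin r → Fin r → ℚ) (hc : c ≠ 0) (Ω : Finset (ℕ × ℕ))
    (hΩ : ∀ z ∈ Ω, al * (z.1 : ℤ) ^ k + be * (z.2 : ℤ) ^ m = ga ∧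
      ∑ a, ∑ b, c a b * (z.1 : ℚ) ^ (a : ℕ) * (z.2 : ℚ) ^ (b : ℕ) = 0)
    (hinj : Set.InjOn Prod.fst (Ω : Set (ℕ × ℕ))) : Ω.card ≤ m * (k + r) := by
  classical
  set a' : ℚ := -(al : ℚ) / be with ha'
  set b' : ℚ := (ga : ℚ) / be with hb'
  have hal : (al : ℚ) ≠ 0 := by exact_mod_cast h1
  have hbe : (be : ℚ) ≠ 0 := by exact_mod_cast h2
  have hga : (ga : ℚ) ≠ 0 := by exact_mod_cast h3
  have ha0 : a' ≠ 0 := div_ne_zero (neg_ne_zero.2 hal) hbe
  have hb0 : b' ≠ 0 := div_ne_zero hga hbe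
  set G : ℕ → ℚ[X] := fun j => if hj : j < r then ∑ a : Fin r, C (c a ⟨j, hj⟩) * X ^ (a : ℕ) else 0
    with hG
  have hGne : ∃ j < m, G j ≠ 0 := by
    by_contra hcon
    push Not at hcon
    apply hc
    ext1 a
    ext1 b
    have h4 := hcon b (by omega)
    have h5 := congrArg (fun f : ℚ[X] => f.coeff a) h4
    simp only [hG, dif_pos b.isLt, finsetSum_coeff, coeff_C_mul, coeff_X_pow, coeff_zero] at h5
    rw [sum_eq_single a] at h5
    · simpa using h5
    · intro j _ hj
      rw [if_neg, mul_zero]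
      exact fun h6 => hj (Fin.ext h6.symm)
    · intro h6
      exact absurd (mem_univ a) h6
  have hGdeg : ∀ j, (G j).natDegree ≤ r := by
    intro j
    rw [hG]
    dsimp only
    split_ifs with hj
    · refine natDegree_sum_le_of_forall_le _ _ fun a _ => ?_
      exact (natDegree_C_mul_X_pow_le _ _).trans a.isLt.le
    · simp
  set h : ℚ[X] := C a' * X ^ k + C b' with hh
  set D := (Mt m h G).det with hD
  have hD0 : D ≠ 0 := Mt_det_ne k m hk hm a' b' ha0 hb0 G hGne
  have hDdeg : D.natDegree ≤ m * (k + r) := Mt_natDegree k m r a' b' G hGdeg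
  have hroot : ∀ z ∈ Ω, D.IsRoot (z.1 : ℚ) := by
    intro z hz
    obtain ⟨hz1, hz2⟩ := hΩ z hz
    have hρ : (z.2 : ℚ) ^ m = (evalRingHom (z.1 : ℚ)) h := by
      have h4 : (al : ℚ) * (z.1 : ℚ) ^ k + be * (z.2 : ℚ) ^ m = ga := by exact_mod_cast hz1
      simp only [hh, coe_evalRingHom, eval_add, eval_mul, eval_C, eval_pow, eval_X, ha', hb']
      field_simp
      linear_combination h4
    have h4 : ∑ j ∈ range m, (evalRingHom (z.1 : ℚ)) (G j) * (z.2 : ℚ) ^ j = 0 := by
      rw [← hz2, sum_comm, ← sum_range_add_sum_Ico _ hr]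
      have h5 : ∑ j ∈ Ico r m, (evalRingHom (z.1 : ℚ)) (G j) * (z.2 : ℚ) ^ j = 0 := by
        refine sum_eq_zero fun j hj => ?_
        rw [mem_Ico] at hj
        simp [hG, dif_neg (by omega : ¬ j < r)]
      rw [h5, add_zero, ← Fin.sum_univ_eq_sum_range
        (fun j => (evalRingHom (z.1 : ℚ)) (G j) * (z.2 : ℚ) ^ j) r]
      refine sum_congr rfl fun b _ => ?_
      simp only [hG, dif_pos b.isLt, coe_evalRingHom, eval_finsetSum, eval_mul, eval_C, eval_pow,
        eval_X, sum_mul]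
    have h6 : ((Mt m h G).map (evalRingHom (z.1 : ℚ))).mulVec (fun n => (z.2 : ℚ) ^ (n : ℕ)) = 0 := by
      ext1 i
      rw [Matrix.mulVec, dotProduct, Pi.zero_apply]
      have h7 := Mt_mul (evalRingHom (z.1 : ℚ)) (z.2 : ℚ) m h G hρ i
      rw [h4, mul_zero] at h7
      exact h7
    have h8 : ((Mt m h G).map (evalRingHom (z.1 : ℚ))).det = 0 := by
      apply Matrix.exists_mulVec_eq_zero_iff.1
      refine ⟨_, ?_, h6⟩
      intro h9
      have := congrFun h9 ⟨0, by omega⟩
      simp at this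
    rw [IsRoot.def, hD, ← coe_evalRingHom, RingHom.map_det, RingHom.mapMatrix_apply]
    exact h8
  calc Ω.card = (Ω.image fun z : ℕ × ℕ => (z.1 : ℚ)).card := by
        rw [card_image_of_injOn]
        intro z hz w hw hzw
        have hzw' : (z.1 : ℚ) = (w.1 : ℚ) := hzw
        exact hinj hz hw (Nat.cast_injective hzw')
    _ ≤ D.roots.toFinset.card := by
        refine card_le_card fun q hq => ?_
        rw [mem_image] at hq
        obtain ⟨z, hz, rfl⟩ := hq
        rw [Multiset.mem_toFinset, mem_roots hD0]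
        exact hroot z hz
    _ ≤ Multiset.card D.roots := Multiset.toFinset_card_le _
    _ ≤ D.natDegree := card_roots' D
    _ ≤ m * (k + r) := hDdeg

end Pool.MP_a95293_nt.PS.Bp
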