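import Pool.Agent.Lib_MP_a95293_ps.BpB
import Pool.Agent.Lib_MP_a95293_ps.BpC

/-!
# Piece BP: few integer points with prime coordinates on `α x^k + β y^m = γ`, `k, m` large (Bombieri-Pila)

The `ℓ`-adic determinant method: `ℓ ≈ X^(4/(r+1))` a prime not dividing `k m α β`; in each of the `ℓ²` residue classes a
nonzero polynomial of degree `< r` in both variables vanishes at all points (`aux_poly`), so there are at most `m (k + r)` points
(`bezout`).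
-/

set_option autoImplicit false

namespace Pool.MP_a95293_nt.PS

open Finset

namespace Bp

theorem choose_prime (Z t n : ℕ) (hZ : 1 ≤ Z) (hn0 : n ≠ 0) (hn : n < Z ^ (t + 1)) :
    ∃ l : ℕ, l.Prime ∧ Z < l ∧ l ≤ 2 ^ (t + 1) * Z ∧ ¬ l ∣ n := by
  classical
  have hex : ∀ i : ℕ, ∃ p : ℕ, p.Prime ∧ 2 ^ i * Z < p ∧ p ≤ 2 ^ (i + 1) * Z := by
    intro i
    obtain ⟨p, hp, h1, h2⟩ := Nat.exists_prime_lt_and_le_two_mul (2 ^ i * Z)
      (Nat.mul_ne_zero (pow_ne_zero _ two_ne_zero) (by omega))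
    exact ⟨p, hp, h1, h2.trans (le_of_eq (by ring))⟩
  choose p hp h1 h2 using hex
  by_contra hcon
  push Not at hcon
  have hmono : StrictMono p := by
    refine strictMono_nat_of_lt_succ fun i => ?_
    exact lt_of_le_of_lt (h2 i) (h1 (i + 1))
  have hdvd : ∀ i ∈ range (t + 1), p i ∣ n := by
    intro i hi
    rw [mem_range] at hi
    refine hcon (p i) (hp i) ?_ ?_
    · refine lt_of_le_of_lt ?_ (h1 i)
      exact Nat.le_mul_of_pos_left _ (by positivity)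
    · refine (h2 i).trans ?_
      gcongr
      · norm_num
      · omega
  have hprod : ∏ q ∈ (range (t + 1)).image p, q ∣ n := by
    refine Finset.prod_primes_dvd n ?_ ?_
    · intro q hq
      obtain ⟨i, _, rfl⟩ := mem_image.1 hq
      exact (hp i).prime
    · intro q hq
      obtain ⟨i, hi, rfl⟩ := mem_image.1 hq
      exact hdvd i hi
  rw [prod_image (fun a _ b _ h => hmono.injective h)] at hprod
  have h3 : Z ^ (t + 1) ≤ ∏ i ∈ range (t + 1), p i := by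
    calc Z ^ (t + 1) = ∏ _i ∈ range (t + 1), Z := by rw [prod_const, card_range]
      _ ≤ ∏ i ∈ range (t + 1), p i := by
        refine prod_le_prod' fun i _ => ?_
        exact (Nat.le_mul_of_pos_left _ (by positivity)).trans (h1 i).le
  have h4 := Nat.le_of_dvd (Nat.pos_of_ne_zero hn0) hprod
  omega

theorem size_ineq (r w X f l : ℕ) (hr : 2 ≤ r) (hX : 1 ≤ X) (hw : X ^ 4 ≤ w ^ (r + 1))
    (hl : f * w < l) : f * (X ^ (2 * (r - 1))) ^ (r * r) < l ^ (r * r * (r * r - 1) / 2) := by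
  obtain ⟨T, hT⟩ : ∃ T, r * (r - 1) = 2 * T := by
    obtain ⟨T, hT⟩ := Nat.even_mul_pred_self r
    exact ⟨T, by omega⟩
  have hT1 : 1 ≤ T := by
    have : 2 * 1 ≤ r * (r - 1) := Nat.mul_le_mul hr (by omega)
    omega
  have e1 : r * r * (r * r - 1) / 2 = (r + 1) * (T * r) := by
    have h1 : r * r - 1 = (r - 1) * (r + 1) := by
      obtain ⟨s, rfl⟩ : ∃ s, r = s + 1 := ⟨r - 1, by omega⟩
      simp only [Nat.add_sub_cancel]
      have : (s + 1) * (s + 1) = s * (s + 1 + 1) + 1 := by ring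
      omega
    rw [h1]
    have h2 : r * r * ((r - 1) * (r + 1)) = 2 * ((r + 1) * (T * r)) := by
      calc r * r * ((r - 1) * (r + 1)) = r * (r - 1) * (r * (r + 1)) := by ring
        _ = 2 * ((r + 1) * (T * r)) := by
          rw [hT]
          ring
    rw [h2]
    omega
  have hN : 1 ≤ (r + 1) * (T * r) := Nat.succ_le_of_lt (by positivity)
  rw [e1]
  have hwpos : 1 ≤ w := by
    by_contra h
    have h0 : w = 0 := by omega
    rw [h0, zero_pow (by omega)] at hw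
    have : 1 ≤ X ^ 4 := Nat.one_le_pow _ _ hX
    omega
  have h3 : f * (X ^ (2 * (r - 1))) ^ (r * r) ≤ (f * w) ^ ((r + 1) * (T * r)) := by
    rw [mul_pow]
    refine Nat.mul_le_mul ?_ ?_
    · exact Nat.le_self_pow (by omega) f
    · rw [pow_mul w]
      calc (X ^ (2 * (r - 1))) ^ (r * r) = (X ^ 4) ^ (T * r) := by
            rw [← pow_mul, ← pow_mul]
            congr 1
            calc 2 * (r - 1) * (r * r) = 2 * (r * (r - 1)) * r := by ring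
              _ = 4 * (T * r) := by
                rw [hT]
                ring
        _ ≤ (w ^ (r + 1)) ^ (T * r) := Nat.pow_le_pow_left hw _
  refine lt_of_le_of_lt h3 ?_
  exact Nat.pow_lt_pow_left hl (by omega)

/-- points of one residue class -/
theorem class_card (l : ℕ) (hl : l.Prime) (k m r X : ℕ) (hk : 1 ≤ k) (hm1 : 1 ≤ m) (hr : r ≤ m)
    (hX : 1 ≤ X) (hm : ¬ l ∣ m) (al be ga : ℤ) (h1 : al ≠ 0) (h2 : be ≠ 0) (h3 : ga ≠ 0)
    (hbe : ¬ (l : ℤ) ∣ be)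
    (hsize : (r * r).factorial * (X ^ (2 * (r - 1))) ^ (r * r) < l ^ (r * r * (r * r - 1) / 2))
    (Ω : Finset (ℕ × ℕ)) (a b : ℕ) (hΩ : ∀ z ∈ Ω, al * (z.1 : ℤ) ^ k + be * (z.2 : ℤ) ^ m = ga ∧
      z.1 % l = a ∧ z.2 % l = b ∧ ¬ l ∣ z.2 ∧ z.1 ≤ X ∧ z.2 ≤ X) :
    Ω.card ≤ m * (k + r) := by
  classical
  rcases Ω.eq_empty_or_nonempty with h | ⟨z0, hz0⟩
  · rw [h, card_empty]
    exact Nat.zero_le _
  obtain ⟨-, a1, a2, a3, -, -⟩ := hΩ z0 hz0
  have hmod : ∀ u v : ℕ, u % l = v % l → (l : ℤ) ∣ (u : ℤ) - v := by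
    intro u v huv
    have h4 : v ≡ u [MOD l] := huv.symm
    exact (Nat.modEq_iff_dvd.1 h4)
  obtain ⟨c, hc, hc0⟩ := aux_poly l hl k m r X hm al be ga z0.1 z0.2 hbe
    (fun h => a3 (Int.natCast_dvd_natCast.1 h)) hX hsize Ω (fun z hz => by
      obtain ⟨b0, b1, b2, -, b4, b5⟩ := hΩ z hz
      exact ⟨b0, hmod _ _ (b1.trans a1.symm), hmod _ _ (b2.trans a2.symm), b4, b5⟩)
  refine bezout k m r hk hm1 hr al be ga h1 h2 h3 c hc Ω (fun z hz => ⟨(hΩ z hz).1, hc0 z hz⟩) ?_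
  intro z hz w hw hzw
  have e1 := (hΩ z hz).1
  have e2 := (hΩ w hw).1
  have hzw' : z.1 = w.1 := hzw
  rw [hzw'] at e1
  have e3 : be * (z.2 : ℤ) ^ m = be * (w.2 : ℤ) ^ m := by linarith
  have e4 : (z.2 : ℤ) ^ m = (w.2 : ℤ) ^ m := mul_left_cancel₀ h2 e3
  have e5 : z.2 ^ m = w.2 ^ m := by exact_mod_cast e4
  exact Prod.ext hzw' (Nat.pow_left_injective (Nat.one_le_iff_ne_zero.1 hm1) e5)

end Bp

open Bp

theorem bp (τ : ℝ) (hτ : 0 < τ) : ∃ e₀ : ℕ, 2 ≤ e₀ ∧ ∀ E A : ℕ, ∃ C : ℝ, 1 ≤ C ∧ ∀ X k m : ℕ,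
    1 ≤ X → e₀ ≤ k → k ≤ E → e₀ ≤ m → m ≤ E → ∀ al be ga : ℤ, al ≠ 0 → be ≠ 0 → ga ≠ 0 →
    |al| ≤ (X : ℤ) ^ A → |be| ≤ (X : ℤ) ^ A → ∀ S : Finset (ℕ × ℕ), (∀ z ∈ S, z.1.Prime ∧
      z.2.Prime ∧ z.1 ≤ X ∧ z.2 ≤ X ∧ al * (z.1 : ℤ) ^ k + be * (z.2 : ℤ) ^ m = ga) →
    (S.card : ℝ) ≤ C * (X : ℝ) ^ τ := by
  classical
  set r : ℕ := ⌈8 / τ⌉₊ + 2 with hr
  refine ⟨r, by omega, fun E A => ?_⟩
  set f : ℕ := (r * r).factorial with hf
  have hf1 : 1 ≤ f := Nat.factorial_pos _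
  have hf2 : 2 ≤ f := by
    rw [hf]
    calc 2 = Nat.factorial 2 := rfl
      _ ≤ (r * r).factorial := Nat.factorial_le (by nlinarith)
  set t : ℕ := (r + 1) * A + 2 * E with ht
  refine ⟨2 + 2 * (E : ℝ) ^ 2 * (2 ^ (t + 2) * f) ^ 2, ?_, ?_⟩
  · have : (0 : ℝ) ≤ 2 * (E : ℝ) ^ 2 * (2 ^ (t + 2) * f) ^ 2 := by positivity
    linarith
  intro X k m hX hk hkE hm hmE al be ga h1 h2 h3 hal hbe S hS
  have hX0 : (0 : ℝ) < X := by exact_mod_cast hX
  have hX1 : (1 : ℝ) ≤ X := by exact_mod_cast hX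
  set w : ℕ := ⌈(X : ℝ) ^ ((4 : ℝ) / ((r : ℝ) + 1))⌉₊ with hw
  have hw1 : (X : ℝ) ^ ((4 : ℝ) / ((r : ℝ) + 1)) ≤ w := Nat.le_ceil _
  have hX4 : (1 : ℝ) ≤ (X : ℝ) ^ ((4 : ℝ) / ((r : ℝ) + 1)) :=
    Real.one_le_rpow hX1 (by positivity)
  have hw2 : (w : ℝ) ≤ 2 * (X : ℝ) ^ ((4 : ℝ) / ((r : ℝ) + 1)) := by
    have := Nat.ceil_lt_add_one (a := (X : ℝ) ^ ((4 : ℝ) / ((r : ℝ) + 1))) (by positivity)
    rw [← hw] at this
    linarith
  have hw4 : X ^ 4 ≤ w ^ (r + 1) := by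
    have h4 : (X : ℝ) ^ 4 ≤ (w : ℝ) ^ (r + 1) := by
      calc (X : ℝ) ^ 4 = ((X : ℝ) ^ ((4 : ℝ) / ((r : ℝ) + 1))) ^ (r + 1) := by
            rw [← Real.rpow_natCast ((X : ℝ) ^ ((4 : ℝ) / ((r : ℝ) + 1))), ← Real.rpow_mul hX0.le]
            push_cast
            rw [div_mul_cancel₀ _ (by positivity)]
            norm_num
        _ ≤ (w : ℝ) ^ (r + 1) := pow_le_pow_left₀ (by positivity) hw1 _
    exact_mod_cast h4
  have hwpos : 1 ≤ w := by
    have : (1 : ℝ) ≤ w := hX4.trans hw1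
    exact_mod_cast this
  set n : ℕ := k * m * (al.natAbs * be.natAbs) with hn
  have hn0 : n ≠ 0 := by
    rw [hn]
    exact Nat.mul_ne_zero (Nat.mul_ne_zero (by omega) (by omega))
      (Nat.mul_ne_zero (Int.natAbs_ne_zero.2 h1) (Int.natAbs_ne_zero.2 h2))
  have hnt : n < (f * w) ^ (t + 1) := by
    have a1 : al.natAbs ≤ X ^ A := by
      have : (al.natAbs : ℤ) ≤ ((X ^ A : ℕ) : ℤ) := by
        rw [Int.natCast_natAbs]
        exact_mod_cast hal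
      exact_mod_cast this
    have a2 : be.natAbs ≤ X ^ A := by
      have : (be.natAbs : ℤ) ≤ ((X ^ A : ℕ) : ℤ) := by
        rw [Int.natCast_natAbs]
        exact_mod_cast hbe
      exact_mod_cast this
    have a3 : X ^ A * X ^ A ≤ w ^ ((r + 1) * A) := by
      rw [pow_mul w]
      calc X ^ A * X ^ A = (X ^ 2) ^ A := by ring
        _ ≤ (X ^ 4) ^ A := Nat.pow_le_pow_left (Nat.pow_le_pow_right hX (by norm_num)) _
        _ ≤ (w ^ (r + 1)) ^ A := Nat.pow_le_pow_left hw4 _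
    have a4 : E * E < 2 ^ (2 * E + 1) := by
      have h5 : E < 2 ^ E := Nat.lt_two_pow_self
      calc E * E < 2 ^ E * 2 ^ E := Nat.mul_lt_mul'' h5 h5
        _ ≤ 2 ^ (2 * E + 1) := by
          rw [← pow_add]
          exact Nat.pow_le_pow_right (by norm_num) (by omega)
    calc n ≤ E * E * (X ^ A * X ^ A) :=
          Nat.mul_le_mul (Nat.mul_le_mul hkE hmE) (Nat.mul_le_mul a1 a2)
      _ ≤ E * E * w ^ ((r + 1) * A) := Nat.mul_le_mul_left _ a3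
      _ < 2 ^ (2 * E + 1) * w ^ ((r + 1) * A) :=
          Nat.mul_lt_mul_of_pos_right a4 (by positivity)
      _ ≤ (f * w) ^ (2 * E + 1) * (f * w) ^ ((r + 1) * A) := by
          gcongr
          · calc 2 ≤ f := hf2
              _ ≤ f * w := Nat.le_mul_of_pos_right _ hwpos
          · exact Nat.le_mul_of_pos_left _ hf1
      _ = (f * w) ^ (t + 1) := by
          rw [← pow_add]
          congr 1
          omega
  obtain ⟨l, hl, hl1, hl2, hl3⟩ := choose_prime (f * w) t n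
    (Nat.succ_le_of_lt (Nat.mul_pos hf1 hwpos)) hn0 hnt
  have hlm : ¬ l ∣ m := by
    intro h
    exact hl3 (Dvd.dvd.mul_right (Dvd.dvd.mul_left h k) _)
  have hlbe : ¬ (l : ℤ) ∣ be := by
    intro h
    exact hl3 (Dvd.dvd.mul_left (Dvd.dvd.mul_left (Int.natCast_dvd.1 h) _) _)
  have hsize := size_ineq r w X f l (by omega) hX hw4 hl1
  -- the two exceptional sets
  have hfst : ∀ z ∈ S, ∀ z' ∈ S, z.1 = z'.1 → z = z' := by
    intro z hz z' hz' hzz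
    have e1 := (hS z hz).2.2.2.2
    have e2 := (hS z' hz').2.2.2.2
    rw [hzz] at e1
    have e3 : be * (z.2 : ℤ) ^ m = be * (z'.2 : ℤ) ^ m := by linarith
    have e4 : (z.2 : ℤ) ^ m = (z'.2 : ℤ) ^ m := mul_left_cancel₀ h2 e3
    have e5 : z.2 ^ m = z'.2 ^ m := by exact_mod_cast e4
    exact Prod.ext hzz (Nat.pow_left_injective (show m ≠ 0 by omega) e5)
  have hsnd : ∀ z ∈ S, ∀ z' ∈ S, z.2 = z'.2 → z = z' := by
    intro z hz z' hz' hzz
    have e1 := (hS z hz).2.2.2.2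
    have e2 := (hS z' hz').2.2.2.2
    rw [hzz] at e1
    have e3 : al * (z.1 : ℤ) ^ k = al * (z'.1 : ℤ) ^ k := by linarith
    have e4 : (z.1 : ℤ) ^ k = (z'.1 : ℤ) ^ k := mul_left_cancel₀ h1 e3
    have e5 : z.1 ^ k = z'.1 ^ k := by exact_mod_cast e4
    exact Prod.ext (Nat.pow_left_injective (show k ≠ 0 by omega) e5) hzz
  have c1 : (S.filter fun z => z.1 = l).card ≤ 1 := by
    rw [card_le_one]
    intro z hz z' hz'
    rw [mem_filter] at hz hz'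
    exact hfst z hz.1 z' hz'.1 (hz.2.trans hz'.2.symm)
  have c2 : (S.filter fun z => z.2 = l).card ≤ 1 := by
    rw [card_le_one]
    intro z hz z' hz'
    rw [mem_filter] at hz hz'
    exact hsnd z hz.1 z' hz'.1 (hz.2.trans hz'.2.symm)
  set S' := S.filter fun z => ¬ z.2 = l with hS'
  have c3 : S'.card ≤ (2 * E * E) * (S'.image fun z => (z.1 % l, z.2 % l)).card := by
    refine card_le_mul_card_image _ _ fun ab _ => ?_
    refine (class_card l hl k m r X (by omega) (by omega) hm hX hlm al be ga h1 h2 h3 hlbe hsize _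
      ab.1 ab.2 ?_).trans ?_
    · intro z hz
      rw [mem_filter, hS', mem_filter] at hz
      obtain ⟨⟨hz1, hz2⟩, hz3⟩ := hz
      obtain ⟨q1, q2, q3, q4, q5⟩ := hS z hz1
      refine ⟨q5, congrArg Prod.fst hz3, congrArg Prod.snd hz3, ?_, q3, q4⟩
      intro hd
      rw [Nat.prime_dvd_prime_iff_eq hl q2] at hd
      exact hz2 hd.symm
    · calc m * (k + r) ≤ E * (E + E) := Nat.mul_le_mul hmE (Nat.add_le_add hkE (hk.trans hkE))
        _ = 2 * E * E := by ring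
  have c4 : (S'.image fun z => (z.1 % l, z.2 % l)).card ≤ l * l := by
    have : (S'.image fun z => (z.1 % l, z.2 % l)) ⊆ range l ×ˢ range l := by
      intro ab hab
      obtain ⟨z, _, rfl⟩ := mem_image.1 hab
      rw [mem_product, mem_range, mem_range]
      exact ⟨Nat.mod_lt _ hl.pos, Nat.mod_lt _ hl.pos⟩
    calc _ ≤ (range l ×ˢ range l).card := card_le_card this
      _ = l * l := by rw [card_product, card_range]
  have c5 : S.card ≤ 1 + 2 * E * E * (l * l) := by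
    have h5 := card_filter_add_card_filter_not (s := S) (fun z => z.2 = l)
    have h6 := c3.trans (Nat.mul_le_mul_left (2 * E * E) c4)
    have h7 : (S.filter fun z => ¬ z.2 = l).card = S'.card := rfl
    omega
  have c6 : (l : ℝ) ≤ 2 ^ (t + 2) * f * (X : ℝ) ^ ((4 : ℝ) / ((r : ℝ) + 1)) := by
    have h5 : (l : ℝ) ≤ 2 ^ (t + 1) * (f * w) := by exact_mod_cast hl2
    calc (l : ℝ) ≤ 2 ^ (t + 1) * (f * w) := h5
      _ ≤ 2 ^ (t + 1) * (f * (2 * (X : ℝ) ^ ((4 : ℝ) / ((r : ℝ) + 1)))) := by gcongr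
      _ = 2 ^ (t + 2) * f * (X : ℝ) ^ ((4 : ℝ) / ((r : ℝ) + 1)) := by ring
  have c7 : ((X : ℝ) ^ ((4 : ℝ) / ((r : ℝ) + 1))) ^ 2 ≤ (X : ℝ) ^ τ := by
    rw [← Real.rpow_natCast ((X : ℝ) ^ ((4 : ℝ) / ((r : ℝ) + 1))), ← Real.rpow_mul hX0.le]
    apply Real.rpow_le_rpow_of_exponent_le hX1
    have h5 : 8 / τ ≤ r := by
      have := Nat.le_ceil (8 / τ)
      rw [hr]
      push_cast
      linarith
    have h6 : 8 ≤ r * τ := by
      rw [div_le_iff₀ hτ] at h5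
      exact h5
    push_cast
    rw [div_mul_eq_mul_div, div_le_iff₀ (by positivity)]
    nlinarith
  have c8 : (1 : ℝ) ≤ (X : ℝ) ^ τ := Real.one_le_rpow hX1 hτ.le
  have c9 : (l : ℝ) * l ≤ (2 ^ (t + 2) * f) ^ 2 * (X : ℝ) ^ τ := by
    have h5 : (0 : ℝ) ≤ l := Nat.cast_nonneg l
    calc (l : ℝ) * l ≤ (2 ^ (t + 2) * f * (X : ℝ) ^ ((4 : ℝ) / ((r : ℝ) + 1))) *
          (2 ^ (t + 2) * f * (X : ℝ) ^ ((4 : ℝ) / ((r : ℝ) + 1))) := by gcongr
      _ = (2 ^ (t + 2) * f) ^ 2 * ((X : ℝ) ^ ((4 : ℝ) / ((r : ℝ) + 1))) ^ 2 := by ring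
      _ ≤ (2 ^ (t + 2) * f) ^ 2 * (X : ℝ) ^ τ := by gcongr
  have c10 : (S.card : ℝ) ≤ 1 + 2 * E * E * (l * l) := by exact_mod_cast c5
  calc (S.card : ℝ) ≤ 1 + 2 * E * E * (l * l) := c10
    _ ≤ 1 * (X : ℝ) ^ τ + 2 * E * E * ((2 ^ (t + 2) * f) ^ 2 * (X : ℝ) ^ τ) := by
        gcongr
        linarith
    _ ≤ (2 + 2 * (E : ℝ) ^ 2 * (2 ^ (t + 2) * f) ^ 2) * (X : ℝ) ^ τ := by
        nlinarith

end Pool.MP_a95293_nt.PS
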