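import Pool.Agent.Lib_MP_a95293_ps.Gcp
import Pool.Agent.Lib_MP_a95293_ps.Bp

/-!
# Piece FAMJ: two sides with a big prime of large exponent, the third side known

Given the known side and the cofactors of the two big primes, `bp` leaves `X^ε` possibilities.
-/

set_option autoImplicit false

namespace Pool.MP_a95293_nt.PS

open Finset
open Pool.MP_a95293_nt.RC (rd Prm pr3)

/-- general form: the data `f₁, f₂, f₃` and the signs `s₁, s₂, s₃` determine the curve -/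
theorem FamJ_aux (ε : ℝ) (hε : 0 < ε) : ∃ e₀ : ℕ, 2 ≤ e₀ ∧ ∀ A E : ℕ, ∃ C : ℝ, 1 ≤ C ∧
    ∀ (X : ℕ) (Y : ℝ), 1 ≤ X → 0 ≤ Y → ∀ (s₁ s₂ s₃ : ℤ), |s₁| = 1 → |s₂| = 1 → |s₃| = 1 →
    ∀ (S : Finset (ℕ × ℕ)) (f₁ f₂ f₃ k m x y : ℕ × ℕ → ℕ),
    (∀ z ∈ S, (1 ≤ f₁ z ∧ f₁ z ≤ X ^ A) ∧ (1 ≤ f₂ z ∧ f₂ z ≤ X ^ A) ∧
      (1 ≤ f₃ z ∧ f₃ z ≤ X ^ A) ∧ (e₀ ≤ k z ∧ k z ≤ E) ∧ (e₀ ≤ m z ∧ m z ≤ E) ∧
      ((x z).Prime ∧ x z ≤ X) ∧ ((y z).Prime ∧ y z ≤ X) ∧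
      s₂ * f₂ z * (x z : ℤ) ^ k z + s₃ * f₃ z * (y z : ℤ) ^ m z = s₁ * f₁ z ∧
      (rd (f₁ z) : ℝ) * rd (f₂ z) * rd (f₃ z) ≤ Y) →
    (∀ z ∈ S, ∀ z' ∈ S, f₁ z = f₁ z' → f₂ z = f₂ z' → f₃ z = f₃ z' → k z = k z' → m z = m z' →
      x z = x z' → y z = y z' → z = z') →
    (S.card : ℝ) ≤ C * (X : ℝ) ^ ε * Y := by
  classical
  obtain ⟨e₀, he₀, hbp⟩ := bp (ε / 2) (by positivity)
  refine ⟨e₀, he₀, fun A E => ?_⟩
  obtain ⟨Cg, hCg, hg⟩ := gcp A (ε / 2) (by positivity)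
  obtain ⟨Cb, hCb, hb⟩ := hbp E A
  refine ⟨Cg * (((E : ℝ) + 1) ^ 2 * Cb), ?_, ?_⟩
  · have h1 : (1 : ℝ) ≤ ((E : ℝ) + 1) ^ 2 := by
      have : (0 : ℝ) ≤ E := Nat.cast_nonneg E
      nlinarith
    exact one_le_mul_of_one_le_of_one_le hCg (one_le_mul_of_one_le_of_one_le h1 hCb)
  intro X Y hX hY s₁ s₂ s₃ hs₁ hs₂ hs₃ S f₁ f₂ f₃ k m x y hS hinj
  have hX1 : (1 : ℝ) ≤ X := by exact_mod_cast hX
  have hX0 : (0 : ℝ) < X := by linarith
  have hXe2 : (X : ℝ) ^ (ε / 2) * (X : ℝ) ^ (ε / 2) = (X : ℝ) ^ ε := by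
    rw [← Real.rpow_add hX0]
    congr 1
    ring
  have hs0 : ∀ s : ℤ, |s| = 1 → s ≠ 0 := by
    rintro s hs rfl
    simp at hs
  set w : ℝ := ((E : ℝ) + 1) ^ 2 * (Cb * (X : ℝ) ^ (ε / 2)) with hw
  have hw0 : 0 ≤ w := by positivity
  have main := hg X (w * Y) hX (by positivity) S f₁ f₂ f₃ (fun _ => w)
    (fun s hs => (hS s hs).1) (fun s hs => (hS s hs).2.1) (fun s hs => (hS s hs).2.2.1) ?_ ?_
  · refine main.trans (le_of_eq ?_)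
    rw [hw, ← hXe2]
    ring
  · intro s hs
    refine ⟨s, hs, rfl, rfl, rfl, ?_⟩
    set F := S.filter fun t => f₁ t = f₁ s ∧ f₂ t = f₂ s ∧ f₃ t = f₃ s with hF
    have hfib : F.card = ∑ p ∈ range (E + 1) ×ˢ range (E + 1),
        (F.filter fun z => (k z, m z) = p).card := by
      apply card_eq_sum_card_fiberwise
      intro z hz
      rw [mem_coe, hF, mem_filter] at hz
      rw [mem_coe, mem_product, mem_range, mem_range]
      obtain ⟨_, _, _, h4, h5, _⟩ := hS z hz.1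
      exact ⟨Nat.lt_succ_of_le h4.2, Nat.lt_succ_of_le h5.2⟩
    have hb2 : ∀ p ∈ range (E + 1) ×ˢ range (E + 1),
        ((F.filter fun z => (k z, m z) = p).card : ℝ) ≤ Cb * (X : ℝ) ^ (ε / 2) := by
      intro p _
      rcases (F.filter fun z => (k z, m z) = p).eq_empty_or_nonempty with h0 | ⟨z₀, hz₀⟩
      · rw [h0]
        simp only [card_empty, Nat.cast_zero]
        positivity
      · have hmem : ∀ z ∈ F.filter fun z => (k z, m z) = p, z ∈ S ∧ f₁ z = f₁ s ∧ f₂ z = f₂ s ∧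
            f₃ z = f₃ s ∧ k z = p.1 ∧ m z = p.2 := by
          intro z hz
          rw [mem_filter, hF, mem_filter] at hz
          obtain ⟨⟨h1, h2, h3, h4⟩, h5⟩ := hz
          exact ⟨h1, h2, h3, h4, congrArg Prod.fst h5, congrArg Prod.snd h5⟩
        have hcard : (F.filter fun z => (k z, m z) = p).card =
            ((F.filter fun z => (k z, m z) = p).image fun z => (x z, y z)).card := by
          rw [card_image_of_injOn]
          intro z hz z' hz' h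
          obtain ⟨a1, a2, a3, a4, a5, a6⟩ := hmem z hz
          obtain ⟨b1, b2, b3, b4, b5, b6⟩ := hmem z' hz'
          have h' : (x z, y z) = (x z', y z') := h
          rw [Prod.mk.injEq] at h'
          exact hinj z a1 z' b1 (a2.trans b2.symm) (a3.trans b3.symm) (a4.trans b4.symm)
            (a5.trans b5.symm) (a6.trans b6.symm) h'.1 h'.2
        rw [hcard]
        obtain ⟨c1, c2, c3, c4, c5, c6⟩ := hmem z₀ hz₀
        obtain ⟨d1, d2, d3, d4, d5, d6, d7, d8, d9⟩ := hS z₀ c1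
        rw [c2] at d1
        rw [c3] at d2
        rw [c4] at d3
        rw [c5] at d4
        rw [c6] at d5
        refine hb X p.1 p.2 hX d4.1 d4.2 d5.1 d5.2 (s₂ * f₂ s) (s₃ * f₃ s) (s₁ * f₁ s)
          (mul_ne_zero (hs0 _ hs₂) (by exact_mod_cast (by omega : f₂ s ≠ 0)))
          (mul_ne_zero (hs0 _ hs₃) (by exact_mod_cast (by omega : f₃ s ≠ 0)))
          (mul_ne_zero (hs0 _ hs₁) (by exact_mod_cast (by omega : f₁ s ≠ 0))) ?_ ?_ _ ?_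
        · rw [abs_mul, hs₂, one_mul, Nat.abs_cast]
          exact_mod_cast d2.2
        · rw [abs_mul, hs₃, one_mul, Nat.abs_cast]
          exact_mod_cast d3.2
        · intro v hv
          rw [mem_image] at hv
          obtain ⟨z, hz, rfl⟩ := hv
          obtain ⟨a1, a2, a3, a4, a5, a6⟩ := hmem z hz
          obtain ⟨_, _, _, _, _, g6, g7, g8, _⟩ := hS z a1
          rw [a2, a3, a4, a5, a6] at g8
          exact ⟨g6.1, g7.1, g6.2, g7.2, g8⟩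
    have hFc : (F.card : ℝ) = ∑ p ∈ range (E + 1) ×ˢ range (E + 1),
        ((F.filter fun z => (k z, m z) = p).card : ℝ) := by
      rw [hfib]
      push_cast
      rfl
    rw [hFc]
    refine (sum_le_sum hb2).trans (le_of_eq ?_)
    rw [sum_const, card_product, card_range, nsmul_eq_mul, hw]
    push_cast
    ring
  · intro s hs
    obtain ⟨_, _, _, _, _, _, _, _, h9⟩ := hS s hs
    have := mul_le_mul_of_nonneg_right h9 hw0
    linarith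

/-- `b = B x^k`, `c = D y^m`, data `(a, B, D)` -/
def PJ1 (X e₀ E : ℕ) (Y : ℝ) (z : ℕ × ℕ) : Prop :=
  ∃ k m B D x y : ℕ, (e₀ ≤ k ∧ k ≤ E) ∧ (e₀ ≤ m ∧ m ≤ E) ∧ (x.Prime ∧ x ≤ X) ∧ (y.Prime ∧ y ≤ X) ∧
    z.2 = B * x ^ k ∧ z.1 + z.2 = D * y ^ m ∧ (rd z.1 : ℝ) * rd B * rd D ≤ Y

/-- `a = B x^k`, `c = D y^m`, data `(b, B, D)` -/
def PJ2 (X e₀ E : ℕ) (Y : ℝ) (z : ℕ × ℕ) : Prop :=
  ∃ k m B D x y : ℕ, (e₀ ≤ k ∧ k ≤ E) ∧ (e₀ ≤ m ∧ m ≤ E) ∧ (x.Prime ∧ x ≤ X) ∧ (y.Prime ∧ y ≤ X) ∧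
    z.1 = B * x ^ k ∧ z.1 + z.2 = D * y ^ m ∧ (rd z.2 : ℝ) * rd B * rd D ≤ Y

/-- `a = B x^k`, `b = D y^m`, data `(c, B, D)` -/
def PJ3 (X e₀ E : ℕ) (Y : ℝ) (z : ℕ × ℕ) : Prop :=
  ∃ k m B D x y : ℕ, (e₀ ≤ k ∧ k ≤ E) ∧ (e₀ ≤ m ∧ m ≤ E) ∧ (x.Prime ∧ x ≤ X) ∧ (y.Prime ∧ y ≤ X) ∧
    z.1 = B * x ^ k ∧ z.2 = D * y ^ m ∧ (rd (z.1 + z.2) : ℝ) * rd B * rd D ≤ Y

private theorem FamJ_bd {n B p : ℕ} (h : n = B * p) (hn : 1 ≤ n) : 1 ≤ B ∧ B ≤ n := by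
  subst h
  constructor
  · by_contra h
    have : B = 0 := by omega
    rw [this] at hn
    omega
  · by_contra h
    rcases Nat.eq_zero_or_pos p with h0 | h0
    · rw [h0] at hn
      omega
    · exact h (Nat.le_mul_of_pos_right B h0)

theorem famJ (ε : ℝ) (hε : 0 < ε) : ∃ e₀ : ℕ, 2 ≤ e₀ ∧ ∀ A E : ℕ, ∃ C : ℝ, 1 ≤ C ∧
    ∀ (X : ℕ) (Y : ℝ), 1 ≤ X → 0 ≤ Y → ∀ S : Finset (ℕ × ℕ), (∀ z ∈ S, Prm z ∧ z.1 + z.2 ≤ X ^ A ∧
      (PJ1 X e₀ E Y z ∨ PJ2 X e₀ E Y z ∨ PJ3 X e₀ E Y z)) →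
    (S.card : ℝ) ≤ C * (X : ℝ) ^ ε * Y := by
  classical
  obtain ⟨e₀, he₀, h⟩ := FamJ_aux ε hε
  refine ⟨e₀, he₀, fun A E => ?_⟩
  obtain ⟨C, hC, h⟩ := h A E
  refine ⟨3 * C, by linarith, ?_⟩
  intro X Y hX hY S hS
  set S₁ := S.filter fun z => PJ1 X e₀ E Y z with hS₁
  set S₂ := S.filter fun z => PJ2 X e₀ E Y z with hS₂
  set S₃ := S.filter fun z => PJ3 X e₀ E Y z with hS₃
  have b1 : ∀ z ∈ S, 1 ≤ z.1 ∧ z.1 ≤ X ^ A := fun z hz =>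
    ⟨(hS z hz).1.1, le_trans (Nat.le_add_right _ _) (hS z hz).2.1⟩
  have b2 : ∀ z ∈ S, 1 ≤ z.2 ∧ z.2 ≤ X ^ A := fun z hz =>
    ⟨(hS z hz).1.2.1, le_trans (Nat.le_add_left _ _) (hS z hz).2.1⟩
  have b3 : ∀ z ∈ S, 1 ≤ z.1 + z.2 ∧ z.1 + z.2 ≤ X ^ A := fun z hz =>
    ⟨le_trans (b1 z hz).1 (Nat.le_add_right _ _), (hS z hz).2.1⟩
  have c1 : (S₁.card : ℝ) ≤ C * (X : ℝ) ^ ε * Y := by
    have hm : ∀ z, z ∈ S₁ → z ∈ S ∧ PJ1 X e₀ E Y z := fun z hz => by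
      rw [hS₁, mem_filter] at hz
      exact hz
    choose! k m B D x y hq using fun z (hz : z ∈ S₁) => (hm z hz).2
    refine h X Y hX hY 1 (-1) 1 (by norm_num) (by norm_num) (by norm_num) S₁ (fun z => z.1) B D
      k m x y ?_ ?_
    · intro z hz
      obtain ⟨q1, q2, q3, q4, q5, q6, q7⟩ := hq z hz
      have e1 := b1 z (hm z hz).1
      have e2 := b2 z (hm z hz).1
      have e3 := b3 z (hm z hz).1
      have g1 := FamJ_bd q5 e2.1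
      have g2 := FamJ_bd q6 e3.1
      refine ⟨e1, ⟨g1.1, g1.2.trans e2.2⟩, ⟨g2.1, g2.2.trans e3.2⟩, q1, q2, q3, q4, ?_, q7⟩
      have q5' : (z.2 : ℤ) = B z * (x z : ℤ) ^ k z := by exact_mod_cast q5
      have q6' : (z.1 : ℤ) + z.2 = D z * (y z : ℤ) ^ m z := by exact_mod_cast q6
      linarith
    · intro z hz z' hz' e1 e2 e3 e4 e5 e6 e7
      have r1 := (hq z hz).2.2.2.2.1
      have r2 := (hq z' hz').2.2.2.2.1
      rw [← e2, ← e4, ← e6, ← r1] at r2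
      exact Prod.ext e1 r2.symm
  have c2 : (S₂.card : ℝ) ≤ C * (X : ℝ) ^ ε * Y := by
    have hm : ∀ z, z ∈ S₂ → z ∈ S ∧ PJ2 X e₀ E Y z := fun z hz => by
      rw [hS₂, mem_filter] at hz
      exact hz
    choose! k m B D x y hq using fun z (hz : z ∈ S₂) => (hm z hz).2
    refine h X Y hX hY 1 (-1) 1 (by norm_num) (by norm_num) (by norm_num) S₂ (fun z => z.2) B D
      k m x y ?_ ?_
    · intro z hz
      obtain ⟨q1, q2, q3, q4, q5, q6, q7⟩ := hq z hz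
      have e1 := b1 z (hm z hz).1
      have e2 := b2 z (hm z hz).1
      have e3 := b3 z (hm z hz).1
      have g1 := FamJ_bd q5 e1.1
      have g2 := FamJ_bd q6 e3.1
      refine ⟨e2, ⟨g1.1, g1.2.trans e1.2⟩, ⟨g2.1, g2.2.trans e3.2⟩, q1, q2, q3, q4, ?_, q7⟩
      have q5' : (z.1 : ℤ) = B z * (x z : ℤ) ^ k z := by exact_mod_cast q5
      have q6' : (z.1 : ℤ) + z.2 = D z * (y z : ℤ) ^ m z := by exact_mod_cast q6
      linarith
    · intro z hz z' hz' e1 e2 e3 e4 e5 e6 e7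
      have r1 := (hq z hz).2.2.2.2.1
      have r2 := (hq z' hz').2.2.2.2.1
      rw [← e2, ← e4, ← e6, ← r1] at r2
      exact Prod.ext r2.symm e1
  have c3 : (S₃.card : ℝ) ≤ C * (X : ℝ) ^ ε * Y := by
    have hm : ∀ z, z ∈ S₃ → z ∈ S ∧ PJ3 X e₀ E Y z := fun z hz => by
      rw [hS₃, mem_filter] at hz
      exact hz
    choose! k m B D x y hq using fun z (hz : z ∈ S₃) => (hm z hz).2
    refine h X Y hX hY 1 1 1 (by norm_num) (by norm_num) (by norm_num) S₃ (fun z => z.1 + z.2) B D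
      k m x y ?_ ?_
    · intro z hz
      obtain ⟨q1, q2, q3, q4, q5, q6, q7⟩ := hq z hz
      have e1 := b1 z (hm z hz).1
      have e2 := b2 z (hm z hz).1
      have e3 := b3 z (hm z hz).1
      have g1 := FamJ_bd q5 e1.1
      have g2 := FamJ_bd q6 e2.1
      refine ⟨e3, ⟨g1.1, g1.2.trans e1.2⟩, ⟨g2.1, g2.2.trans e2.2⟩, q1, q2, q3, q4, ?_, q7⟩
      have q5' : (z.1 : ℤ) = B z * (x z : ℤ) ^ k z := by exact_mod_cast q5
      have q6' : (z.2 : ℤ) = D z * (y z : ℤ) ^ m z := by exact_mod_cast q6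
      push_cast
      linarith
    · intro z hz z' hz' e1 e2 e3 e4 e5 e6 e7
      have r1 := (hq z hz).2.2.2.2.1
      have r2 := (hq z' hz').2.2.2.2.1
      rw [← e2, ← e4, ← e6, ← r1] at r2
      exact Prod.ext r2.symm (by omega)
  have hsub : S ⊆ S₁ ∪ S₂ ∪ S₃ := by
    intro z hz
    rw [mem_union, mem_union, hS₁, hS₂, hS₃, mem_filter, mem_filter, mem_filter]
    rcases (hS z hz).2.2 with h | h | h
    · exact Or.inl (Or.inl ⟨hz, h⟩)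
    · exact Or.inl (Or.inr ⟨hz, h⟩)
    · exact Or.inr ⟨hz, h⟩
  have hc : S.card ≤ S₁.card + S₂.card + S₃.card := by
    refine (card_le_card hsub).trans ((card_union_le _ _).trans ?_)
    exact Nat.add_le_add_right (card_union_le _ _) _
  have hc' : (S.card : ℝ) ≤ S₁.card + S₂.card + S₃.card := by exact_mod_cast hc
  calc (S.card : ℝ) ≤ S₁.card + S₂.card + S₃.card := hc'
    _ ≤ C * (X : ℝ) ^ ε * Y + C * (X : ℝ) ^ ε * Y + C * (X : ℝ) ^ ε * Y := by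
        linarith
    _ = 3 * C * (X : ℝ) ^ ε * Y := by ring

end Pool.MP_a95293_nt.PS
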