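import Pool.Agent.Lib_MP_a95293_ps.Defs

/-!
# Piece OMG: bounds `m ^ ω(n) ≤ C n ^ ε` and `d(n) ≤ C n ^ ε`

PROOF of `pow_omega`.  `m ^ ω(n) = ∏_(p | n) m`.  For the primes `p | n` with `p ^ ε ≥ m` use `m ≤ p ^ ε`; the others are `< P`,
`P` a constant with `P ^ ε ≥ m`, and contribute at most `(max 1 m) ^ P`.  Finally `∏_(p | n) p ^ ε = (rd n) ^ ε ≤ n ^ ε`.
PROOF of `card_div`.  `d(n) = ∏_(p | n) (e_p + 1)` (`Nat.card_divisors`), `n ^ ε = ∏ p ^ (e_p ε)`.
If `p ^ ε ≥ 2`: `e + 1 ≤ 2 ^ e ≤ p ^ (e ε)`.  Otherwise `p < P` (`P ^ ε ≥ 2`) and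
`e + 1 ≤ K * 2 ^ (ε e) ≤ K * p ^ (ε e)` with `K = 1 + 1 / (ε log 2)` (because `2 ^ (ε e) = exp (ε e log 2) ≥ 1 + ε e log 2`);
at most `P` such primes, so the constant is `K ^ P`.
-/

set_option autoImplicit false

namespace Pool.MP_a95293_nt.PS

open Finset
open Pool.MP_a95293_nt.RC (rd Prm pr3)

private theorem omg_prod (s : Finset ℕ) (P : ℕ) (K : ℝ) (hK : 1 ≤ K) (a b : ℕ → ℝ)
    (h0 : ∀ p ∈ s, 0 ≤ a p) (h2 : ∀ p ∈ s, 0 ≤ b p)
    (h1 : ∀ p ∈ s, a p ≤ (if p < P then K else 1) * b p) :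
    ∏ p ∈ s, a p ≤ K ^ P * ∏ p ∈ s, b p := by
  calc ∏ p ∈ s, a p ≤ ∏ p ∈ s, ((if p < P then K else 1) * b p) := prod_le_prod h0 h1
    _ = (∏ p ∈ s, (if p < P then K else 1)) * ∏ p ∈ s, b p := prod_mul_distrib
    _ ≤ K ^ P * ∏ p ∈ s, b p := by
        refine mul_le_mul_of_nonneg_right ?_ (prod_nonneg h2)
        rw [← prod_filter, prod_const]
        refine pow_le_pow_right₀ hK ?_
        calc (s.filter fun p => p < P).card ≤ (range P).card := by
              refine card_le_card fun p hp => ?_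
              rw [mem_filter] at hp
              exact mem_range.2 hp.2
          _ = P := card_range P

private theorem omg_exists_P (M ε : ℝ) (hε : 0 < ε) : ∃ P : ℕ, ∀ p : ℕ, P ≤ p → M ≤ (p : ℝ) ^ ε := by
  have h := tendsto_rpow_atTop hε
  have h2 := h.comp tendsto_natCast_atTop_atTop
  have h3 := h2.eventually (Filter.eventually_ge_atTop M)
  rw [Filter.eventually_atTop] at h3
  exact h3

theorem pow_omega (m : ℕ) (ε : ℝ) (hε : 0 < ε) : ∃ C : ℝ, 1 ≤ C ∧ ∀ n : ℕ, 1 ≤ n →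
    (m : ℝ) ^ n.primeFactors.card ≤ C * (n : ℝ) ^ ε := by
  obtain ⟨P, hP⟩ := omg_exists_P m ε hε
  have hM : (1 : ℝ) ≤ max 1 (m : ℝ) := le_max_left _ _
  refine ⟨(max 1 (m : ℝ)) ^ P, one_le_pow₀ hM, fun n hn => ?_⟩
  rw [← prod_const]
  have hpos : ∀ p ∈ n.primeFactors, (1 : ℝ) ≤ p := fun p hp => by
    exact_mod_cast (Nat.prime_of_mem_primeFactors hp).one_lt.le
  refine le_trans (omg_prod n.primeFactors P (max 1 (m : ℝ)) hM (fun _ => (m : ℝ))
    (fun p => (p : ℝ) ^ ε) (fun p _ => Nat.cast_nonneg m)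
    (fun p hp => Real.rpow_nonneg (by linarith [hpos p hp]) ε) ?_) ?_
  · intro p hp
    have h1 : (1 : ℝ) ≤ (p : ℝ) ^ ε := Real.one_le_rpow (hpos p hp) hε.le
    split_ifs with h
    · calc (m : ℝ) ≤ max 1 (m : ℝ) := le_max_right _ _
        _ = max 1 (m : ℝ) * 1 := (mul_one _).symm
        _ ≤ max 1 (m : ℝ) * (p : ℝ) ^ ε := by
            exact mul_le_mul_of_nonneg_left h1 (by linarith)
    · rw [one_mul]
      exact hP p (not_lt.1 h)
  · refine mul_le_mul_of_nonneg_left ?_ (by positivity)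
    have h1 : ∏ p ∈ n.primeFactors, (p : ℝ) ^ ε = (∏ p ∈ n.primeFactors, (p : ℝ)) ^ ε := by
      rw [Real.finsetProd_rpow]
      intro p hp
      linarith [hpos p hp]
    rw [h1]
    refine Real.rpow_le_rpow (prod_nonneg fun p hp => by linarith [hpos p hp]) ?_ hε.le
    have h2 : (∏ p ∈ n.primeFactors, p) ≤ n := Nat.le_of_dvd hn (Nat.prod_primeFactors_dvd n)
    calc ∏ p ∈ n.primeFactors, (p : ℝ) = ((∏ p ∈ n.primeFactors, p : ℕ) : ℝ) := by
          push_cast; rfl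
      _ ≤ n := by exact_mod_cast h2

theorem card_div (ε : ℝ) (hε : 0 < ε) : ∃ C : ℝ, 1 ≤ C ∧ ∀ n : ℕ, 1 ≤ n →
    (n.divisors.card : ℝ) ≤ C * (n : ℝ) ^ ε := by
  obtain ⟨P, hP⟩ := omg_exists_P 2 ε hε
  have hl2 : 0 < Real.log 2 := Real.log_pos (by norm_num)
  have hel : 0 < ε * Real.log 2 := mul_pos hε hl2
  have hK : (1 : ℝ) ≤ 1 + 1 / (ε * Real.log 2) := by
    have : 0 < 1 / (ε * Real.log 2) := by positivity
    linarith
  refine ⟨(1 + 1 / (ε * Real.log 2)) ^ P, one_le_pow₀ hK, fun n hn => ?_⟩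
  have hn0 : n ≠ 0 := by omega
  rw [Nat.card_divisors hn0]
  push_cast
  have hpos : ∀ p ∈ n.primeFactors, (2 : ℝ) ≤ p := fun p hp => by
    exact_mod_cast (Nat.prime_of_mem_primeFactors hp).two_le
  have hn' : (n : ℝ) ^ ε = ∏ p ∈ n.primeFactors, ((p : ℝ) ^ ε) ^ (n.factorization p) := by
    have h1 : (n : ℝ) = ∏ p ∈ n.primeFactors, (p : ℝ) ^ (n.factorization p) := by
      have h2 := Nat.prod_factorization_pow_eq_self hn0
      conv_lhs => rw [← h2]
      rw [Finsupp.prod, Nat.support_factorization]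
      push_cast
      rfl
    conv_lhs => rw [h1]
    rw [← Real.finsetProd_rpow]
    · refine prod_congr rfl fun p hp => ?_
      have hp0 : (0 : ℝ) ≤ p := by linarith [hpos p hp]
      rw [← Real.rpow_natCast, ← Real.rpow_natCast, ← Real.rpow_mul hp0, ← Real.rpow_mul hp0,
        mul_comm]
    · intro p hp
      have hp0 : (0 : ℝ) ≤ p := by linarith [hpos p hp]
      positivity
  rw [hn']
  refine omg_prod n.primeFactors P _ hK _ _ (fun p _ => by positivity) (fun p hp => ?_)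
    (fun p hp => ?_)
  · have hp0 : (0 : ℝ) ≤ p := by linarith [hpos p hp]
    positivity
  · have hp2 := hpos p hp
    set e := n.factorization p with he
    split_ifs with h
    · have h1 : 1 + (e : ℝ) * (ε * Real.log 2) ≤ ((p : ℝ) ^ ε) ^ e := by
        have h2 : (1 + (e : ℝ) * (ε * Real.log 2)) ≤ Real.exp ((e : ℝ) * (ε * Real.log 2)) := by
          have := Real.add_one_le_exp ((e : ℝ) * (ε * Real.log 2))
          linarith
        have h3 : Real.exp ((e : ℝ) * (ε * Real.log 2)) = ((2 : ℝ) ^ ε) ^ e := by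
          rw [Real.rpow_def_of_pos (by norm_num : (0 : ℝ) < 2), ← Real.exp_nat_mul]
          congr 1
          ring
        have h4 : ((2 : ℝ) ^ ε) ^ e ≤ ((p : ℝ) ^ ε) ^ e :=
          pow_le_pow_left₀ (by positivity) (Real.rpow_le_rpow (by norm_num) hp2 hε.le) e
        linarith
      have h5 : ((e : ℝ) + 1) ≤ (1 + 1 / (ε * Real.log 2)) * (1 + (e : ℝ) * (ε * Real.log 2)) := by
        have h6 : (1 / (ε * Real.log 2)) * ((e : ℝ) * (ε * Real.log 2)) = e := by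
          field_simp
        have h7 : 0 ≤ (e : ℝ) * (ε * Real.log 2) := by positivity
        have h8 : 0 < 1 / (ε * Real.log 2) := by positivity
        nlinarith
      calc ((e : ℝ) + 1) ≤ (1 + 1 / (ε * Real.log 2)) * (1 + (e : ℝ) * (ε * Real.log 2)) := h5
        _ ≤ (1 + 1 / (ε * Real.log 2)) * ((p : ℝ) ^ ε) ^ e :=
            mul_le_mul_of_nonneg_left h1 (by linarith)
    · rw [one_mul]
      have h1 := hP p (not_lt.1 h)
      have h2 : ((e : ℝ) + 1) ≤ (2 : ℝ) ^ e := by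
        have h3 : e + 1 ≤ 2 ^ e := Nat.lt_two_pow_self
        exact_mod_cast h3
      calc ((e : ℝ) + 1) ≤ (2 : ℝ) ^ e := h2
        _ ≤ ((p : ℝ) ^ ε) ^ e := pow_le_pow_left₀ (by norm_num) h1 e

end Pool.MP_a95293_nt.PS
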