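import Pool.Agent.Lib_MP_a95293_ps.Rank

/-!
# Piece GCP: counting principle

PROOF of `gcp`.  `#S = ∑_(v ∈ image f S) #fiber v` (`Finset.card_eq_sum_card_image`).  For `v` in the image choose `s'` in the fibre with
`#fiber v ≤ w s'`; then `#fiber v ≤ w s' ≤ Y / (rd v₁ * rd v₂ * rd v₃)`.  So
`#S ≤ Y * ∑_(v₁, v₂, v₃ ≤ X ^ A) 1 / (rd v₁ rd v₂ rd v₃) = Y * (∑_(n ≤ X ^ A) 1 / rd n) ^ 3`, and `sum_inv_rad` with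
`ε := ε / (3 * (A + 1))` gives `≤ Y * (C * X ^ (ε / 3)) ^ 3`.
-/

set_option autoImplicit false

namespace Pool.MP_a95293_nt.PS

open Finset
open Pool.MP_a95293_nt.RC (rd Prm pr3)

theorem gcp (A : ℕ) (ε : ℝ) (hε : 0 < ε) : ∃ C : ℝ, 1 ≤ C ∧ ∀ (X : ℕ) (Y : ℝ), 1 ≤ X → 0 ≤ Y →
    ∀ {ι : Type} (S : Finset ι) (f₁ f₂ f₃ : ι → ℕ) (w : ι → ℝ),
    (∀ s ∈ S, 1 ≤ f₁ s ∧ f₁ s ≤ X ^ A) → (∀ s ∈ S, 1 ≤ f₂ s ∧ f₂ s ≤ X ^ A) →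
    (∀ s ∈ S, 1 ≤ f₃ s ∧ f₃ s ≤ X ^ A) →
    (∀ s ∈ S, ∃ s' ∈ S, f₁ s' = f₁ s ∧ f₂ s' = f₂ s ∧ f₃ s' = f₃ s ∧
      ((S.filter fun t => f₁ t = f₁ s ∧ f₂ t = f₂ s ∧ f₃ t = f₃ s).card : ℝ) ≤ w s') →
    (∀ s ∈ S, (rd (f₁ s) : ℝ) * rd (f₂ s) * rd (f₃ s) * w s ≤ Y) →
    (S.card : ℝ) ≤ C * (X : ℝ) ^ ε * Y := by
  classical
  have hA : (0 : ℝ) < 3 * ((A : ℝ) + 1) := by positivity
  obtain ⟨C, hC1, hC⟩ := sum_inv_rad (ε / (3 * ((A : ℝ) + 1))) (div_pos hε hA)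
  refine ⟨C ^ 3, one_le_pow₀ hC1, ?_⟩
  intro X Y hX hY ι S f₁ f₂ f₃ w h₁ h₂ h₃ hw hY'
  have hX0 : (0 : ℝ) < X := by exact_mod_cast hX
  have hX1 : (1 : ℝ) ≤ X := by exact_mod_cast hX
  have hXA : 1 ≤ X ^ A := Nat.one_le_pow _ _ hX
  have hrd : ∀ n : ℕ, (0 : ℝ) < (rd n : ℝ) := fun n => by exact_mod_cast RC.rd_pos n
  -- the sum of `1 / rd` up to `X ^ A`
  set σ : ℝ := ∑ n ∈ Icc 1 (X ^ A), (1 : ℝ) / (rd n : ℝ) with hσ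
  have hσ0 : 0 ≤ σ := Finset.sum_nonneg fun n _ => (one_div_pos.2 (hrd n)).le
  have hσ1 : σ ≤ C * ((X ^ A : ℕ) : ℝ) ^ (ε / (3 * ((A : ℝ) + 1))) := hC _ hXA
  have hσ3 : σ ^ 3 ≤ C ^ 3 * (X : ℝ) ^ ε := by
    have e1 : (((X ^ A : ℕ) : ℝ) ^ (ε / (3 * ((A : ℝ) + 1)))) ^ 3 ≤ (X : ℝ) ^ ε := by
      rw [Nat.cast_pow, ← Real.rpow_natCast (X : ℝ) A, ← Real.rpow_mul hX0.le,
        ← Real.rpow_natCast _ 3, ← Real.rpow_mul hX0.le]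
      apply Real.rpow_le_rpow_of_exponent_le hX1
      have e2 : (A : ℝ) * (ε / (3 * ((A : ℝ) + 1))) * ((3 : ℕ) : ℝ) = ε * ((A : ℝ) / ((A : ℝ) + 1)) := by
        push_cast
        field_simp
      rw [e2]
      have e3 : (A : ℝ) / ((A : ℝ) + 1) ≤ 1 := by
        rw [div_le_one (by positivity)]
        linarith
      nlinarith
    calc σ ^ 3 ≤ (C * ((X ^ A : ℕ) : ℝ) ^ (ε / (3 * ((A : ℝ) + 1)))) ^ 3 :=
          pow_le_pow_left₀ hσ0 hσ1 3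
      _ = C ^ 3 * (((X ^ A : ℕ) : ℝ) ^ (ε / (3 * ((A : ℝ) + 1)))) ^ 3 := mul_pow _ _ _
      _ ≤ C ^ 3 * (X : ℝ) ^ ε := mul_le_mul_of_nonneg_left e1 (by positivity)
  -- the fibres
  set F : ι → ℕ × ℕ × ℕ := fun s => (f₁ s, f₂ s, f₃ s) with hF
  have hcard : (S.card : ℝ) = ∑ v ∈ S.image F, ((S.filter fun t => F t = v).card : ℝ) := by
    rw [Finset.card_eq_sum_card_image F S]
    push_cast
    rfl
  have hfib : ∀ v ∈ S.image F, ((S.filter fun t => F t = v).card : ℝ) ≤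
      Y * ((1 / (rd v.1 : ℝ)) * ((1 / (rd v.2.1 : ℝ)) * (1 / (rd v.2.2 : ℝ)))) := by
    intro v hv
    obtain ⟨s, hs, rfl⟩ := Finset.mem_image.1 hv
    obtain ⟨s', hs', g1, g2, g3, g4⟩ := hw s hs
    have e1 : (S.filter fun t => F t = F s) =
        S.filter fun t => f₁ t = f₁ s ∧ f₂ t = f₂ s ∧ f₃ t = f₃ s := by
      apply Finset.filter_congr
      intro t _
      rw [hF]
      simp only [Prod.mk.injEq]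
    have e2 := hY' s' hs'
    rw [g1, g2, g3] at e2
    have r1 := hrd (f₁ s)
    have r2 := hrd (f₂ s)
    have r3 := hrd (f₃ s)
    rw [e1]
    refine g4.trans ?_
    show w s' ≤ Y * ((1 / (rd (f₁ s) : ℝ)) * ((1 / (rd (f₂ s) : ℝ)) * (1 / (rd (f₃ s) : ℝ))))
    have e3 : Y * ((1 / (rd (f₁ s) : ℝ)) * ((1 / (rd (f₂ s) : ℝ)) * (1 / (rd (f₃ s) : ℝ)))) =
        Y / ((rd (f₁ s) : ℝ) * rd (f₂ s) * rd (f₃ s)) := by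
      field_simp
    rw [e3, le_div_iff₀ (by positivity)]
    calc w s' * ((rd (f₁ s) : ℝ) * rd (f₂ s) * rd (f₃ s))
        = (rd (f₁ s) : ℝ) * rd (f₂ s) * rd (f₃ s) * w s' := by ring
      _ ≤ Y := e2
  have himg : S.image F ⊆ Icc 1 (X ^ A) ×ˢ (Icc 1 (X ^ A) ×ˢ Icc 1 (X ^ A)) := by
    intro v hv
    obtain ⟨s, hs, rfl⟩ := Finset.mem_image.1 hv
    rw [hF]
    simp only [Finset.mem_product, Finset.mem_Icc]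
    exact ⟨h₁ s hs, h₂ s hs, h₃ s hs⟩
  have hprod : ∑ v ∈ Icc 1 (X ^ A) ×ˢ (Icc 1 (X ^ A) ×ˢ Icc 1 (X ^ A)),
      ((1 / (rd v.1 : ℝ)) * ((1 / (rd v.2.1 : ℝ)) * (1 / (rd v.2.2 : ℝ)))) = σ ^ 3 := by
    rw [Finset.sum_product, hσ]
    have e1 : ∀ a : ℕ, ∑ y ∈ Icc 1 (X ^ A) ×ˢ Icc 1 (X ^ A),
        ((1 / (rd a : ℝ)) * ((1 / (rd y.1 : ℝ)) * (1 / (rd y.2 : ℝ)))) =
        (1 / (rd a : ℝ)) * (σ * σ) := by
      intro a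
      rw [← Finset.mul_sum, Finset.sum_product]
      congr 1
      rw [hσ, Finset.sum_mul_sum]
    calc ∑ x ∈ Icc 1 (X ^ A), ∑ y ∈ Icc 1 (X ^ A) ×ˢ Icc 1 (X ^ A),
          ((1 / (rd x : ℝ)) * ((1 / (rd y.1 : ℝ)) * (1 / (rd y.2 : ℝ))))
        = ∑ x ∈ Icc 1 (X ^ A), (1 / (rd x : ℝ)) * (σ * σ) :=
          Finset.sum_congr rfl fun x _ => e1 x
      _ = σ * (σ * σ) := by rw [← Finset.sum_mul]
      _ = (∑ n ∈ Icc 1 (X ^ A), (1 : ℝ) / (rd n : ℝ)) ^ 3 := by rw [← hσ]; ring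
  calc (S.card : ℝ) = ∑ v ∈ S.image F, ((S.filter fun t => F t = v).card : ℝ) := hcard
    _ ≤ ∑ v ∈ S.image F, Y * ((1 / (rd v.1 : ℝ)) * ((1 / (rd v.2.1 : ℝ)) * (1 / (rd v.2.2 : ℝ)))) :=
        Finset.sum_le_sum hfib
    _ = Y * ∑ v ∈ S.image F, ((1 / (rd v.1 : ℝ)) * ((1 / (rd v.2.1 : ℝ)) * (1 / (rd v.2.2 : ℝ)))) := by
        rw [Finset.mul_sum]
    _ ≤ Y * σ ^ 3 := by
        apply mul_le_mul_of_nonneg_left _ hY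
        rw [← hprod]
        apply Finset.sum_le_sum_of_subset_of_nonneg himg
        intro v _ _
        have r1 := hrd v.1
        have r2 := hrd v.2.1
        have r3 := hrd v.2.2
        positivity
    _ ≤ Y * (C ^ 3 * (X : ℝ) ^ ε) := mul_le_mul_of_nonneg_left hσ3 hY
    _ = C ^ 3 * (X : ℝ) ^ ε * Y := by ring

end Pool.MP_a95293_nt.PS
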