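import Pool.Agent.Lib_MP_a95293_ps.Defs

/-!
# Piece CLS: decomposition of `n` into classes of exponents

`cl i n` = product of the primes `p` with `v_p(n) = i`; `Dp K n` = product of the `p ^ v_p(n)` with `v_p(n) > K`.
PROOFS.  `n = ∏_(p | n) p ^ v_p(n)` (`Nat.prod_factorization_pow_eq_self` or the version over `primeFactors`), split
`n.primeFactors` into the disjoint classes `v_p(n) = 1, …, K` and `v_p(n) > K` (`v_p(n) ≥ 1` for `p ∈ n.primeFactors`);
`rd (Dp K n) = ∏_(v_p(n) > K) p` (`Nat.primeFactors_prod`-like; the prime factors of `Dp K n` are exactly those `p`).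
-/

set_option autoImplicit false

namespace Pool.MP_a95293_nt.PS

open Finset
open Pool.MP_a95293_nt.RC (rd Prm pr3)

/-- product of the primes with exponent exactly `i` in `n` -/
def cl (i n : ℕ) : ℕ := ∏ p ∈ n.primeFactors.filter fun p => n.factorization p = i, p

/-- part of `n` with exponents larger than `K` -/
def Dp (K n : ℕ) : ℕ :=
  ∏ p ∈ n.primeFactors.filter fun p => K < n.factorization p, p ^ n.factorization p

private lemma cls_full (n : ℕ) (hn : n ≠ 0) : ∏ p ∈ n.primeFactors, p ^ n.factorization p = n :=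
  Nat.prod_factorization_pow_eq_self hn

private lemma cls_fact_pos (n p : ℕ) (hp : p ∈ n.primeFactors) : 0 < n.factorization p :=
  Nat.pos_of_ne_zero (Finsupp.mem_support_iff.1 (by rwa [Nat.support_factorization]))

private lemma cls_rd_prod (n : ℕ) (S : Finset ℕ) (hS : S ⊆ n.primeFactors) :
    rd (∏ p ∈ S, p ^ n.factorization p) = ∏ p ∈ S, p := by
  induction S using Finset.induction_on with
  | empty => simp [rd]
  | insert a S ha ih =>
    have haP : a.Prime := Nat.prime_of_mem_primeFactors (hS (mem_insert_self a S))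
    have hapos := cls_fact_pos n a (hS (mem_insert_self a S))
    have hS' : S ⊆ n.primeFactors := fun x hx => hS (mem_insert_of_mem hx)
    have hc : (a ^ n.factorization a).Coprime (∏ p ∈ S, p ^ n.factorization p) := by
      apply Nat.Coprime.prod_right
      intro p hp
      apply Nat.Coprime.pow
      apply (Nat.coprime_primes haP (Nat.prime_of_mem_primeFactors (hS' hp))).2
      rintro rfl
      exact ha hp
    rw [prod_insert ha, prod_insert ha, RC.rd_mul hc, ih hS']
    congr 1
    unfold rd
    rw [Nat.primeFactors_prime_pow hapos.ne' haP, prod_singleton]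

private lemma cls_split (K n : ℕ) (f : ℕ → ℕ) :
    (∏ p ∈ n.primeFactors.filter (fun p => K < n.factorization p), f p) *
      ∏ i : Fin K, ∏ p ∈ n.primeFactors.filter (fun p => n.factorization p = i.val + 1), f p =
      ∏ p ∈ n.primeFactors, f p := by
  rw [← Finset.prod_filter_mul_prod_filter_not n.primeFactors (fun p => K < n.factorization p)]
  congr 1
  rw [Fin.prod_univ_eq_prod_range
    (fun i => ∏ p ∈ n.primeFactors.filter (fun p => n.factorization p = i + 1), f p) K]
  have hm : ∀ p ∈ n.primeFactors.filter (fun p => ¬ K < n.factorization p),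
      n.factorization p - 1 ∈ range K := by
    intro p hp
    rw [mem_filter] at hp
    have := cls_fact_pos n p hp.1
    have h2 := hp.2
    rw [mem_range]
    omega
  rw [← Finset.prod_fiberwise_of_maps_to hm f]
  apply prod_congr rfl
  intro i hi
  apply prod_congr _ fun _ _ => rfl
  ext p
  simp only [mem_filter, mem_range] at hi ⊢
  constructor
  · rintro ⟨h1, h2⟩
    exact ⟨⟨h1, by omega⟩, by omega⟩
  · rintro ⟨⟨h1, h2⟩, h3⟩
    have := cls_fact_pos n p h1
    exact ⟨h1, by omega⟩

theorem cl_pos (i n : ℕ) : 1 ≤ cl i n := by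
  refine Nat.succ_le_of_lt ?_
  unfold cl
  apply Finset.prod_pos
  intro p hp
  exact (Nat.prime_of_mem_primeFactors (mem_filter.1 hp).1).pos

theorem Dp_pos (K n : ℕ) : 1 ≤ Dp K n := by
  refine Nat.succ_le_of_lt ?_
  unfold Dp
  apply Finset.prod_pos
  intro p hp
  exact pow_pos (Nat.prime_of_mem_primeFactors (mem_filter.1 hp).1).pos _

theorem cl_dvd (i n : ℕ) : cl i n ∣ n := by
  exact (Finset.prod_dvd_prod_of_subset _ _ _ (filter_subset _ _)).trans
    (Nat.prod_primeFactors_dvd n)

theorem Dp_dvd (K n : ℕ) (hn : n ≠ 0) : Dp K n ∣ n := by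
  conv_rhs => rw [← cls_full n hn]
  exact Finset.prod_dvd_prod_of_subset _ _ _ (filter_subset _ _)

theorem cls_prod (K n : ℕ) (hn : n ≠ 0) :
    Dp K n * ∏ i : Fin K, cl (i.val + 1) n ^ (i.val + 1) = n := by
  conv_rhs => rw [← cls_full n hn, ← cls_split K n]
  unfold Dp
  congr 1
  apply prod_congr rfl
  intro i _
  unfold cl
  rw [← Finset.prod_pow]
  apply prod_congr rfl
  intro p hp
  rw [(mem_filter.1 hp).2]

theorem cls_rd (K n : ℕ) (hn : n ≠ 0) :
    rd (Dp K n) * ∏ i : Fin K, cl (i.val + 1) n = rd n := by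
  have h := cls_split K n (fun p => p)
  unfold Dp
  rw [cls_rd_prod n _ (filter_subset _ _)]
  exact h

theorem rd_Dp_pow (K n : ℕ) (hn : n ≠ 0) : rd (Dp K n) ^ (K + 1) ≤ Dp K n := by
  unfold Dp
  rw [cls_rd_prod n _ (filter_subset _ _), ← Finset.prod_pow]
  apply Finset.prod_le_prod
  · intro p _
    exact Nat.zero_le _
  · intro p hp
    rw [mem_filter] at hp
    exact Nat.pow_le_pow_right (Nat.prime_of_mem_primeFactors hp.1).pos hp.2

end Pool.MP_a95293_nt.PS
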