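import Pool.Agent.Lib_MP_a95293_ps.Defs

/-!
# Piece RANK: the sum of `1 / rad n`

PROOF.  Put `σ = ε / 2`.
(1) For a finite set `s` of primes and a real `t ≥ 0` let `F s t` be the number of `n ≥ 1` with `n.primeFactors = s` and `n ≤ t`.
Then `F s t ≤ t ^ σ * ∏ p ∈ s, 1 / (p ^ σ - 1)`.  Induction on `s` (`s = ∅`: only `n = 1`, so `F ∅ t ≤ 1 ≤ t ^ σ` if `t ≥ 1` and
`F ∅ t = 0` otherwise).  For `insert p s`: `n = p ^ e * n'` with `e ≥ 1`, `n'.primeFactors = s`, `n' ≤ t / p ^ e`, so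
`F (insert p s) t ≤ ∑_(1 ≤ e, p ^ e ≤ t) F s (t / p ^ e) ≤ t ^ σ * ∏_s * ∑_(e ≥ 1) p ^ (- e σ)` (geometric series `1 / (p ^ σ - 1)`).
(2) `1 / (p ^ σ - 1) ≤ 1` as soon as `p ^ σ ≥ 2`, i.e. `p ≥ P := ⌈2 ^ (1/σ)⌉`; the other primes contribute at most the constant
`C₁ := ∏ p < P (max 1 (1 / (2 ^ σ - 1)))`, i.e. `(max 1 (1 / (2 ^ σ - 1))) ^ P`.  So `F s t ≤ C₁ * t ^ σ`.
(3) `∑_(n ≤ N) 1 / rd n = ∑_(r ≤ N) (1 / r) * #{n ≤ N : rd n = r} ≤ C₁ * N ^ σ * ∑_(r ≤ N) 1 / r ≤ C₁ * N ^ σ * (1 + log N)`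
(`rd n = r` determines `n.primeFactors = r.primeFactors`, see `rd_primeFactors`), and `1 + log N ≤ (1 + 1 / σ) * N ^ σ`
(`Real.log_le_rpow_div` or `Real.add_one_le_exp`).  For the harmonic sum: `sum_inv_le` in
`Pool.Agent.Lib_MP_a95293_rc.OmB` (you may import that file) or `harmonic_le_one_add_log`.
-/

set_option autoImplicit false

namespace Pool.MP_a95293_nt.PS

open Finset
open Pool.MP_a95293_nt.RC (rd Prm pr3)

/-- `n ^ (-ε) / rad n` -/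
private noncomputable def Rank_f (ε : ℝ) (n : ℕ) : ℝ := (n : ℝ) ^ (-ε) / (rd n : ℝ)

private lemma Rank_f_nonneg (ε : ℝ) (n : ℕ) : 0 ≤ Rank_f ε n :=
  div_nonneg (Real.rpow_nonneg (Nat.cast_nonneg _) _) (Nat.cast_nonneg _)

private lemma Rank_f_one (ε : ℝ) : Rank_f ε 1 = 1 := by
  unfold Rank_f rd
  simp

private lemma Rank_f_mul (ε : ℝ) {m n : ℕ} (h : m.Coprime n) :
    Rank_f ε (m * n) = Rank_f ε m * Rank_f ε n := by
  unfold Rank_f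
  rw [RC.rd_mul h, Nat.cast_mul, Nat.cast_mul,
    Real.mul_rpow (Nat.cast_nonneg _) (Nat.cast_nonneg _), div_mul_div_comm]

private lemma Rank_f_pp (ε : ℝ) {p : ℕ} (hp : p.Prime) (e : ℕ) :
    Rank_f ε (p ^ (e + 1)) = ((p : ℝ) ^ (-ε)) ^ e * ((p : ℝ) ^ (-ε) / p) := by
  have h1 : rd (p ^ (e + 1)) = p := by
    unfold rd
    rw [Nat.primeFactors_prime_pow (Nat.succ_ne_zero e) hp, Finset.prod_singleton]
  unfold Rank_f
  rw [h1, Nat.cast_pow, ← Real.rpow_pow_comm (Nat.cast_nonneg _), pow_succ]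
  ring

private lemma Rank_r {ε : ℝ} (hε : 0 < ε) {p : ℕ} (hp : p.Prime) :
    0 < (p : ℝ) ^ (-ε) ∧ (p : ℝ) ^ (-ε) ≤ (2 : ℝ) ^ (-ε) ∧ (2 : ℝ) ^ (-ε) < 1 := by
  have hp2 : (2 : ℝ) ≤ p := by exact_mod_cast hp.two_le
  refine ⟨Real.rpow_pos_of_pos (by linarith) _, ?_, ?_⟩
  · exact Real.rpow_le_rpow_of_nonpos (by norm_num) hp2 (by linarith)
  · exact Real.rpow_lt_one_of_one_lt_of_neg (by norm_num) (by linarith)

private lemma Rank_hasSum {ε : ℝ} (hε : 0 < ε) {p : ℕ} (hp : p.Prime) :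
    HasSum (fun e : ℕ => Rank_f ε (p ^ e))
      (1 + (1 - (p : ℝ) ^ (-ε))⁻¹ * ((p : ℝ) ^ (-ε) / p)) := by
  obtain ⟨h0, h1, h2⟩ := Rank_r hε hp
  have h3 : HasSum (fun e : ℕ => ((p : ℝ) ^ (-ε)) ^ e * ((p : ℝ) ^ (-ε) / p))
      ((1 - (p : ℝ) ^ (-ε))⁻¹ * ((p : ℝ) ^ (-ε) / p)) :=
    (hasSum_geometric_of_lt_one h0.le (lt_of_le_of_lt h1 h2)).mul_right _
  have h4 : HasSum (fun e : ℕ => Rank_f ε (p ^ (e + 1)))
      ((1 - (p : ℝ) ^ (-ε))⁻¹ * ((p : ℝ) ^ (-ε) / p)) := by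
    simp_rw [Rank_f_pp ε hp]
    exact h3
  have h5 := (hasSum_nat_add_iff (f := fun e : ℕ => Rank_f ε (p ^ e)) 1).1 h4
  rw [Finset.sum_range_one, pow_zero, Rank_f_one, add_comm] at h5
  exact h5

private lemma Rank_tsum_le {ε : ℝ} (hε : 0 < ε) {p : ℕ} (hp : p.Prime) :
    ∑' e : ℕ, Rank_f ε (p ^ e) ≤
      Real.exp ((1 - (2 : ℝ) ^ (-ε))⁻¹ * (p : ℝ) ^ (-(1 + ε))) := by
  obtain ⟨h0, h1, h2⟩ := Rank_r hε hp
  have hp0 : (0 : ℝ) < p := by exact_mod_cast hp.pos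
  rw [(Rank_hasSum hε hp).tsum_eq]
  have h3 : (p : ℝ) ^ (-(1 + ε)) = (p : ℝ) ^ (-ε) / p := by
    rw [show -(1 + ε) = -ε - 1 by ring, Real.rpow_sub hp0, Real.rpow_one]
  have h4 : (1 - (p : ℝ) ^ (-ε))⁻¹ ≤ (1 - (2 : ℝ) ^ (-ε))⁻¹ := by
    apply inv_anti₀ (by linarith)
    linarith
  have h5 : (0 : ℝ) ≤ (p : ℝ) ^ (-ε) / p := by positivity
  rw [h3]
  calc 1 + (1 - (p : ℝ) ^ (-ε))⁻¹ * ((p : ℝ) ^ (-ε) / p)
      ≤ 1 + (1 - (2 : ℝ) ^ (-ε))⁻¹ * ((p : ℝ) ^ (-ε) / p) := by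
        have := mul_le_mul_of_nonneg_right h4 h5
        linarith
    _ ≤ Real.exp ((1 - (2 : ℝ) ^ (-ε))⁻¹ * ((p : ℝ) ^ (-ε) / p)) := by
        have := Real.add_one_le_exp ((1 - (2 : ℝ) ^ (-ε))⁻¹ * ((p : ℝ) ^ (-ε) / p))
        linarith

private lemma Rank_sum {ε : ℝ} (hε : 0 < ε) (N : ℕ) :
    ∑ n ∈ Icc 1 N, Rank_f ε n ≤
      Real.exp ((1 - (2 : ℝ) ^ (-ε))⁻¹ * ∑' n : ℕ, (n : ℝ) ^ (-(1 + ε))) := by
  classical
  have hsum : ∀ {p : ℕ}, p.Prime → Summable (fun n : ℕ => ‖Rank_f ε (p ^ n)‖) := by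
    intro p hp
    have h := (Rank_hasSum hε hp).summable
    refine h.congr fun e => ?_
    rw [Real.norm_of_nonneg (Rank_f_nonneg ε _)]
  have hE := (EulerProduct.summable_and_hasSum_smoothNumbers_prod_primesBelow_tsum
    (f := Rank_f ε) (Rank_f_one ε) (fun h => Rank_f_mul ε h) hsum (N + 1)).2
  have h2 : (2 : ℝ) ^ (-ε) < 1 := Real.rpow_lt_one_of_one_lt_of_neg (by norm_num) (by linarith)
  have hK : 0 < (1 - (2 : ℝ) ^ (-ε))⁻¹ := inv_pos.2 (by linarith)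
  -- the sum over `Icc 1 N` is a part of the sum over the smooth numbers
  have h1 : ∑ n ∈ Icc 1 N, Rank_f ε n ≤
      ∏ p ∈ (N + 1).primesBelow, ∑' n : ℕ, Rank_f ε (p ^ n) := by
    have h3 : ∀ n ∈ Icc 1 N, n ∈ (N + 1).smoothNumbers := by
      intro n hn
      rw [mem_Icc] at hn
      exact Nat.mem_smoothNumbers_of_lt (by omega) (by omega)
    have h4 : ∑ n ∈ Icc 1 N, Rank_f ε n =
        ∑ m ∈ (Icc 1 N).attach.image
          (fun n => (⟨n.1, h3 n.1 n.2⟩ : (N + 1).smoothNumbers)), Rank_f ε m := by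
      rw [Finset.sum_image]
      · rw [Finset.sum_attach (Icc 1 N) (fun n => Rank_f ε n)]
      · intro a _ b _ hab
        exact Subtype.ext (congrArg (fun x : (N + 1).smoothNumbers => (x : ℕ)) hab)
    rw [h4]
    exact sum_le_hasSum _ (fun m _ => Rank_f_nonneg ε _) hE
  refine h1.trans ?_
  have h5 : ∏ p ∈ (N + 1).primesBelow, ∑' n : ℕ, Rank_f ε (p ^ n) ≤
      ∏ p ∈ (N + 1).primesBelow, Real.exp ((1 - (2 : ℝ) ^ (-ε))⁻¹ * (p : ℝ) ^ (-(1 + ε))) := by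
    apply Finset.prod_le_prod
    · intro p _
      exact tsum_nonneg fun n => Rank_f_nonneg ε _
    · intro p hp
      exact Rank_tsum_le hε (Nat.prime_of_mem_primesBelow hp)
  refine h5.trans ?_
  rw [← Real.exp_sum, ← Finset.mul_sum]
  apply Real.exp_le_exp.2
  apply mul_le_mul_of_nonneg_left _ hK.le
  apply Summable.sum_le_tsum
  · intro n _
    exact Real.rpow_nonneg (Nat.cast_nonneg _) _
  · rw [Real.summable_nat_rpow]
    linarith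

/-- sum of the reciprocals of the radicals -/
theorem sum_inv_rad (ε : ℝ) (hε : 0 < ε) : ∃ C : ℝ, 1 ≤ C ∧ ∀ N : ℕ, 1 ≤ N →
    ∑ n ∈ Icc 1 N, (1 : ℝ) / (rd n : ℝ) ≤ C * (N : ℝ) ^ ε := by
  classical
  have h2 : (2 : ℝ) ^ (-ε) < 1 := Real.rpow_lt_one_of_one_lt_of_neg (by norm_num) (by linarith)
  have hK : 0 < (1 - (2 : ℝ) ^ (-ε))⁻¹ := inv_pos.2 (by linarith)
  refine ⟨Real.exp ((1 - (2 : ℝ) ^ (-ε))⁻¹ * ∑' n : ℕ, (n : ℝ) ^ (-(1 + ε))), ?_, ?_⟩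
  · apply Real.one_le_exp
    apply mul_nonneg hK.le
    exact tsum_nonneg fun n => Real.rpow_nonneg (Nat.cast_nonneg _) _
  · intro N hN
    have hN0 : (0 : ℝ) < N := by exact_mod_cast hN
    have h3 : ∑ n ∈ Icc 1 N, (1 : ℝ) / (rd n : ℝ) ≤ ∑ n ∈ Icc 1 N, (N : ℝ) ^ ε * Rank_f ε n := by
      apply Finset.sum_le_sum
      intro n hn
      rw [mem_Icc] at hn
      have hn0 : (0 : ℝ) < n := by exact_mod_cast hn.1
      have hr : (0 : ℝ) < rd n := by exact_mod_cast RC.rd_pos n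
      unfold Rank_f
      rw [mul_div_assoc']
      apply div_le_div_of_nonneg_right _ hr.le
      rw [Real.rpow_neg hn0.le, ← div_eq_mul_inv, one_le_div (Real.rpow_pos_of_pos hn0 _)]
      exact Real.rpow_le_rpow hn0.le (by exact_mod_cast hn.2) hε.le
    rw [← Finset.mul_sum] at h3
    refine h3.trans ?_
    rw [mul_comm]
    exact mul_le_mul_of_nonneg_right (Rank_sum hε N) (Real.rpow_nonneg hN0.le _)

end Pool.MP_a95293_nt.PS
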