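import Pool.Agent.Lib_MP_a95293_ps.EnK
import Pool.Agent.Lib_MP_a95293_ps.Cls
import Pool.Agent.Lib_MP_a95293_ps.Rank

/-!
# Piece ENER: energy of the numbers with small radical

PROOF of `energy`.  `σ = ε / 8`, `K` with `A / (K + 1) ≤ σ`, `N = X ^ A`.  For `n ∈ SS q Y N` let
`λ n = (Dp K n, fun i => Nat.clog 2 (cl (i + 1) n))`.
(1) The number `Λ` of values of `λ` is `≤ C X ^ (3 σ)`: `rd (Dp K n) ^ (K + 1) ≤ N`, so `rd (Dp K n) ≤ X ^ σ` and the number of
possible `D = Dp K n ≤ N` is `≤ ∑_(D ≤ N) X ^ σ / rd D ≤ X ^ σ * C X ^ σ` (`sum_inv_rad` with `ε := σ / (A + 1)`); the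
numbers `Nat.clog 2 (cl _ n)` are `≤ Nat.clog 2 N ≤ A * Nat.clog 2 X + 1`, so `≤ (A * clog X + 2) ^ K ≤ C X ^ σ` vectors.
(2) Cauchy (`card_pairs_le`): `#{(n,n') : n ≡ n'} ≤ Λ * #{(n,n') : n ≡ n', λ n = λ n'}`.
(3) For a fixed value `l = (D, j)` of `λ` put `H i = 2 ^ (j i)`.  `(n, n') ↦ ((cl (i+1) n)_i, (cl (i+1) n')_i)` is injective on the
pairs with `λ = l` (`n = D * ∏ cl ^ (i+1)`), has values in the set counted by `EE q K H` (`D` is a unit modulo `q`;
`cl ≤ 2 ^ clog`), so there are at most `EE q K H ≤ C X ^ σ ∏ H i` pairs, and `∏ H i ≤ ∏ 2 * cl (i+1) n ≤ 2 ^ K * rd n ≤ 2 ^ K * Y`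
(`Nat.pow_pred_clog_lt_self`; `cl = 1` gives `H i = 1`), so `4 ^ K * (∏ H i) ^ 2 ≤ 16 ^ K * Y ^ 2 ≤ q`.
-/

set_option autoImplicit false

namespace Pool.MP_a95293_nt.PS

open Finset
open Pool.MP_a95293_nt.RC (rd Prm pr3)

private theorem Ener_pairs {ι α : Type} [DecidableEq ι] [DecidableEq α] (S : Finset ι) (g : ι → α) :
    ((S ×ˢ S).filter fun z => g z.1 = g z.2).card =
      ∑ t ∈ S.image g, (S.filter fun s => g s = t).card ^ 2 := by
  classical
  rw [card_eq_sum_card_fiberwise (f := fun z : ι × ι => g z.1) (t := S.image g)]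
  · refine sum_congr rfl fun t _ => ?_
    rw [sq, ← card_product]
    congr 1
    ext ⟨x, y⟩
    simp only [mem_filter, mem_product]
    constructor
    · rintro ⟨⟨⟨h1, h2⟩, h3⟩, h4⟩
      exact ⟨⟨h1, h4⟩, h2, h3 ▸ h4⟩
    · rintro ⟨⟨h1, h4⟩, h2, h3⟩
      exact ⟨⟨⟨h1, h2⟩, h4.trans h3.symm⟩, h4⟩
  · intro z hz
    rw [mem_coe, mem_filter, mem_product] at hz
    exact mem_coe.2 (mem_image_of_mem g hz.1.1)

/-- Cauchy's inequality for a finite set with two functions `g`, `l`: if `l` takes its values in a set of `L` elements, -/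
theorem card_pairs_le {ι α β : Type} [DecidableEq ι] [DecidableEq α] [DecidableEq β]
    (S : Finset ι) (g : ι → α) (l : ι → β) (T : Finset β) (hT : ∀ s ∈ S, l s ∈ T) :
    ((S ×ˢ S).filter fun z => g z.1 = g z.2).card ≤
      T.card * ((S ×ˢ S).filter fun z => g z.1 = g z.2 ∧ l z.1 = l z.2).card := by
  classical
  have e1 : ((S ×ˢ S).filter fun z => g z.1 = g z.2 ∧ l z.1 = l z.2).card =
      ∑ t ∈ S.image g, ∑ b ∈ T, (S.filter fun s => g s = t ∧ l s = b).card ^ 2 := by
    have e2 : ((S ×ˢ S).filter fun z => g z.1 = g z.2 ∧ l z.1 = l z.2) =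
        (S ×ˢ S).filter fun z => (fun s => (g s, l s)) z.1 = (fun s => (g s, l s)) z.2 := by
      apply filter_congr
      intro z _
      simp only [Prod.mk.injEq]
    rw [e2, Ener_pairs S fun s => (g s, l s), ← sum_product']
    refine (sum_subset ?_ ?_).trans (sum_congr rfl fun x _ => ?_)
    · intro x hx
      obtain ⟨s, hs, rfl⟩ := mem_image.1 hx
      exact mem_product.2 ⟨mem_image_of_mem g hs, hT s hs⟩
    · intro x _ hx
      rw [sq_eq_zero_iff, card_eq_zero, filter_eq_empty_iff]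
      intro s hs h
      exact hx (h ▸ mem_image_of_mem (fun s => (g s, l s)) hs)
    · congr 2
      apply filter_congr
      intro s _
      rw [Prod.ext_iff]
  rw [Ener_pairs, e1, mul_sum]
  refine sum_le_sum fun t _ => ?_
  have e3 : (S.filter fun s => g s = t).card =
      ∑ b ∈ T, (S.filter fun s => g s = t ∧ l s = b).card := by
    rw [card_eq_sum_card_fiberwise (f := l) (t := T)]
    · refine sum_congr rfl fun b _ => ?_
      rw [filter_filter]
    · intro s hs
      rw [mem_coe, mem_filter] at hs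
      exact mem_coe.2 (hT s hs.1)
  rw [e3]
  exact sq_sum_le_card_mul_sum_sq

private theorem Ener_clog (K : ℕ) (δ : ℝ) (hδ : 0 < δ) : ∃ C : ℝ, 1 ≤ C ∧ ∀ N : ℕ, 1 ≤ N →
    ((Nat.clog 2 N + 1 : ℕ) : ℝ) ^ K ≤ C * (N : ℝ) ^ δ := by
  set γ : ℝ := δ / (K + 1) with hγ
  have hγ0 : 0 < γ := by positivity
  have hl2 : 0 < Real.log 2 := Real.log_pos (by norm_num)
  refine ⟨(2 + 1 / (γ * Real.log 2)) ^ K, one_le_pow₀ (by
    have : 0 < 1 / (γ * Real.log 2) := by positivity
    linarith), ?_⟩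
  intro N hN
  have hN1 : (1 : ℝ) ≤ N := by exact_mod_cast hN
  have hN0 : (0 : ℝ) < N := by linarith
  have hpow1 : (1 : ℝ) ≤ (N : ℝ) ^ γ := Real.one_le_rpow hN1 hγ0.le
  have h1 : ((Nat.clog 2 N + 1 : ℕ) : ℝ) ≤ (2 + 1 / (γ * Real.log 2)) * (N : ℝ) ^ γ := by
    have h2 : (Nat.clog 2 N : ℝ) ≤ 1 + Real.log N / Real.log 2 := by
      rcases hN.eq_or_lt with h | h
      · rw [← h]
        simp
      · have h3 : 2 ^ (Nat.clog 2 N).pred < N := Nat.pow_pred_clog_lt_self (by norm_num) h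
        have h4 : (2 : ℝ) ^ (Nat.clog 2 N).pred ≤ N := by exact_mod_cast h3.le
        have h5 := Real.log_le_log (by positivity) h4
        rw [Real.log_pow] at h5
        have h6 : ((Nat.clog 2 N).pred : ℝ) ≤ Real.log N / Real.log 2 := by
          rw [le_div_iff₀ hl2]
          exact h5
        have h7 : Nat.clog 2 N ≤ (Nat.clog 2 N).pred + 1 := by
          rw [Nat.pred_eq_sub_one]
          omega
        have h8 : (Nat.clog 2 N : ℝ) ≤ (Nat.clog 2 N).pred + 1 := by exact_mod_cast h7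
        linarith
    have h3 : Real.log N ≤ (N : ℝ) ^ γ / γ := Real.log_le_rpow_div hN0.le hγ0
    have h4 : Real.log N / Real.log 2 ≤ 1 / (γ * Real.log 2) * (N : ℝ) ^ γ := by
      rw [div_le_iff₀ hl2]
      refine h3.trans (le_of_eq ?_)
      field_simp
    push_cast
    nlinarith
  calc ((Nat.clog 2 N + 1 : ℕ) : ℝ) ^ K ≤ ((2 + 1 / (γ * Real.log 2)) * (N : ℝ) ^ γ) ^ K :=
        pow_le_pow_left₀ (by positivity) h1 K
    _ = (2 + 1 / (γ * Real.log 2)) ^ K * (N : ℝ) ^ (γ * K) := by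
        rw [mul_pow, ← Real.rpow_natCast ((N : ℝ) ^ γ) K, ← Real.rpow_mul hN0.le]
    _ ≤ (2 + 1 / (γ * Real.log 2)) ^ K * (N : ℝ) ^ δ := by
        apply mul_le_mul_of_nonneg_left _ (by positivity)
        apply Real.rpow_le_rpow_of_exponent_le hN1
        rw [hγ, div_mul_eq_mul_div, div_le_iff₀ (by positivity)]
        nlinarith

/-- the pairs with a given decomposition type -/
private theorem Ener_fib {q Y N K : ℕ} (D : ℕ) (j : Fin K → ℕ) (P : Finset (ℕ × ℕ))
    (hP : ∀ z ∈ P, z.1 ∈ SS q Y N ∧ z.2 ∈ SS q Y N ∧ z.1 ≡ z.2 [MOD q] ∧ Dp K z.1 = D ∧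
      Dp K z.2 = D ∧ (∀ i : Fin K, Nat.clog 2 (cl (i.val + 1) z.1) = j i) ∧
      ∀ i : Fin K, Nat.clog 2 (cl (i.val + 1) z.2) = j i) :
    P.card ≤ EE q K fun i => 2 ^ j i := by
  classical
  unfold EE
  refine card_le_card_of_injOn (fun z => ((fun i : Fin K => cl (i.val + 1) z.1),
    (fun i : Fin K => cl (i.val + 1) z.2))) ?_ ?_
  · intro z hz
    obtain ⟨h1, h2, h3, h4, h5, h6, h7⟩ := hP z hz
    obtain ⟨⟨a1, _⟩, a3, _⟩ := mem_SS.1 h1
    obtain ⟨⟨b1, _⟩, b3, _⟩ := mem_SS.1 h2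
    have mem : ∀ n, 1 ≤ n → n.Coprime q → (∀ i : Fin K, Nat.clog 2 (cl (i.val + 1) n) = j i) →
        (fun i : Fin K => cl (i.val + 1) n) ∈ Fintype.piFinset fun i => QQ q (2 ^ j i) := by
      intro n _ hnq hj
      rw [Fintype.mem_piFinset]
      intro i
      rw [mem_QQ]
      refine ⟨⟨cl_pos _ _, ?_⟩, Nat.Coprime.coprime_dvd_left (cl_dvd _ _) hnq⟩
      rw [← hj i]
      exact Nat.le_pow_clog (by norm_num) _
    rw [mem_coe, mem_filter, mem_product]
    refine ⟨⟨mem _ a1 a3 h6, mem _ b1 b3 h7⟩, ?_⟩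
    have hD : q.Coprime D := by
      rw [← h4]
      exact (Nat.Coprime.coprime_dvd_left (Dp_dvd K z.1 (by omega)) a3).symm
    have e1 := cls_prod K z.1 (by omega)
    have e2 := cls_prod K z.2 (by omega)
    rw [h4] at e1
    rw [h5] at e2
    rw [← e1, ← e2] at h3
    exact Nat.ModEq.cancel_left_of_coprime hD h3
  · intro z hz z' hz' h
    obtain ⟨h1, h2, _, h4, h5, _, _⟩ := hP z hz
    obtain ⟨h1', h2', _, h4', h5', _, _⟩ := hP z' hz'
    have a1 := (mem_SS.1 h1).1.1
    have b1 := (mem_SS.1 h2).1.1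
    have a1' := (mem_SS.1 h1').1.1
    have b1' := (mem_SS.1 h2').1.1
    simp only [Prod.mk.injEq] at h
    have e1 := cls_prod K z.1 (by omega)
    have e2 := cls_prod K z.2 (by omega)
    have e1' := cls_prod K z'.1 (by omega)
    have e2' := cls_prod K z'.2 (by omega)
    refine Prod.ext ?_ ?_
    · rw [← e1, ← e1', h4, h4']
      congr 1
      exact prod_congr rfl fun i _ => by rw [congrFun h.1 i]
    · rw [← e2, ← e2', h5, h5']
      congr 1
      exact prod_congr rfl fun i _ => by rw [congrFun h.2 i]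

theorem energy (A : ℕ) (ε : ℝ) (hε : 0 < ε) : ∃ C : ℝ, 1 ≤ C ∧ ∀ X q Y : ℕ, 1 ≤ X → 1 ≤ q →
    1 ≤ Y → q ≤ X ^ A → C * (Y : ℝ) ^ 2 ≤ q → (PP q Y (X ^ A) : ℝ) ≤ C * (X : ℝ) ^ ε * Y := by
  classical
  set σ : ℝ := ε / 8 with hσ
  have hσ0 : 0 < σ := by positivity
  set K : ℕ := ⌈(A : ℝ) / σ⌉₊ with hK
  have hKσ : (A : ℝ) / (K + 1) ≤ σ := by
    have h1 : (A : ℝ) / σ ≤ K := Nat.le_ceil _
    rw [div_le_iff₀ (by positivity)]
    rw [div_le_iff₀ hσ0] at h1
    nlinarith
  set τ : ℝ := σ / (A + 1) with hτ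
  have hτ0 : 0 < τ := by positivity
  obtain ⟨C₁, hC₁, h₁⟩ := sum_inv_rad τ hτ0
  obtain ⟨C₂, hC₂, h₂⟩ := enK K A σ hσ0
  obtain ⟨C₃, hC₃, h₃⟩ := Ener_clog K τ hτ0
  have hC13 : 1 ≤ C₁ * C₃ := by nlinarith
  have hC13' : 1 ≤ (C₁ * C₃) ^ 2 := one_le_pow₀ hC13
  have h16 : (1 : ℝ) ≤ 16 ^ K := one_le_pow₀ (by norm_num)
  have h2K : (1 : ℝ) ≤ 2 ^ K := one_le_pow₀ (by norm_num)
  refine ⟨16 ^ K * ((C₁ * C₃) ^ 2 * C₂ * 2 ^ K), ?_, ?_⟩
  · have : 1 ≤ (C₁ * C₃) ^ 2 * C₂ * 2 ^ K :=
      one_le_mul_of_one_le_of_one_le (one_le_mul_of_one_le_of_one_le hC13' hC₂) h2K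
    exact one_le_mul_of_one_le_of_one_le h16 this
  intro X q Y hX hq hY hqX hqY
  set N : ℕ := X ^ A with hN
  have hX1 : (1 : ℝ) ≤ X := by exact_mod_cast hX
  have hX0 : (0 : ℝ) < X := by linarith
  have hN1 : 1 ≤ N := Nat.one_le_pow _ _ hX
  have hNτ : (N : ℝ) ^ τ ≤ (X : ℝ) ^ σ := by
    rw [hN]
    push_cast
    rw [← Real.rpow_natCast (X : ℝ) A, ← Real.rpow_mul hX0.le]
    apply Real.rpow_le_rpow_of_exponent_le hX1
    rw [hτ, mul_div_assoc', div_le_iff₀ (by positivity)]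
    nlinarith
  -- the set of types
  set TD : Finset ℕ := (Icc 1 N).filter fun D => (rd D : ℝ) ≤ (X : ℝ) ^ σ with hTD
  set T : Finset (ℕ × (Fin K → ℕ)) :=
    TD ×ˢ Fintype.piFinset fun _ : Fin K => range (Nat.clog 2 N + 1) with hT
  set lam : ℕ → ℕ × (Fin K → ℕ) :=
    fun n => (Dp K n, fun i => Nat.clog 2 (cl (i.val + 1) n)) with hlam
  have hTD_card : (TD.card : ℝ) ≤ (X : ℝ) ^ σ * (C₁ * (X : ℝ) ^ σ) := by
    calc (TD.card : ℝ) = ∑ _D ∈ TD, (1 : ℝ) := by simp
      _ ≤ ∑ D ∈ TD, (X : ℝ) ^ σ * (1 / (rd D : ℝ)) := by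
          refine sum_le_sum fun D hD => ?_
          rw [hTD, mem_filter] at hD
          have hr : (0 : ℝ) < rd D := by exact_mod_cast Pool.MP_a95293_nt.RC.rd_pos D
          rw [mul_one_div, le_div_iff₀ hr, one_mul]
          exact hD.2
      _ ≤ ∑ D ∈ Icc 1 N, (X : ℝ) ^ σ * (1 / (rd D : ℝ)) := by
          apply sum_le_sum_of_subset_of_nonneg (filter_subset _ _)
          intro D _ _
          positivity
      _ = (X : ℝ) ^ σ * ∑ D ∈ Icc 1 N, 1 / (rd D : ℝ) := by rw [mul_sum]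
      _ ≤ (X : ℝ) ^ σ * (C₁ * (X : ℝ) ^ σ) := by
          apply mul_le_mul_of_nonneg_left _ (by positivity)
          refine (h₁ N hN1).trans ?_
          exact mul_le_mul_of_nonneg_left hNτ (by linarith)
  have hT_card : (T.card : ℝ) ≤ C₁ * C₃ * (X : ℝ) ^ (3 * σ) := by
    have e1 : (T.card : ℝ) = TD.card * ((Nat.clog 2 N + 1 : ℕ) : ℝ) ^ K := by
      rw [hT, card_product, Fintype.card_piFinset]
      push_cast
      congr 1
      simp
    rw [e1]
    calc (TD.card : ℝ) * ((Nat.clog 2 N + 1 : ℕ) : ℝ) ^ K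
        ≤ ((X : ℝ) ^ σ * (C₁ * (X : ℝ) ^ σ)) * (C₃ * (X : ℝ) ^ σ) := by
          apply mul_le_mul hTD_card _ (by positivity) (by positivity)
          refine (h₃ N hN1).trans ?_
          exact mul_le_mul_of_nonneg_left hNτ (by linarith)
      _ = C₁ * C₃ * (X : ℝ) ^ (3 * σ) := by
          rw [show 3 * σ = σ + σ + σ by ring, Real.rpow_add hX0, Real.rpow_add hX0]
          ring
  have hmemT : ∀ n ∈ SS q Y N, lam n ∈ T := by
    intro n hn
    obtain ⟨⟨n1, n2⟩, _, _⟩ := mem_SS.1 hn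
    rw [hT, mem_product, hTD, mem_filter, mem_Icc, Fintype.mem_piFinset]
    have hDn : Dp K n ≤ n := Nat.le_of_dvd (by omega) (Dp_dvd K n (by omega))
    refine ⟨⟨⟨Dp_pos K n, hDn.trans n2⟩, ?_⟩, fun i => ?_⟩
    · show (rd (Dp K n) : ℝ) ≤ (X : ℝ) ^ σ
      have h4 : (rd (Dp K n) : ℝ) ^ (K + 1) ≤ (X : ℝ) ^ (A : ℝ) := by
        rw [Real.rpow_natCast]
        exact_mod_cast (rd_Dp_pow K n (by omega)).trans (hDn.trans n2)
      have hr : (0 : ℝ) < rd (Dp K n) := by
        exact_mod_cast Pool.MP_a95293_nt.RC.rd_pos (Dp K n)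
      have h5 := Real.rpow_le_rpow (by positivity) h4 (z := 1 / ((K : ℝ) + 1)) (by positivity)
      rw [← Real.rpow_natCast (rd (Dp K n) : ℝ) (K + 1), ← Real.rpow_mul hr.le,
        ← Real.rpow_mul hX0.le] at h5
      have h6 : ((K + 1 : ℕ) : ℝ) * (1 / ((K : ℝ) + 1)) = 1 := by
        push_cast
        field_simp
      rw [h6, Real.rpow_one] at h5
      refine h5.trans ?_
      apply Real.rpow_le_rpow_of_exponent_le hX1
      rw [mul_one_div]
      exact hKσ
    · show Nat.clog 2 (cl (i.val + 1) n) ∈ range (Nat.clog 2 N + 1)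
      rw [mem_range, Nat.lt_succ_iff]
      apply Nat.clog_mono_right
      exact (Nat.le_of_dvd (by omega) (cl_dvd _ _)).trans n2
  -- Cauchy
  have hCau : PP q Y N ≤ T.card * (((SS q Y N) ×ˢ (SS q Y N)).filter fun z =>
      z.1 % q = z.2 % q ∧ lam z.1 = lam z.2).card := by
    unfold PP
    exact card_pairs_le (SS q Y N) (fun n => n % q) lam T hmemT
  -- each fibre
  set B : ℝ := C₂ * (X : ℝ) ^ σ * (2 ^ K * Y) with hB
  have hB0 : 0 ≤ B := by positivity
  have hfib : ((((SS q Y N) ×ˢ (SS q Y N)).filter fun z =>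
      z.1 % q = z.2 % q ∧ lam z.1 = lam z.2).card : ℝ) ≤ T.card * B := by
    rw [card_eq_sum_card_fiberwise (f := fun z : ℕ × ℕ => lam z.1) (t := T)]
    · push_cast
      calc ∑ l ∈ T, ((((((SS q Y N) ×ˢ (SS q Y N)).filter fun z =>
            z.1 % q = z.2 % q ∧ lam z.1 = lam z.2).filter fun z => lam z.1 = l).card : ℕ) : ℝ)
          ≤ ∑ _l ∈ T, B := by
            refine sum_le_sum fun l _ => ?_
            set P := (((SS q Y N) ×ˢ (SS q Y N)).filter fun z =>
              z.1 % q = z.2 % q ∧ lam z.1 = lam z.2).filter fun z => lam z.1 = l with hP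
            rcases P.eq_empty_or_nonempty with h0 | ⟨z₀, hz₀⟩
            · rw [h0]
              simpa using hB0
            · have hmem : ∀ z ∈ P, z.1 ∈ SS q Y N ∧ z.2 ∈ SS q Y N ∧ z.1 ≡ z.2 [MOD q] ∧
                  lam z.1 = l ∧ lam z.2 = l := by
                intro z hz
                rw [hP, mem_filter, mem_filter, mem_product] at hz
                obtain ⟨⟨⟨a, b⟩, c, d⟩, e⟩ := hz
                exact ⟨a, b, c, e, d ▸ e⟩
              have hc := Ener_fib (q := q) (Y := Y) (N := N) (K := K) l.1 l.2 P (by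
                intro z hz
                obtain ⟨a, b, c, d, e⟩ := hmem z hz
                rw [hlam] at d e
                simp only [Prod.ext_iff] at d e
                exact ⟨a, b, c, d.1, e.1, fun i => congrFun d.2 i, fun i => congrFun e.2 i⟩)
              obtain ⟨a0, _, _, d0, _⟩ := hmem z₀ hz₀
              obtain ⟨⟨n1, n2⟩, _, n4⟩ := mem_SS.1 a0
              -- product of the box sides
              have hprod : ∏ i, 2 ^ l.2 i ≤ 2 ^ K * Y := by
                have e1 : ∀ i : Fin K, 2 ^ l.2 i ≤ 2 * cl (i.val + 1) z₀.1 := by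
                  intro i
                  rw [← d0]
                  show 2 ^ Nat.clog 2 (cl (i.val + 1) z₀.1) ≤ 2 * cl (i.val + 1) z₀.1
                  have hcl := cl_pos (i.val + 1) z₀.1
                  rcases hcl.eq_or_lt with h | h
                  · rw [← h]
                    simp
                  · have h5 := Nat.pow_pred_clog_lt_self (b := 2) (by norm_num) h
                    have h6 : 1 ≤ Nat.clog 2 (cl (i.val + 1) z₀.1) :=
                      Nat.clog_pos (by norm_num) h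
                    obtain ⟨m, hm⟩ := Nat.exists_eq_add_of_le h6
                    rw [hm] at h5 ⊢
                    have h7 : (1 + m).pred = m := by
                      rw [Nat.pred_eq_sub_one]
                      omega
                    rw [h7] at h5
                    rw [pow_add, pow_one]
                    omega
                calc ∏ i, 2 ^ l.2 i ≤ ∏ i : Fin K, 2 * cl (i.val + 1) z₀.1 :=
                      prod_le_prod' fun i _ => e1 i
                  _ = 2 ^ K * ∏ i : Fin K, cl (i.val + 1) z₀.1 := by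
                      rw [prod_mul_distrib]
                      simp
                  _ ≤ 2 ^ K * Y := by
                      apply Nat.mul_le_mul_left
                      refine le_trans ?_ n4
                      rw [← cls_rd K z₀.1 (by omega)]
                      exact Nat.le_mul_of_pos_left _ (Pool.MP_a95293_nt.RC.rd_pos _)
              have hcond : 4 ^ K * (∏ i, 2 ^ l.2 i) ^ 2 ≤ q := by
                have e1 : (4 ^ K * (∏ i, 2 ^ l.2 i) ^ 2 : ℕ) ≤ 4 ^ K * (2 ^ K * Y) ^ 2 :=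
                  Nat.mul_le_mul_left _ (Nat.pow_le_pow_left hprod 2)
                have e2 : (4 ^ K * (2 ^ K * Y) ^ 2 : ℕ) = 16 ^ K * Y ^ 2 := by
                  rw [mul_pow, ← pow_mul, mul_comm K 2, pow_mul, ← mul_assoc, ← mul_pow]
                  norm_num
                have e3 : ((16 ^ K * Y ^ 2 : ℕ) : ℝ) ≤ q := by
                  push_cast
                  refine le_trans ?_ hqY
                  apply mul_le_mul_of_nonneg_right _ (by positivity)
                  have : 1 ≤ (C₁ * C₃) ^ 2 * C₂ * 2 ^ K := one_le_mul_of_one_le_of_one_le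
                    (one_le_mul_of_one_le_of_one_le hC13' hC₂) h2K
                  exact le_mul_of_one_le_right (by positivity) this
                have e4 : 16 ^ K * Y ^ 2 ≤ q := by exact_mod_cast e3
                omega
              have hen := h₂ X q hX hq hqX (fun i => 2 ^ l.2 i)
                (fun i => Nat.one_le_two_pow) hcond
              calc (P.card : ℝ) ≤ (EE q K fun i => 2 ^ l.2 i : ℕ) := by exact_mod_cast hc
                _ ≤ C₂ * (X : ℝ) ^ σ * ∏ i, (((2 ^ l.2 i : ℕ)) : ℝ) := hen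
                _ ≤ B := by
                    rw [hB]
                    apply mul_le_mul_of_nonneg_left _ (by positivity)
                    exact_mod_cast hprod
        _ = T.card * B := by rw [sum_const, nsmul_eq_mul]
    · intro z hz
      rw [mem_coe, mem_filter, mem_product] at hz
      exact mem_coe.2 (hmemT _ hz.1.1)
  have hPPr : (PP q Y N : ℝ) ≤ T.card * (T.card * B) := by
    have hCau' : (PP q Y N : ℝ) ≤ (T.card : ℝ) *
        ((((SS q Y N) ×ˢ (SS q Y N)).filter fun z =>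
          z.1 % q = z.2 % q ∧ lam z.1 = lam z.2).card : ℝ) := by
      exact_mod_cast hCau
    exact hCau'.trans (mul_le_mul_of_nonneg_left hfib (by positivity))
  calc (PP q Y N : ℝ) ≤ T.card * (T.card * B) := hPPr
    _ ≤ (C₁ * C₃ * (X : ℝ) ^ (3 * σ)) * ((C₁ * C₃ * (X : ℝ) ^ (3 * σ)) * B) := by
        apply mul_le_mul hT_card _ (by positivity) (by positivity)
        exact mul_le_mul_of_nonneg_right hT_card hB0
    _ = ((C₁ * C₃) ^ 2 * C₂ * 2 ^ K) * (X : ℝ) ^ (7 * σ) * Y := by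
        rw [hB, show 7 * σ = 3 * σ + 3 * σ + σ by ring, Real.rpow_add hX0, Real.rpow_add hX0]
        ring
    _ ≤ (16 ^ K * ((C₁ * C₃) ^ 2 * C₂ * 2 ^ K)) * (X : ℝ) ^ ε * Y := by
        apply mul_le_mul_of_nonneg_right _ (by positivity)
        apply mul_le_mul _ _ (by positivity) (by positivity)
        · exact le_mul_of_one_le_left (by positivity) h16
        · apply Real.rpow_le_rpow_of_exponent_le hX1
          rw [hσ]
          linarith

end Pool.MP_a95293_nt.PS
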