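import Pool.Agent.Lib_MP_a95293_ps.Gcp
import Pool.Agent.Lib_MP_a95293_ps.Ener

/-!
# Piece FAM1: the energy move
-/

set_option autoImplicit false

namespace Pool.MP_a95293_nt.PS

open Finset
open Pool.MP_a95293_nt.RC (rd Prm pr3)

private theorem Fam1_cs {α : Type} [DecidableEq α] (U V : Finset ℕ) (g h : ℕ → α) :
    ((U ×ˢ V).filter fun z => g z.1 = h z.2).card ^ 2 ≤
      ((U ×ˢ U).filter fun z => g z.1 = g z.2).card *
        ((V ×ˢ V).filter fun z => h z.1 = h z.2).card := by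
  classical
  have e0 : ((U ×ˢ V).filter fun z => g z.1 = h z.2).card =
      ∑ t ∈ U.image g, (U.filter fun u => g u = t).card * (V.filter fun v => h v = t).card := by
    rw [card_eq_sum_card_fiberwise (f := fun z : ℕ × ℕ => g z.1) (t := U.image g)]
    · refine sum_congr rfl fun t _ => ?_
      rw [← card_product]
      congr 1
      ext ⟨x, y⟩
      simp only [mem_filter, mem_product]
      constructor
      · rintro ⟨⟨⟨h1, h2⟩, h3⟩, h4⟩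
        exact ⟨⟨h1, h4⟩, h2, h3 ▸ h4⟩
      · rintro ⟨⟨h1, h4⟩, h2, h3⟩
        exact ⟨⟨⟨h1, h2⟩, h4.trans h3.symm⟩, h4⟩
    · intro z hz
      rw [mem_coe, mem_filter, mem_product] at hz
      exact mem_coe.2 (mem_image_of_mem g hz.1.1)
  have e1 : ∀ (W : Finset ℕ) (k : ℕ → α), ∑ t ∈ U.image g, (W.filter fun u => k u = t).card ^ 2 ≤
      ((W ×ˢ W).filter fun z => k z.1 = k z.2).card := by
    intro W k
    have e2 : ∑ t ∈ U.image g, (W.filter fun u => k u = t).card ^ 2 =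
        ∑ t ∈ U.image g, (((W ×ˢ W).filter fun z => k z.1 = k z.2).filter
          fun z => k z.1 = t).card := by
      refine sum_congr rfl fun t _ => ?_
      rw [sq, ← card_product]
      congr 1
      ext ⟨x, y⟩
      simp only [mem_filter, mem_product]
      constructor
      · rintro ⟨⟨h1, h4⟩, h2, h3⟩
        exact ⟨⟨⟨h1, h2⟩, h4.trans h3.symm⟩, h4⟩
      · rintro ⟨⟨⟨h1, h2⟩, h3⟩, h4⟩
        exact ⟨⟨h1, h4⟩, h2, h3 ▸ h4⟩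
    rw [e2, ← card_biUnion]
    · exact card_le_card (biUnion_subset.2 fun t _ => filter_subset _ _)
    · intro t _ t' _ htt
      refine Finset.disjoint_left.2 ?_
      intro z hz hz'
      exact htt ((mem_filter.1 hz).2.symm.trans (mem_filter.1 hz').2)
  rw [e0]
  exact (sum_mul_sq_le_sq_mul_sq _ _ _).trans (Nat.mul_le_mul (e1 U g) (e1 V h))

private theorem Fam1_two (i : ℕ) : rd (2 ^ i) ≤ 2 := by
  unfold Pool.MP_a95293_nt.RC.rd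
  rcases Nat.eq_zero_or_pos i with h | h
  · rw [h]
    simp
  · rw [Nat.primeFactors_prime_pow (by omega) Nat.prime_two, prod_singleton]

private theorem Fam1_aux (A : ℕ) (ε : ℝ) (hε : 0 < ε) : ∃ C : ℝ, 1 ≤ C ∧ ∀ (X : ℕ) (Y : ℝ),
    1 ≤ X → 0 ≤ Y → ∀ (S : Finset (ℕ × ℕ)) (q u v : ℕ × ℕ → ℕ) (σ : (n : ℕ) → ℕ → ZMod n),
    (∀ n x y, σ n x = σ n y ↔ x ≡ y [MOD n]) →
    (∀ z ∈ S, 1 ≤ q z ∧ q z ≤ X ^ A ∧ (u z).Coprime (q z) ∧ (v z).Coprime (q z) ∧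
      (1 ≤ u z ∧ u z ≤ X ^ A) ∧ (1 ≤ v z ∧ v z ≤ X ^ A) ∧
      (u z : ZMod (q z)) = σ (q z) (v z) ∧ C * (rd (u z) : ℝ) ^ 2 ≤ q z ∧
      C * (rd (v z) : ℝ) ^ 2 ≤ q z ∧
      (rd (q z) : ℝ) * Real.sqrt ((rd (u z) : ℝ) * rd (v z)) ≤ Y) →
    (∀ z ∈ S, ∀ z' ∈ S, u z = u z' → v z = v z' → z = z') →
    (S.card : ℝ) ≤ C * (X : ℝ) ^ ε * Y := by
  classical
  obtain ⟨Cg, hCg, hg⟩ := gcp A (ε / 2) (by positivity)
  obtain ⟨Ce, hCe, he⟩ := energy A (ε / 2) (by positivity)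
  have hCC : 1 ≤ Cg * Ce := one_le_mul_of_one_le_of_one_le hCg hCe
  refine ⟨8 * (Cg * Ce), by linarith, ?_⟩
  intro X Y hX hY S q u v σ hσ hS hinj
  set N : ℕ := X ^ A with hN
  have hX1 : (1 : ℝ) ≤ X := by exact_mod_cast hX
  have hX0 : (0 : ℝ) < X := by linarith
  have hXe : (0 : ℝ) < (X : ℝ) ^ (ε / 2) := Real.rpow_pos_of_pos hX0 _
  have hXe2 : (X : ℝ) ^ (ε / 2) * (X : ℝ) ^ (ε / 2) = (X : ℝ) ^ ε := by
    rw [← Real.rpow_add hX0]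
    congr 1
    ring
  have hCe4 : 4 * Ce ≤ 8 * (Cg * Ce) := by nlinarith
  -- the weights
  set w : ℕ × ℕ → ℝ := fun s =>
    2 * Ce * (X : ℝ) ^ (ε / 2) * Real.sqrt ((rd (u s) : ℝ) * rd (v s)) with hw
  have hlog : ∀ n : ℕ, 2 ^ Nat.log 2 (rd n) ≤ rd n := fun n =>
    Nat.pow_log_le_self 2 (Pool.MP_a95293_nt.RC.rd_pos n).ne'
  have hlog' : ∀ n : ℕ, rd n ≤ 2 ^ (Nat.log 2 (rd n) + 1) := fun n =>
    (Nat.lt_pow_succ_log_self (by norm_num) _).le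
  have hrdN : ∀ n : ℕ, 1 ≤ n → n ≤ N → 2 ^ Nat.log 2 (rd n) ≤ N := fun n h1 h2 =>
    (hlog n).trans ((Nat.le_of_dvd h1 (Pool.MP_a95293_nt.RC.rd_dvd n)).trans h2)
  have main := hg X (8 * Ce * (X : ℝ) ^ (ε / 2) * Y) hX (by positivity) S q
    (fun s => 2 ^ Nat.log 2 (rd (u s))) (fun s => 2 ^ Nat.log 2 (rd (v s))) w
    (fun s hs => ⟨(hS s hs).1, (hS s hs).2.1⟩)
    (fun s hs => ⟨Nat.one_le_two_pow, hrdN _ (hS s hs).2.2.2.2.1.1 (hS s hs).2.2.2.2.1.2⟩)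
    (fun s hs => ⟨Nat.one_le_two_pow, hrdN _ (hS s hs).2.2.2.2.2.1.1 (hS s hs).2.2.2.2.2.1.2⟩)
    ?_ ?_
  · refine main.trans (le_of_eq ?_)
    rw [← hXe2]
    ring
  · -- fibres
    intro s hs
    refine ⟨s, hs, rfl, rfl, rfl, ?_⟩
    obtain ⟨a1, a2, a3, a4, a5, a6, a7, a8, a9, a10⟩ := hS s hs
    set i := Nat.log 2 (rd (u s)) with hi
    set j := Nat.log 2 (rd (v s)) with hj
    set F := S.filter fun t => q t = q s ∧ 2 ^ Nat.log 2 (rd (u t)) = 2 ^ i ∧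
      2 ^ Nat.log 2 (rd (v t)) = 2 ^ j with hF
    have hcard : F.card ≤ (((SS (q s) (2 ^ (i + 1)) N) ×ˢ (SS (q s) (2 ^ (j + 1)) N)).filter
        fun z => ((z.1 : ℕ) : ZMod (q s)) = σ (q s) z.2).card := by
      refine card_le_card_of_injOn (fun t => (u t, v t)) ?_ ?_
      · intro t ht
        rw [mem_coe, hF, mem_filter] at ht
        obtain ⟨ht, t1, t2, t3⟩ := ht
        obtain ⟨b1, b2, b3, b4, b5, b6, b7, b8, b9, b10⟩ := hS t ht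
        have c2 : Nat.log 2 (rd (u t)) = i := Nat.pow_right_injective (le_refl 2) t2
        have c3 : Nat.log 2 (rd (v t)) = j := Nat.pow_right_injective (le_refl 2) t3
        rw [mem_coe, mem_filter, mem_product, mem_SS, mem_SS]
        refine ⟨⟨⟨b5, t1 ▸ b3, ?_⟩, b6, t1 ▸ b4, ?_⟩, ?_⟩
        · rw [← c2]
          exact hlog' _
        · rw [← c3]
          exact hlog' _
        · show ((u t : ℕ) : ZMod (q s)) = σ (q s) (v t)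
          rw [← t1]
          exact b7
      · intro t ht t' ht' h
        rw [mem_coe, hF, mem_filter] at ht ht'
        simp only [Prod.mk.injEq] at h
        exact hinj t ht.1 t' ht'.1 h.1 h.2
    have hcs := Fam1_cs (SS (q s) (2 ^ (i + 1)) N) (SS (q s) (2 ^ (j + 1)) N)
      (fun n => (n : ZMod (q s))) (fun n => σ (q s) n)
    have p1 : (((SS (q s) (2 ^ (i + 1)) N) ×ˢ (SS (q s) (2 ^ (i + 1)) N)).filter
        fun z => ((z.1 : ℕ) : ZMod (q s)) = (z.2 : ℕ)).card = PP (q s) (2 ^ (i + 1)) N := by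
      unfold PP
      congr 1
      apply filter_congr
      intro z _
      exact ZMod.natCast_eq_natCast_iff _ _ _
    have p2 : (((SS (q s) (2 ^ (j + 1)) N) ×ˢ (SS (q s) (2 ^ (j + 1)) N)).filter
        fun z => σ (q s) z.1 = σ (q s) z.2).card = PP (q s) (2 ^ (j + 1)) N := by
      unfold PP
      congr 1
      apply filter_congr
      intro z _
      exact hσ _ _ _
    rw [p1, p2] at hcs
    have ru : (1 : ℝ) ≤ rd (u s) := by exact_mod_cast Pool.MP_a95293_nt.RC.rd_pos (u s)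
    have rv : (1 : ℝ) ≤ rd (v s) := by exact_mod_cast Pool.MP_a95293_nt.RC.rd_pos (v s)
    have hiu : ((2 ^ i : ℕ) : ℝ) ≤ rd (u s) := by exact_mod_cast hlog (u s)
    have hjv : ((2 ^ j : ℕ) : ℝ) ≤ rd (v s) := by exact_mod_cast hlog (v s)
    have i0 : (0 : ℝ) ≤ ((2 ^ i : ℕ) : ℝ) := Nat.cast_nonneg _
    have j0 : (0 : ℝ) ≤ ((2 ^ j : ℕ) : ℝ) := Nat.cast_nonneg _
    have ei : ((2 ^ (i + 1) : ℕ) : ℝ) = 2 * ((2 ^ i : ℕ) : ℝ) := by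
      push_cast
      ring
    have ej : ((2 ^ (j + 1) : ℕ) : ℝ) = 2 * ((2 ^ j : ℕ) : ℝ) := by
      push_cast
      ring
    have h1 := he X (q s) (2 ^ (i + 1)) hX a1 Nat.one_le_two_pow a2 (by
      rw [ei]
      refine le_trans ?_ a8
      have : (2 * ((2 ^ i : ℕ) : ℝ)) ^ 2 ≤ 4 * (rd (u s) : ℝ) ^ 2 := by nlinarith
      nlinarith [sq_nonneg (rd (u s) : ℝ)])
    have h2 := he X (q s) (2 ^ (j + 1)) hX a1 Nat.one_le_two_pow a2 (by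
      rw [ej]
      refine le_trans ?_ a9
      have : (2 * ((2 ^ j : ℕ) : ℝ)) ^ 2 ≤ 4 * (rd (v s) : ℝ) ^ 2 := by nlinarith
      nlinarith [sq_nonneg (rd (v s) : ℝ)])
    rw [ei] at h1
    rw [ej] at h2
    have hw0 : 0 ≤ w s := by
      rw [hw]
      positivity
    rw [← pow_le_pow_iff_left₀ (Nat.cast_nonneg _) hw0 (two_ne_zero)]
    have hsq : (w s) ^ 2 = 4 * Ce ^ 2 * ((X : ℝ) ^ (ε / 2)) ^ 2 * ((rd (u s) : ℝ) * rd (v s)) := by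
      rw [hw]
      show (2 * Ce * (X : ℝ) ^ (ε / 2) * Real.sqrt ((rd (u s) : ℝ) * rd (v s))) ^ 2 = _
      rw [mul_pow, Real.sq_sqrt (by positivity)]
      ring
    rw [hsq]
    have h3 : (F.card : ℝ) ^ 2 ≤ (PP (q s) (2 ^ (i + 1)) N : ℝ) * PP (q s) (2 ^ (j + 1)) N := by
      have := (Nat.pow_le_pow_left hcard 2).trans hcs
      exact_mod_cast this
    refine h3.trans ((mul_le_mul h1 h2 (Nat.cast_nonneg _) (by positivity)).trans ?_)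
    calc Ce * (X : ℝ) ^ (ε / 2) * (2 * ((2 ^ i : ℕ) : ℝ)) *
          (Ce * (X : ℝ) ^ (ε / 2) * (2 * ((2 ^ j : ℕ) : ℝ)))
        = 4 * Ce ^ 2 * ((X : ℝ) ^ (ε / 2)) ^ 2 * (((2 ^ i : ℕ) : ℝ) * ((2 ^ j : ℕ) : ℝ)) := by ring
      _ ≤ 4 * Ce ^ 2 * ((X : ℝ) ^ (ε / 2)) ^ 2 * ((rd (u s) : ℝ) * rd (v s)) := by
          apply mul_le_mul_of_nonneg_left _ (by positivity)
          exact mul_le_mul hiu hjv j0 (by linarith)
  · -- the weight bound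
    intro s hs
    obtain ⟨a1, a2, a3, a4, a5, a6, a7, a8, a9, a10⟩ := hS s hs
    have r1 : (rd (2 ^ Nat.log 2 (rd (u s))) : ℝ) ≤ 2 := by exact_mod_cast Fam1_two _
    have r2 : (rd (2 ^ Nat.log 2 (rd (v s))) : ℝ) ≤ 2 := by exact_mod_cast Fam1_two _
    have r1' : (0 : ℝ) ≤ (rd (2 ^ Nat.log 2 (rd (u s))) : ℝ) := Nat.cast_nonneg _
    have r2' : (0 : ℝ) ≤ (rd (2 ^ Nat.log 2 (rd (v s))) : ℝ) := Nat.cast_nonneg _
    have r12 : (rd (2 ^ Nat.log 2 (rd (u s))) : ℝ) * rd (2 ^ Nat.log 2 (rd (v s))) ≤ 4 := by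
      nlinarith
    rw [hw]
    show (rd (q s) : ℝ) * rd (2 ^ Nat.log 2 (rd (u s))) * rd (2 ^ Nat.log 2 (rd (v s))) *
      (2 * Ce * (X : ℝ) ^ (ε / 2) * Real.sqrt ((rd (u s) : ℝ) * rd (v s))) ≤ _
    calc (rd (q s) : ℝ) * rd (2 ^ Nat.log 2 (rd (u s))) * rd (2 ^ Nat.log 2 (rd (v s))) *
          (2 * Ce * (X : ℝ) ^ (ε / 2) * Real.sqrt ((rd (u s) : ℝ) * rd (v s)))
        = ((rd (2 ^ Nat.log 2 (rd (u s))) : ℝ) * rd (2 ^ Nat.log 2 (rd (v s)))) *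
          (2 * Ce * (X : ℝ) ^ (ε / 2)) *
          ((rd (q s) : ℝ) * Real.sqrt ((rd (u s) : ℝ) * rd (v s))) := by ring
      _ ≤ 4 * (2 * Ce * (X : ℝ) ^ (ε / 2)) * Y := by
          apply mul_le_mul _ a10 (by positivity) (by positivity)
          exact mul_le_mul_of_nonneg_right r12 (by positivity)
      _ = 8 * Ce * (X : ℝ) ^ (ε / 2) * Y := by ring

theorem fam1 (A : ℕ) (ε : ℝ) (hε : 0 < ε) : ∃ C : ℝ, 1 ≤ C ∧ ∀ (X : ℕ) (Y : ℝ), 1 ≤ X → 0 ≤ Y →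
    ∀ S : Finset (ℕ × ℕ), (∀ z ∈ S, Prm z ∧ rd (pr3 z) ≤ X ∧ z.1 + z.2 ≤ X ^ A ∧
      ∃ q : ℕ, 1 ≤ q ∧ q ∣ z.1 + z.2 ∧ C * (rd z.1 : ℝ) ^ 2 ≤ q ∧ C * (rd z.2 : ℝ) ^ 2 ≤ q ∧
        (rd q : ℝ) * Real.sqrt ((rd z.1 : ℝ) * rd z.2) ≤ Y) →
    (S.card : ℝ) ≤ C * (X : ℝ) ^ ε * Y := by
  classical
  obtain ⟨C, hC, h⟩ := Fam1_aux A ε hε
  refine ⟨C, hC, ?_⟩
  intro X Y hX hY S hS
  choose! q hq using fun z (hz : z ∈ S) => (hS z hz).2.2.2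
  refine h X Y hX hY S q (fun z => z.1) (fun z => z.2) (fun n x => -(x : ZMod n)) ?_ ?_ ?_
  · intro n x y
    rw [neg_inj]
    exact ZMod.natCast_eq_natCast_iff _ _ _
  · intro z hz
    obtain ⟨p1, p2, p3, _⟩ := hS z hz
    obtain ⟨q1, q2, q3, q4, q5⟩ := hq z hz
    have hz1 : 1 ≤ z.1 := p1.1
    have hz2 : 1 ≤ z.2 := p1.2.1
    refine ⟨q1, (Nat.le_of_dvd (by omega) q2).trans p3, p1.cop1.coprime_dvd_right q2,
      p1.cop2.coprime_dvd_right q2, ⟨hz1, by omega⟩, ⟨hz2, by omega⟩, ?_, q3, q4, q5⟩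
    show (z.1 : ZMod (q z)) = -(z.2 : ZMod (q z))
    rw [eq_neg_iff_add_eq_zero, ← Nat.cast_add, ZMod.natCast_eq_zero_iff]
    exact q2
  · intro z _ z' _ e1 e2
    exact Prod.ext e1 e2

theorem fam1' (A : ℕ) (ε : ℝ) (hε : 0 < ε) : ∃ C : ℝ, 1 ≤ C ∧ ∀ (X : ℕ) (Y : ℝ), 1 ≤ X → 0 ≤ Y →
    ∀ S : Finset (ℕ × ℕ), (∀ z ∈ S, Prm z ∧ rd (pr3 z) ≤ X ∧ z.1 + z.2 ≤ X ^ A ∧
      ∃ q : ℕ, 1 ≤ q ∧ q ∣ z.2 ∧ C * (rd z.1 : ℝ) ^ 2 ≤ q ∧ C * (rd (z.1 + z.2) : ℝ) ^ 2 ≤ q ∧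
        (rd q : ℝ) * Real.sqrt ((rd z.1 : ℝ) * rd (z.1 + z.2)) ≤ Y) →
    (S.card : ℝ) ≤ C * (X : ℝ) ^ ε * Y := by
  classical
  obtain ⟨C, hC, h⟩ := Fam1_aux A ε hε
  refine ⟨C, hC, ?_⟩
  intro X Y hX hY S hS
  choose! q hq using fun z (hz : z ∈ S) => (hS z hz).2.2.2
  refine h X Y hX hY S q (fun z => z.1) (fun z => z.1 + z.2) (fun n x => (x : ZMod n)) ?_ ?_ ?_
  · intro n x y
    exact ZMod.natCast_eq_natCast_iff _ _ _
  · intro z hz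
    obtain ⟨p1, p2, p3, _⟩ := hS z hz
    obtain ⟨q1, q2, q3, q4, q5⟩ := hq z hz
    have hz1 : 1 ≤ z.1 := p1.1
    have hz2 : 1 ≤ z.2 := p1.2.1
    refine ⟨q1, (Nat.le_of_dvd hz2 q2).trans (by omega), p1.2.2.coprime_dvd_right q2,
      (p1.cop2.symm).coprime_dvd_right q2, ⟨hz1, by omega⟩, ⟨by omega, p3⟩, ?_, q3, q4, q5⟩
    show (z.1 : ZMod (q z)) = ((z.1 + z.2 : ℕ) : ZMod (q z))
    rw [Nat.cast_add, (ZMod.natCast_eq_zero_iff _ _).2 q2, add_zero]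
  · intro z _ z' _ e1 e2
    exact Prod.ext e1 (by omega)

end Pool.MP_a95293_nt.PS
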