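import Pool.Agent.Lib_MP_a95293_ps.Gcp
import Pool.Agent.Lib_MP_a95293_ps.Fam1

/-!
# Piece FAMC: the closeness move, and the energy move with a modulus dividing the smallest term

If `a X < c` then `b` and the cofactor `D` of `c = D y^m` determine `y`, and `c` and the cofactor `B` of `b = B x^k` determine `x`.
-/

set_option autoImplicit false

namespace Pool.MP_a95293_nt.PS

open Finset
open Pool.MP_a95293_nt.RC (rd Prm pr3)

theorem fam1b (A : ℕ) (ε : ℝ) (hε : 0 < ε) : ∃ C : ℝ, 1 ≤ C ∧ ∀ (X : ℕ) (Y : ℝ), 1 ≤ X → 0 ≤ Y →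
    ∀ S : Finset (ℕ × ℕ), (∀ z ∈ S, Prm z ∧ rd (pr3 z) ≤ X ∧ z.1 + z.2 ≤ X ^ A ∧
      ∃ q : ℕ, 1 ≤ q ∧ q ∣ z.1 ∧ C * (rd z.2 : ℝ) ^ 2 ≤ q ∧ C * (rd (z.1 + z.2) : ℝ) ^ 2 ≤ q ∧
        (rd q : ℝ) * Real.sqrt ((rd z.2 : ℝ) * rd (z.1 + z.2)) ≤ Y) →
    (S.card : ℝ) ≤ C * (X : ℝ) ^ ε * Y := by
  classical
  obtain ⟨C, hC, h⟩ := fam1' A ε hε
  refine ⟨C, hC, ?_⟩
  intro X Y hX hY S hS
  have h1 : S.card = (S.image Prod.swap).card :=
    (card_image_of_injective _ Prod.swap_injective).symm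
  rw [h1]
  refine h X Y hX hY _ ?_
  intro z hz
  obtain ⟨w, hw, rfl⟩ := mem_image.1 hz
  obtain ⟨p1, p2, p3, q, q1, q2, q3, q4, q5⟩ := hS w hw
  refine ⟨p1.swap.1, ?_, ?_, q, q1, q2, q3, ?_, ?_⟩
  · rw [p1.swap.2]
    exact p2
  · show w.2 + w.1 ≤ X ^ A
    omega
  · show C * (rd (w.2 + w.1) : ℝ) ^ 2 ≤ q
    rw [add_comm w.2 w.1]
    exact q4
  · show (rd q : ℝ) * Real.sqrt ((rd w.2 : ℝ) * rd (w.2 + w.1)) ≤ Y
    rw [add_comm w.2 w.1]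
    exact q5

/-- `c = D y^m`, data `(b, D)` -/
def PC1 (X E : ℕ) (Y : ℝ) (z : ℕ × ℕ) : Prop :=
  ∃ m D y : ℕ, (2 ≤ m ∧ m ≤ E) ∧ y ≤ X ∧ z.1 + z.2 = D * y ^ m ∧ (rd z.2 : ℝ) * rd D ≤ Y

/-- `b = B x^k`, data `(c, B)` -/
def PC2 (X E : ℕ) (Y : ℝ) (z : ℕ × ℕ) : Prop :=
  ∃ k B x : ℕ, (2 ≤ k ∧ k ≤ E) ∧ x ≤ X ∧ z.2 = B * x ^ k ∧ (rd (z.1 + z.2) : ℝ) * rd B ≤ Y

/-- consecutive powers -/
private theorem FamC_pow {m y y' X D n n' : ℕ} (hm : 2 ≤ m) (hyX : y' ≤ X) (hn : n = D * y ^ m)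
    (hn' : n' = D * y' ^ m) (hyy : y < y') : 2 * n ≤ (n' - n) * X := by
  have h1 : y ^ m + m * y ^ (m - 1) ≤ (y + 1) ^ m := by
    obtain ⟨j, rfl⟩ : ∃ j, m = j + 1 := ⟨m - 1, by omega⟩
    rw [Nat.add_sub_cancel]
    have h3 : (y + 1) ^ (j + 1) = ∑ i ∈ range (j + 1 + 1), y ^ i * 1 ^ (j + 1 - i) *
        (j + 1).choose i := add_pow y 1 (j + 1)
    rw [h3, sum_range_succ, sum_range_succ]
    simp only [one_pow, mul_one, Nat.choose_self, Nat.choose_succ_self_right]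
    have : (j + 1) * y ^ j = y ^ j * (j + 1) := mul_comm _ _
    omega
  have h2 : (y + 1) ^ m ≤ y' ^ m := Nat.pow_le_pow_left hyy m
  have h3 : y ^ (m - 1) * y = y ^ m := by
    rw [← pow_succ]
    congr 1
    omega
  have h4 : y ≤ X := by omega
  have h5 : D * (m * y ^ (m - 1)) ≤ n' - n := by
    rw [hn, hn', ← Nat.mul_sub]
    apply Nat.mul_le_mul_left
    omega
  calc 2 * n = D * (2 * (y ^ (m - 1) * y)) := by
        rw [hn, h3]
        ring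
    _ ≤ D * (m * (y ^ (m - 1) * X)) := by gcongr
    _ = D * (m * y ^ (m - 1)) * X := by ring
    _ ≤ (n' - n) * X := Nat.mul_le_mul_right X h5

theorem FamC_aux (A E : ℕ) (ε : ℝ) (hε : 0 < ε) : ∃ C : ℝ, 1 ≤ C ∧ ∀ (X : ℕ) (Y : ℝ), 1 ≤ X →
    0 ≤ Y → ∀ (S : Finset (ℕ × ℕ)) (f₁ f₂ k : ℕ × ℕ → ℕ),
    (∀ z ∈ S, (1 ≤ f₁ z ∧ f₁ z ≤ X ^ A) ∧ (1 ≤ f₂ z ∧ f₂ z ≤ X ^ A) ∧ k z ≤ E ∧
      (rd (f₁ z) : ℝ) * rd (f₂ z) ≤ Y) →
    (∀ z ∈ S, ∀ z' ∈ S, f₁ z = f₁ z' → f₂ z = f₂ z' → k z = k z' → z = z') →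
    (S.card : ℝ) ≤ C * (X : ℝ) ^ ε * Y := by
  classical
  obtain ⟨C, hC, h⟩ := gcp A ε hε
  refine ⟨C * ((E : ℝ) + 1), ?_, ?_⟩
  · have : (0 : ℝ) ≤ E := Nat.cast_nonneg E
    nlinarith
  intro X Y hX hY S f₁ f₂ k hS hinj
  have hXA : 1 ≤ X ^ A := Nat.one_le_pow _ _ hX
  have hE : (0 : ℝ) ≤ (E : ℝ) + 1 := by positivity
  have main := h X (((E : ℝ) + 1) * Y) hX (by positivity) S f₁ f₂ (fun _ => 1)
    (fun _ => (E : ℝ) + 1) (fun z hz => (hS z hz).1) (fun z hz => (hS z hz).2.1)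
    (fun _ _ => ⟨le_refl _, hXA⟩) ?_ ?_
  · refine main.trans (le_of_eq ?_)
    ring
  · intro s hs
    refine ⟨s, hs, rfl, rfl, rfl, ?_⟩
    have h3 : (S.filter fun t => f₁ t = f₁ s ∧ f₂ t = f₂ s ∧
        (fun _ : ℕ × ℕ => 1) t = (fun _ : ℕ × ℕ => 1) s).card ≤ (range (E + 1)).card := by
      refine card_le_card_of_injOn k ?_ ?_
      · intro z hz
        rw [mem_coe, mem_filter] at hz
        rw [mem_coe, mem_range]
        exact Nat.lt_succ_of_le (hS z hz.1).2.2.1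
      · intro z hz z' hz' hk
        rw [mem_coe, mem_filter] at hz hz'
        exact hinj z hz.1 z' hz'.1 (hz.2.1.trans hz'.2.1.symm) (hz.2.2.1.trans hz'.2.2.1.symm) hk
    rw [card_range] at h3
    exact_mod_cast h3
  · intro s hs
    have h3 : rd 1 = 1 := by
      unfold Pool.MP_a95293_nt.RC.rd
      simp
    rw [h3]
    push_cast
    rw [mul_one]
    have := mul_le_mul_of_nonneg_right (hS s hs).2.2.2 hE
    linarith

private theorem FamC_bd {n B p : ℕ} (h : n = B * p) (hn : 1 ≤ n) : 1 ≤ B ∧ B ≤ n := by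
  subst h
  constructor
  · by_contra h
    have : B = 0 := by omega
    rw [this] at hn
    omega
  · by_contra h
    rcases Nat.eq_zero_or_pos p with h0 | h0
    · rw [h0] at hn
      omega
    · exact h (Nat.le_mul_of_pos_right B h0)

theorem famC (A E : ℕ) (ε : ℝ) (hε : 0 < ε) : ∃ C : ℝ, 1 ≤ C ∧ ∀ (X : ℕ) (Y : ℝ), 1 ≤ X → 0 ≤ Y →
    ∀ S : Finset (ℕ × ℕ), (∀ z ∈ S, Prm z ∧ z.1 ≤ z.2 ∧ z.1 + z.2 ≤ X ^ A ∧
      z.1 * X < z.1 + z.2 ∧ (PC1 X E Y z ∨ PC2 X E Y z)) →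
    (S.card : ℝ) ≤ C * (X : ℝ) ^ ε * Y := by
  classical
  obtain ⟨C, hC, h⟩ := FamC_aux A E ε hε
  refine ⟨2 * C, by linarith, ?_⟩
  intro X Y hX hY S hS
  set S₁ := S.filter fun z => PC1 X E Y z with hS₁
  set S₂ := S.filter fun z => PC2 X E Y z with hS₂
  have b2 : ∀ z ∈ S, 1 ≤ z.2 ∧ z.2 ≤ X ^ A := fun z hz =>
    ⟨(hS z hz).1.2.1, le_trans (Nat.le_add_left _ _) (hS z hz).2.2.1⟩
  have b3 : ∀ z ∈ S, 1 ≤ z.1 + z.2 ∧ z.1 + z.2 ≤ X ^ A := fun z hz =>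
    ⟨le_trans (b2 z hz).1 (Nat.le_add_left _ _), (hS z hz).2.2.1⟩
  have c1 : (S₁.card : ℝ) ≤ C * (X : ℝ) ^ ε * Y := by
    have hm : ∀ z, z ∈ S₁ → z ∈ S ∧ PC1 X E Y z := fun z hz => by
      rw [hS₁, mem_filter] at hz
      exact hz
    choose! m D y hq using fun z (hz : z ∈ S₁) => (hm z hz).2
    refine h X Y hX hY S₁ (fun z => z.2) D m ?_ ?_
    · intro z hz
      obtain ⟨q1, q2, q3, q4⟩ := hq z hz
      have e2 := b2 z (hm z hz).1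
      have e3 := b3 z (hm z hz).1
      have g2 := FamC_bd q3 e3.1
      exact ⟨e2, ⟨g2.1, g2.2.trans e3.2⟩, q1.2, q4⟩
    · intro z hz z' hz' e1 e2 e3
      obtain ⟨q1, q2, q3, q4⟩ := hq z hz
      obtain ⟨r1, r2, r3, r4⟩ := hq z' hz'
      have a1 := (hS z (hm z hz).1).2.2.2.1
      have a2 := (hS z' (hm z' hz').1).2.2.2.1
      have a3 := (hS z (hm z hz).1).2.1
      have a4 := (hS z' (hm z' hz').1).2.1
      rw [← e2, ← e3] at r3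
      have e1' : z.2 = z'.2 := e1
      rcases lt_trichotomy (y z) (y z') with hlt | heq | hlt
      · exfalso
        have h5 := FamC_pow q1.1 r2 q3 r3 hlt
        have h6 : (z'.1 + z'.2 - (z.1 + z.2)) * X ≤ z'.1 * X := Nat.mul_le_mul_right X (by omega)
        omega
      · rw [heq, ← r3] at q3
        exact Prod.ext (by omega) e1'
      · exfalso
        have h5 := FamC_pow q1.1 q2 r3 q3 hlt
        have h6 : (z.1 + z.2 - (z'.1 + z'.2)) * X ≤ z.1 * X := Nat.mul_le_mul_right X (by omega)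
        omega
  have c2 : (S₂.card : ℝ) ≤ C * (X : ℝ) ^ ε * Y := by
    have hm : ∀ z, z ∈ S₂ → z ∈ S ∧ PC2 X E Y z := fun z hz => by
      rw [hS₂, mem_filter] at hz
      exact hz
    choose! k B x hq using fun z (hz : z ∈ S₂) => (hm z hz).2
    refine h X Y hX hY S₂ (fun z => z.1 + z.2) B k ?_ ?_
    · intro z hz
      obtain ⟨q1, q2, q3, q4⟩ := hq z hz
      have e2 := b2 z (hm z hz).1
      have e3 := b3 z (hm z hz).1
      have g2 := FamC_bd q3 e2.1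
      exact ⟨e3, ⟨g2.1, g2.2.trans e2.2⟩, q1.2, q4⟩
    · intro z hz z' hz' e1 e2 e3
      obtain ⟨q1, q2, q3, q4⟩ := hq z hz
      obtain ⟨r1, r2, r3, r4⟩ := hq z' hz'
      have a1 := (hS z (hm z hz).1).2.2.2.1
      have a2 := (hS z' (hm z' hz').1).2.2.2.1
      have a3 := (hS z (hm z hz).1).2.1
      have a4 := (hS z' (hm z' hz').1).2.1
      have a5 := b2 z (hm z hz).1
      have a6 := b2 z' (hm z' hz').1
      rw [← e2, ← e3] at r3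
      have e1' : z.1 + z.2 = z'.1 + z'.2 := e1
      rcases lt_trichotomy (x z) (x z') with hlt | heq | hlt
      · exfalso
        have h5 := FamC_pow q1.1 r2 q3 r3 hlt
        have h6 : (z'.2 - z.2) * X ≤ z.1 * X := Nat.mul_le_mul_right X (by omega)
        omega
      · rw [heq, ← r3] at q3
        exact Prod.ext (by omega) q3
      · exfalso
        have h5 := FamC_pow q1.1 q2 r3 q3 hlt
        have h6 : (z.2 - z'.2) * X ≤ z'.1 * X := Nat.mul_le_mul_right X (by omega)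
        omega
  have hsub : S ⊆ S₁ ∪ S₂ := by
    intro z hz
    rw [mem_union, hS₁, hS₂, mem_filter, mem_filter]
    rcases (hS z hz).2.2.2.2 with h | h
    · exact Or.inl ⟨hz, h⟩
    · exact Or.inr ⟨hz, h⟩
  have hc : S.card ≤ S₁.card + S₂.card := (card_le_card hsub).trans (card_union_le _ _)
  have hc' : (S.card : ℝ) ≤ S₁.card + S₂.card := by exact_mod_cast hc
  calc (S.card : ℝ) ≤ S₁.card + S₂.card := hc'
    _ ≤ C * (X : ℝ) ^ ε * Y + C * (X : ℝ) ^ ε * Y := by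
        linarith
    _ = 2 * C * (X : ℝ) ^ ε * Y := by ring

end Pool.MP_a95293_nt.PS
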