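import Pool.Agent.Lib_MP_a95293_ps.Gcp

/-!
# Piece FAM0: two sides of small radical
-/

set_option autoImplicit false

namespace Pool.MP_a95293_nt.PS

open Finset
open Pool.MP_a95293_nt.RC (rd Prm pr3)

private theorem Fam0_aux (A : ℕ) (ε : ℝ) (hε : 0 < ε) : ∃ C : ℝ, 1 ≤ C ∧ ∀ (X : ℕ) (Y : ℝ),
    1 ≤ X → 0 ≤ Y → ∀ (S : Finset (ℕ × ℕ)) (f₁ f₂ : ℕ × ℕ → ℕ),
    (∀ z ∈ S, 1 ≤ f₁ z ∧ f₁ z ≤ X ^ A) → (∀ z ∈ S, 1 ≤ f₂ z ∧ f₂ z ≤ X ^ A) →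
    (∀ z ∈ S, ∀ z' ∈ S, f₁ z = f₁ z' → f₂ z = f₂ z' → z = z') →
    (∀ z ∈ S, (rd (f₁ z) : ℝ) * rd (f₂ z) ≤ Y) → (S.card : ℝ) ≤ C * (X : ℝ) ^ ε * Y := by
  obtain ⟨C, hC, h⟩ := gcp A ε hε
  refine ⟨C, hC, ?_⟩
  intro X Y hX hY S f₁ f₂ h₁ h₂ hinj hrd
  have hXA : 1 ≤ X ^ A := Nat.one_le_pow _ _ hX
  refine h X Y hX hY S f₁ f₂ (fun _ => 1) (fun _ => 1) h₁ h₂ (fun _ _ => ⟨le_refl _, hXA⟩) ?_ ?_
  · intro s hs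
    refine ⟨s, hs, rfl, rfl, rfl, ?_⟩
    have h3 : (S.filter fun t => f₁ t = f₁ s ∧ f₂ t = f₂ s ∧
        (fun _ : ℕ × ℕ => 1) t = (fun _ : ℕ × ℕ => 1) s).card ≤ 1 := by
      rw [card_le_one]
      intro a ha b hb
      rw [mem_filter] at ha hb
      exact hinj a ha.1 b hb.1 (ha.2.1.trans hb.2.1.symm) (ha.2.2.1.trans hb.2.2.1.symm)
    exact_mod_cast h3
  · intro s hs
    have h3 : rd 1 = 1 := by
      unfold Pool.MP_a95293_nt.RC.rd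
      simp
    rw [h3]
    push_cast
    rw [mul_one, mul_one]
    exact hrd s hs

theorem fam0 (A : ℕ) (ε : ℝ) (hε : 0 < ε) : ∃ C : ℝ, 1 ≤ C ∧ ∀ (X : ℕ) (Y : ℝ), 1 ≤ X → 0 ≤ Y →
    ∀ S : Finset (ℕ × ℕ), (∀ z ∈ S, Prm z ∧ z.1 + z.2 ≤ X ^ A ∧
      ((rd z.1 : ℝ) * rd z.2 ≤ Y ∨ (rd z.1 : ℝ) * rd (z.1 + z.2) ≤ Y ∨
        (rd z.2 : ℝ) * rd (z.1 + z.2) ≤ Y)) →
    (S.card : ℝ) ≤ C * (X : ℝ) ^ ε * Y := by
  classical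
  obtain ⟨C, hC, h⟩ := Fam0_aux A ε hε
  refine ⟨3 * C, by linarith, ?_⟩
  intro X Y hX hY S hS
  set S₁ := S.filter fun z => (rd z.1 : ℝ) * rd z.2 ≤ Y with hS₁
  set S₂ := S.filter fun z => (rd z.1 : ℝ) * rd (z.1 + z.2) ≤ Y with hS₂
  set S₃ := S.filter fun z => (rd z.2 : ℝ) * rd (z.1 + z.2) ≤ Y with hS₃
  have b1 : ∀ z ∈ S, 1 ≤ z.1 ∧ z.1 ≤ X ^ A := fun z hz =>
    ⟨(hS z hz).1.1, le_trans (Nat.le_add_right _ _) (hS z hz).2.1⟩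
  have b2 : ∀ z ∈ S, 1 ≤ z.2 ∧ z.2 ≤ X ^ A := fun z hz =>
    ⟨(hS z hz).1.2.1, le_trans (Nat.le_add_left _ _) (hS z hz).2.1⟩
  have b3 : ∀ z ∈ S, 1 ≤ z.1 + z.2 ∧ z.1 + z.2 ≤ X ^ A := fun z hz =>
    ⟨le_trans (b1 z hz).1 (Nat.le_add_right _ _), (hS z hz).2.1⟩
  have c1 := h X Y hX hY S₁ (fun z => z.1) (fun z => z.2)
    (fun z hz => b1 z (mem_filter.1 hz).1) (fun z hz => b2 z (mem_filter.1 hz).1)
    (fun z _ z' _ e1 e2 => Prod.ext e1 e2) (fun z hz => (mem_filter.1 hz).2)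
  have c2 := h X Y hX hY S₂ (fun z => z.1) (fun z => z.1 + z.2)
    (fun z hz => b1 z (mem_filter.1 hz).1) (fun z hz => b3 z (mem_filter.1 hz).1)
    (fun z _ z' _ e1 e2 => Prod.ext e1 (by omega))
    (fun z hz => (mem_filter.1 hz).2)
  have c3 := h X Y hX hY S₃ (fun z => z.2) (fun z => z.1 + z.2)
    (fun z hz => b2 z (mem_filter.1 hz).1) (fun z hz => b3 z (mem_filter.1 hz).1)
    (fun z _ z' _ e1 e2 => Prod.ext (by omega) e1)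
    (fun z hz => (mem_filter.1 hz).2)
  have hsub : S ⊆ S₁ ∪ S₂ ∪ S₃ := by
    intro z hz
    rw [mem_union, mem_union, hS₁, hS₂, hS₃, mem_filter, mem_filter, mem_filter]
    rcases (hS z hz).2.2 with h | h | h
    · exact Or.inl (Or.inl ⟨hz, h⟩)
    · exact Or.inl (Or.inr ⟨hz, h⟩)
    · exact Or.inr ⟨hz, h⟩
  have hc : S.card ≤ S₁.card + S₂.card + S₃.card := by
    refine (card_le_card hsub).trans ((card_union_le _ _).trans ?_)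
    exact Nat.add_le_add_right (card_union_le _ _) _
  have hc' : (S.card : ℝ) ≤ S₁.card + S₂.card + S₃.card := by exact_mod_cast hc
  calc (S.card : ℝ) ≤ S₁.card + S₂.card + S₃.card := hc'
    _ ≤ C * (X : ℝ) ^ ε * Y + C * (X : ℝ) ^ ε * Y + C * (X : ℝ) ^ ε * Y := by
        linarith
    _ = 3 * C * (X : ℝ) ^ ε * Y := by ring

end Pool.MP_a95293_nt.PS
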