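import Mathlib

/-!
# Piece BPA: the `ℓ`-adic determinant method on the curve `α x^k + β y^m = γ`

`approx`: on a residue class modulo `ℓ` the coordinate `y` is a polynomial in `x - x₀` modulo every power of `ℓ`.
`det_dvd`: the determinant of `s` polynomials at `s` points divisible by `ℓ` is divisible by `ℓ ^ (s (s - 1) / 2)`.
-/

set_option autoImplicit false

namespace Pool.MP_a95293_nt.PS.Bp

open Finset Polynomial

theorem approx (l : ℕ) (hl : l.Prime) (k m : ℕ) (hm : ¬ l ∣ m) (al be ga x0 y0 : ℤ)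
    (hbe : ¬ (l : ℤ) ∣ be) (hy0 : ¬ (l : ℤ) ∣ y0) {ι : Type} (x y : ι → ℤ)
    (hxy : ∀ i, al * x i ^ k + be * y i ^ m = ga) (hy : ∀ i, (l : ℤ) ∣ y i - y0) (n : ℕ) :
    ∃ g : ℤ[X], ∀ i, (l : ℤ) ^ (n + 1) ∣ y i - g.eval (x i - x0) := by
  have hlp : Prime (l : ℤ) := Nat.prime_iff_prime_int.1 hl
  have hm0 : m ≠ 0 := by
    rintro rfl
    exact hm (dvd_zero l)
  -- inverse
  obtain ⟨u, hu⟩ : ∃ u : ℤ, (l : ℤ) ∣ u * (be * (m * y0 ^ (m - 1))) - 1 := by
    have hnd : ¬ (l : ℤ) ∣ be * (m * y0 ^ (m - 1)) := by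
      intro h
      rcases hlp.dvd_or_dvd h with h | h
      · exact hbe h
      rcases hlp.dvd_or_dvd h with h | h
      · exact hm (Int.natCast_dvd_natCast.1 h)
      · exact hy0 (hlp.dvd_of_dvd_pow h)
    have hc : IsCoprime (l : ℤ) (be * (m * y0 ^ (m - 1))) :=
      (Prime.coprime_iff_not_dvd hlp).2 hnd
    obtain ⟨a, b, hab⟩ := hc
    exact ⟨b, ⟨-a, by linear_combination hab⟩⟩
  induction n with
  | zero =>
    refine ⟨C y0, fun i => ?_⟩
    simpa using hy i
  | succ n ih =>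
    obtain ⟨g, hg⟩ := ih
    refine ⟨g + C u * (C ga - C al * (C x0 + X) ^ k - C be * g ^ m), fun i => ?_⟩
    obtain ⟨z, hz⟩ := hg i
    set G := g.eval (x i - x0) with hG
    have e1 : (g + C u * (C ga - C al * (C x0 + X) ^ k - C be * g ^ m)).eval (x i - x0) =
        G + u * (ga - al * x i ^ k - be * G ^ m) := by
      simp only [eval_add, eval_mul, eval_C, eval_sub, eval_pow, eval_X, hG]
      ring
    rw [e1]
    have hyi : y i = G + (l : ℤ) ^ (n + 1) * z := by linear_combination hz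
    obtain ⟨K, hK⟩ := Polynomial.powAddExpansion G ((l : ℤ) ^ (n + 1) * z) m
    have e2 : ga - al * x i ^ k - be * G ^ m =
        be * (m * G ^ (m - 1) * ((l : ℤ) ^ (n + 1) * z) + K * ((l : ℤ) ^ (n + 1) * z) ^ 2) := by
      have h1 := hxy i
      rw [hyi, hK] at h1
      linear_combination -h1
    have hGy : (l : ℤ) ∣ G - y0 := by
      have h1 : (l : ℤ) ∣ (l : ℤ) ^ (n + 1) * z := Dvd.dvd.mul_right (dvd_pow_self _ (by omega)) z
      have h2 := hy i
      rw [hyi] at h2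
      have h3 := dvd_sub h2 h1
      rwa [show G + (l : ℤ) ^ (n + 1) * z - y0 - (l : ℤ) ^ (n + 1) * z = G - y0 by ring] at h3
    have hGp : (l : ℤ) ∣ G ^ (m - 1) - y0 ^ (m - 1) := hGy.trans (sub_dvd_pow_sub_pow _ _ _)
    have h1 : (l : ℤ) ∣ 1 - u * (be * (m * G ^ (m - 1))) := by
      obtain ⟨c, hc⟩ := hGp
      obtain ⟨d, hd⟩ := hu
      exact ⟨-d - u * be * m * c, by linear_combination (-(u * be * m)) * hc - hd⟩
    obtain ⟨c, hc⟩ := h1
    rw [e2, hyi]
    refine ⟨z * c - u * be * K * (l : ℤ) ^ n * z ^ 2, ?_⟩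
    have e3 : ((l : ℤ) ^ (n + 1) * z) ^ 2 = (l : ℤ) ^ (n + 1 + 1) * (l : ℤ) ^ n * z ^ 2 := by
      ring
    rw [e3]
    linear_combination ((l : ℤ) ^ (n + 1) * z) * hc

/-- the sum of an injective family of natural numbers -/
theorem sum_inj (s : ℕ) (f : Fin s → ℕ) (hf : Function.Injective f) :
    s * (s - 1) / 2 ≤ ∑ j, f j := by
  classical
  set S := univ.image f with hS
  have hc : S.card = s := by
    rw [hS, card_image_of_injective _ hf, card_univ, Fintype.card_fin]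
  have e1 : ∑ j, f j = ∑ n ∈ S, n := by
    rw [hS, sum_image (fun a _ b _ h => hf h)]
  have e2 : ∑ n ∈ S, n = ∑ i : Fin s, S.orderEmbOfFin hc i := by
    have h1 : S = univ.image (S.orderEmbOfFin hc) := by
      rw [Finset.image_orderEmbOfFin_univ]
    conv_lhs => rw [h1]
    rw [sum_image (fun a _ b _ h => (S.orderEmbOfFin hc).injective h)]
  have h3 : ∀ i : Fin s, (i : ℕ) ≤ S.orderEmbOfFin hc i := by
    intro i
    obtain ⟨i, hi⟩ := i
    induction i with
    | zero => exact Nat.zero_le _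
    | succ i ih =>
      have h4 := ih (by omega)
      have h5 : S.orderEmbOfFin hc ⟨i, by omega⟩ < S.orderEmbOfFin hc ⟨i + 1, hi⟩ :=
        (S.orderEmbOfFin hc).strictMono (by simp [Fin.lt_def])
      show i + 1 ≤ _
      have h6 : i ≤ S.orderEmbOfFin hc ⟨i, by omega⟩ := h4
      omega
  rw [e1, e2, ← Finset.sum_range_id, ← Fin.sum_univ_eq_sum_range (fun i => i) s]
  exact sum_le_sum fun i _ => h3 i

theorem det_dvd (l : ℤ) (s : ℕ) (g : Fin s → ℤ[X]) (t : Fin s → ℤ) (ht : ∀ i, l ∣ t i) :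
    l ^ (s * (s - 1) / 2) ∣ Matrix.det (Matrix.of fun j i => (g j).eval (t i)) := by
  classical
  choose τ hτ using ht
  obtain ⟨D, hD⟩ : ∃ D : ℕ, ∀ j, (g j).natDegree < D :=
    ⟨∑ j, (g j).natDegree + 1, fun j => Nat.lt_succ_of_le
      (single_le_sum (f := fun j => (g j).natDegree) (fun _ _ => Nat.zero_le _) (mem_univ j))⟩
  have e1 : Matrix.det (Matrix.of fun j i => (g j).eval (t i)) =
      (Matrix.detRowAlternating (R := ℤ) (n := Fin s)).toMultilinearMap
        (fun j => ∑ d : Fin D, (g j).coeff d • fun i => t i ^ (d : ℕ)) := by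
    show _ = Matrix.det _
    congr 1
    ext j i
    rw [Matrix.of_apply, eval_eq_sum_range' (hD j), Finset.sum_apply, ← Fin.sum_univ_eq_sum_range
      (fun d => (g j).coeff d * t i ^ d) D]
    simp
  rw [e1, MultilinearMap.map_sum]
  refine dvd_sum fun f _ => ?_
  rw [MultilinearMap.map_smul_univ]
  refine Dvd.dvd.mul_left ?_ _
  show _ ∣ Matrix.det (Matrix.of fun j i => t i ^ (f j : ℕ))
  by_cases hf : Function.Injective f
  · have e2 : (Matrix.of fun j i => t i ^ (f j : ℕ) : Matrix (Fin s) (Fin s) ℤ) =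
        Matrix.of fun j i => l ^ (f j : ℕ) *
          (Matrix.of fun j i => τ i ^ (f j : ℕ) : Matrix (Fin s) (Fin s) ℤ) j i := by
      ext j i
      rw [Matrix.of_apply, Matrix.of_apply, Matrix.of_apply, hτ i, mul_pow]
    rw [e2, Matrix.det_mul_column, Finset.prod_pow_eq_pow_sum]
    refine Dvd.dvd.mul_right (pow_dvd_pow _ ?_) _
    exact sum_inj s (fun j => (f j : ℕ)) fun a b h => hf (Fin.ext h)
  · rw [Function.not_injective_iff] at hf
    obtain ⟨a, b, hab, hne⟩ := hf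
    rw [Matrix.det_zero_of_row_eq hne (by
      ext i
      simp [hab])]
    exact dvd_zero _

end Pool.MP_a95293_nt.PS.Bp
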