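import Pool.Agent.Lib_MP_a95293_ps.BpA

/-!
# Piece BPB: the auxiliary polynomial of a residue class
-/

set_option autoImplicit false

namespace Pool.MP_a95293_nt.PS.Bp

open Finset Polynomial

/-- the determinant of the monomials vanishes on a residue class -/
theorem det_zero (l : ℕ) (hl : l.Prime) (k m r P : ℕ) (hm : ¬ l ∣ m)
    (al be ga x0 y0 : ℤ) (hbe : ¬ (l : ℤ) ∣ be) (hy0 : ¬ (l : ℤ) ∣ y0)
    (hP : 1 ≤ P)
    (hsize : (r * r).factorial * (P ^ (2 * (r - 1))) ^ (r * r) < l ^ (r * r * (r * r - 1) / 2))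
    (x y : Fin (r * r) → ℕ) (hxy : ∀ i, al * (x i : ℤ) ^ k + be * (y i : ℤ) ^ m = ga)
    (hx : ∀ i, (l : ℤ) ∣ x i - x0) (hy : ∀ i, (l : ℤ) ∣ y i - y0)
    (hxP : ∀ i, x i ≤ P) (hyP : ∀ i, y i ≤ P) :
    Matrix.det (Matrix.of fun j i : Fin (r * r) =>
      (x i : ℤ) ^ ((finProdFinEquiv.symm j).1 : ℕ) * (y i : ℤ) ^ ((finProdFinEquiv.symm j).2 : ℕ)) =
      0 := by
  classical
  set N := r * r * (r * r - 1) / 2 with hN
  set M : Matrix (Fin (r * r)) (Fin (r * r)) ℤ := Matrix.of fun j i =>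
      (x i : ℤ) ^ ((finProdFinEquiv.symm j).1 : ℕ) * (y i : ℤ) ^ ((finProdFinEquiv.symm j).2 : ℕ)
    with hM
  obtain ⟨g, hg⟩ := approx l hl k m hm al be ga x0 y0 hbe hy0 (fun i => (x i : ℤ))
    (fun i => (y i : ℤ)) hxy hy N
  set G : Fin (r * r) → ℤ[X] := fun j =>
    (C x0 + X) ^ ((finProdFinEquiv.symm j).1 : ℕ) * g ^ ((finProdFinEquiv.symm j).2 : ℕ) with hG
  have h1 := det_dvd (l : ℤ) (r * r) G (fun i => (x i : ℤ) - x0) hx
  rw [← hN] at h1
  have h2 : (((l ^ N : ℕ) : ℤ)) ∣ M.det := by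
    have h3 : ((M.det : ℤ) : ZMod (l ^ N)) =
        ((Matrix.det (Matrix.of fun j i => (G j).eval ((x i : ℤ) - x0)) : ℤ) : ZMod (l ^ N)) := by
      refine ((Int.castRingHom (ZMod (l ^ N))).map_det M).trans (Eq.trans ?_
        ((Int.castRingHom (ZMod (l ^ N))).map_det
          (Matrix.of fun j i : Fin (r * r) => (G j).eval ((x i : ℤ) - x0))).symm)
      congr 1
      ext j i
      simp only [RingHom.mapMatrix_apply, Matrix.map_apply, Int.coe_castRingHom, hM,
        Matrix.of_apply, hG]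
      have e3 : ((y i : ℤ) : ZMod (l ^ N)) = ((g.eval ((x i : ℤ) - x0) : ℤ) : ZMod (l ^ N)) := by
        rw [ZMod.intCast_eq_intCast_iff_dvd_sub]
        have h4 : (((l ^ N : ℕ) : ℤ)) ∣ y i - g.eval ((x i : ℤ) - x0) := by
          push_cast
          exact (pow_dvd_pow _ (Nat.le_succ N)).trans (hg i)
        have h5 := (dvd_neg (α := ℤ)).2 h4
        rwa [neg_sub] at h5
      simp only [eval_mul, eval_pow, eval_add, eval_C, eval_X]
      push_cast
      push_cast at e3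
      rw [e3]
      ring
    have h4 : ((Matrix.det (Matrix.of fun j i => (G j).eval ((x i : ℤ) - x0)) : ℤ) :
        ZMod (l ^ N)) = 0 := by
      rw [ZMod.intCast_zmod_eq_zero_iff_dvd]
      push_cast
      exact h1
    rw [h4, ZMod.intCast_zmod_eq_zero_iff_dvd] at h3
    exact h3
  have h5 : |M.det| ≤ (r * r).factorial * ((P : ℤ) ^ (2 * (r - 1))) ^ (r * r) := by
    have h6 := Matrix.det_le (A := M) (abv := AbsoluteValue.abs) (x := (P : ℤ) ^ (2 * (r - 1)))
      (by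
        intro j i
        rw [AbsoluteValue.abs_apply, hM, Matrix.of_apply, abs_of_nonneg (by positivity)]
        have a1 : ((finProdFinEquiv.symm j).1 : ℕ) ≤ r - 1 := by
          have := (finProdFinEquiv.symm j).1.isLt
          omega
        have a2 : ((finProdFinEquiv.symm j).2 : ℕ) ≤ r - 1 := by
          have := (finProdFinEquiv.symm j).2.isLt
          omega
        have hP' : (1 : ℤ) ≤ P := by exact_mod_cast hP
        calc (x i : ℤ) ^ ((finProdFinEquiv.symm j).1 : ℕ) *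
              (y i : ℤ) ^ ((finProdFinEquiv.symm j).2 : ℕ)
            ≤ (P : ℤ) ^ ((finProdFinEquiv.symm j).1 : ℕ) *
              (P : ℤ) ^ ((finProdFinEquiv.symm j).2 : ℕ) := by
                have := hxP i
                have := hyP i
                gcongr
          _ ≤ (P : ℤ) ^ (r - 1) * (P : ℤ) ^ (r - 1) := by
                gcongr
          _ = (P : ℤ) ^ (2 * (r - 1)) := by rw [← pow_add, two_mul])
    rw [Fintype.card_fin, nsmul_eq_mul] at h6
    exact_mod_cast h6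
  refine Int.eq_zero_of_abs_lt_dvd h2 (lt_of_le_of_lt h5 ?_)
  exact_mod_cast hsize

/-- the auxiliary polynomial of a residue class -/
theorem aux_poly (l : ℕ) (hl : l.Prime) (k m r P : ℕ) (hm : ¬ l ∣ m)
    (al be ga x0 y0 : ℤ) (hbe : ¬ (l : ℤ) ∣ be) (hy0 : ¬ (l : ℤ) ∣ y0) (hP : 1 ≤ P)
    (hsize : (r * r).factorial * (P ^ (2 * (r - 1))) ^ (r * r) < l ^ (r * r * (r * r - 1) / 2))
    (Ω : Finset (ℕ × ℕ)) (hΩ : ∀ z ∈ Ω, al * (z.1 : ℤ) ^ k + be * (z.2 : ℤ) ^ m = ga ∧
      (l : ℤ) ∣ z.1 - x0 ∧ (l : ℤ) ∣ z.2 - y0 ∧ z.1 ≤ P ∧ z.2 ≤ P) :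
    ∃ c : Fin r → Fin r → ℚ, c ≠ 0 ∧ ∀ z ∈ Ω, ∑ a, ∑ b, c a b * (z.1 : ℚ) ^ (a : ℕ) *
      (z.2 : ℚ) ^ (b : ℕ) = 0 := by
  classical
  set e : ℕ × ℕ → Fin (r * r) → ℚ := fun z j =>
    (z.1 : ℚ) ^ ((finProdFinEquiv.symm j).1 : ℕ) * (z.2 : ℚ) ^ ((finProdFinEquiv.symm j).2 : ℕ)
    with he
  set W : Submodule ℚ (Fin (r * r) → ℚ) := Submodule.span ℚ (e '' (Ω : Set (ℕ × ℕ))) with hW
  by_cases hT : W = ⊤
  · exfalso
    obtain ⟨f, hf1, -, hf3⟩ := Submodule.exists_fun_fin_finrank_span_eq ℚ (e '' (Ω : Set (ℕ × ℕ)))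
    have hfr : Module.finrank ℚ (Submodule.span ℚ (e '' (Ω : Set (ℕ × ℕ)))) = r * r := by
      rw [← hW, hT, finrank_top, Module.finrank_fin_fun]
    have hLI : LinearIndependent ℚ (fun i : Fin (r * r) => f (Fin.cast hfr.symm i)) :=
      hf3.comp _ (Fin.cast_injective _)
    have hex : ∀ i : Fin (r * r), ∃ z : ℕ × ℕ, z ∈ Ω ∧ e z = f (Fin.cast hfr.symm i) := by
      intro i
      obtain ⟨z, hz, hz'⟩ := hf1 (Fin.cast hfr.symm i)
      exact ⟨z, hz, hz'⟩
    choose z hz hz' using hex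
    have hdet := det_zero l hl k m r P hm al be ga x0 y0 hbe hy0 hP hsize (fun i => (z i).1)
      (fun i => (z i).2) (fun i => (hΩ _ (hz i)).1) (fun i => (hΩ _ (hz i)).2.1)
      (fun i => (hΩ _ (hz i)).2.2.1) (fun i => (hΩ _ (hz i)).2.2.2.1)
      (fun i => (hΩ _ (hz i)).2.2.2.2)
    set B : Matrix (Fin (r * r)) (Fin (r * r)) ℚ := Matrix.of fun i j => e (z i) j with hB
    have hrow : B.row = fun i => f (Fin.cast hfr.symm i) := by
      funext i j
      rw [Matrix.row_apply, hB, Matrix.of_apply, hz']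
    have hU : IsUnit B := by
      rw [← Matrix.linearIndependent_rows_iff_isUnit, hrow]
      exact hLI
    have hd : B.det ≠ 0 := ((Matrix.isUnit_iff_isUnit_det B).1 hU).ne_zero
    apply hd
    have h6 := congrArg (Int.castRingHom ℚ) hdet
    rw [RingHom.map_det, map_zero] at h6
    rw [← Matrix.det_transpose, ← h6]
    congr 1
    ext i j
    simp [hB, he]
  · obtain ⟨f, hf, hWf⟩ := Submodule.exists_le_ker_of_lt_top W (lt_top_iff_ne_top.2 hT)
    refine ⟨fun a b => f (Pi.single (finProdFinEquiv (a, b)) 1), ?_, ?_⟩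
    · intro h
      apply hf
      refine LinearMap.pi_ext' fun j => ?_
      ext
      have h1 : f (Pi.single (finProdFinEquiv (finProdFinEquiv.symm j)) 1) = 0 :=
        congrFun (congrFun h (finProdFinEquiv.symm j).1) (finProdFinEquiv.symm j).2
      rw [Equiv.apply_symm_apply] at h1
      simpa using h1
    · intro w hw
      have h1 : f (e w) = 0 := hWf (Submodule.subset_span ⟨w, hw, rfl⟩)
      have h2 : f (e w) = ∑ j, e w j * f (Pi.single j 1) := by
        rw [LinearMap.pi_apply_eq_sum_univ f (e w)]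
        refine sum_congr rfl fun j _ => ?_
        rw [smul_eq_mul]
        congr 2
        ext i
        rw [Pi.single_apply]
        simp only [eq_comm]
      rw [h1] at h2
      rw [h2, ← finProdFinEquiv.sum_comp, Fintype.sum_prod_type]
      refine sum_congr rfl fun a _ => sum_congr rfl fun b _ => ?_
      rw [he]
      simp only [Equiv.symm_apply_apply]
      ring

end Pool.MP_a95293_nt.PS.Bp
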