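import Pool.Agent.Lib_MP_a95293_ps.Greedy

/-!
# Piece CASES: every triple is in one of the families
-/

set_option autoImplicit false

namespace Pool.MP_a95293_nt.PS

open Finset
open Pool.MP_a95293_nt.RC (rd Prm pr3)

private theorem Cases_rd {n u p e v : ℕ} (hn : n = u * p ^ e * v) (hp : p.Prime) (he : 1 ≤ e)
    (h1 : u.Coprime p) (h2 : v.Coprime p) (h3 : u.Coprime v) : rd n = rd u * p * rd v := by
  have e1 : rd (p ^ e) = p := by
    unfold Pool.MP_a95293_nt.RC.rd
    rw [Nat.primeFactors_prime_pow (by omega) hp, prod_singleton]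
  rw [hn, Pool.MP_a95293_nt.RC.rd_mul (Nat.Coprime.mul_left h3 (Nat.Coprime.pow_left e h2.symm)),
    Pool.MP_a95293_nt.RC.rd_mul (Nat.Coprime.pow_right e h1), e1]

private theorem Cases_side {n X u p e v : ℕ} (hX : 2 ≤ X) (hn : n = u * p ^ e * v) (hp : p.Prime)
    (he : 1 ≤ e) (h1 : u.Coprime p) (h2 : v.Coprime p) (h3 : u.Coprime v) (hu : 1 ≤ u)
    (hv : 1 ≤ v) (huX : u < X) (hru : rd u ^ e ≤ u) (hrv : v ≤ rd v ^ e) :
    Real.log (rd n) = Real.log (rd u) + Real.log p + Real.log (rd v) ∧ 0 ≤ Real.log (rd u) ∧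
      0 ≤ Real.log (rd v) ∧ 0 < Real.log p ∧ e * Real.log (rd u) ≤ Real.log X ∧
      Real.log n ≤ Real.log X + e * Real.log (rd n) ∧ e * Real.log p ≤ Real.log n := by
  have hX0 : (0 : ℝ) < X := by exact_mod_cast (by omega : 0 < X)
  have ru : (1 : ℝ) ≤ rd u := by exact_mod_cast Pool.MP_a95293_nt.RC.rd_pos u
  have rv : (1 : ℝ) ≤ rd v := by exact_mod_cast Pool.MP_a95293_nt.RC.rd_pos v
  have hp1 : (1 : ℝ) < p := by exact_mod_cast hp.one_lt
  have hp0 : (0 : ℝ) < p := by linarith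
  have u0 : (0 : ℝ) < u := by exact_mod_cast hu
  have v0 : (0 : ℝ) < v := by exact_mod_cast hv
  have lu := Real.log_nonneg ru
  have lv := Real.log_nonneg rv
  have lp := Real.log_pos hp1
  have e1 : Real.log (rd n) = Real.log (rd u) + Real.log p + Real.log (rd v) := by
    rw [Cases_rd hn hp he h1 h2 h3]
    push_cast
    rw [Real.log_mul (by positivity) (by positivity), Real.log_mul (by positivity) (by positivity)]
  have e2 : Real.log n = Real.log u + e * Real.log p + Real.log v := by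
    rw [hn]
    push_cast
    rw [Real.log_mul (by positivity) (by positivity), Real.log_mul (by positivity) (by positivity),
      Real.log_pow]
  have e3 : e * Real.log (rd u) ≤ Real.log u := by
    rw [← Real.log_pow]
    exact Real.log_le_log (by positivity) (by exact_mod_cast hru)
  have e4 : Real.log u ≤ Real.log X := Real.log_le_log u0 (by exact_mod_cast huX.le)
  have e5 : Real.log v ≤ e * Real.log (rd v) := by
    rw [← Real.log_pow]
    exact Real.log_le_log v0 (by exact_mod_cast hrv)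
  have e6 : 0 ≤ Real.log (u : ℝ) := Real.log_nonneg (by exact_mod_cast hu)
  have e7 : 0 ≤ Real.log (v : ℝ) := Real.log_nonneg (by exact_mod_cast hv)
  have e8 : (0 : ℝ) ≤ e * Real.log (rd u) := by positivity
  refine ⟨e1, lu, lv, lp, by linarith, ?_, by linarith⟩
  rw [e1, e2]
  nlinarith

/-- the inequality on the masses -/
private theorem Cases_ineq {L t la lb lc x y : ℝ} (ht : 12 / 19 * L < t)
    (hs : la + lb + lc ≤ L) (h12 : t < la + lb) (h13 : t < la + lc) (h23 : t < lb + lc)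
    (hx : t - (la + lc) / 2 - (t - 12 / 19 * L) < x)
    (hy : t - (la + lb) / 2 - (t - 12 / 19 * L) < y) :
    la + (lb - x) + (lc - y) + 2 / 3 * max x y ≤ t := by
  rcases le_total x y with h | h
  · rw [max_eq_right h]
    linarith
  · rw [max_eq_left h]
    linarith

theorem cases (θ : ℝ) (h1 : 12 / 19 < θ) (h2 : θ < 2 / 3) : ∃ M : ℕ, ∀ A : ℕ, ∃ E : ℕ,
    ∀ C : ℝ, 1 ≤ C → ∃ X₀ : ℕ, ∀ X : ℕ, X₀ ≤ X → ∀ z : ℕ × ℕ, Prm z → z.1 ≤ z.2 →
    rd (pr3 z) ≤ X → rd (pr3 z) ^ M ≤ z.1 + z.2 → z.1 + z.2 ≤ X ^ A →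
    ((rd z.1 : ℝ) * rd z.2 ≤ (X : ℝ) ^ θ ∨ (rd z.1 : ℝ) * rd (z.1 + z.2) ≤ (X : ℝ) ^ θ ∨
        (rd z.2 : ℝ) * rd (z.1 + z.2) ≤ (X : ℝ) ^ θ) ∨
    (∃ q : ℕ, 1 ≤ q ∧ q ∣ z.1 + z.2 ∧ C * (rd z.1 : ℝ) ^ 2 ≤ q ∧ C * (rd z.2 : ℝ) ^ 2 ≤ q ∧
        (rd q : ℝ) * Real.sqrt ((rd z.1 : ℝ) * rd z.2) ≤ (X : ℝ) ^ θ) ∨
    (∃ q : ℕ, 1 ≤ q ∧ q ∣ z.2 ∧ C * (rd z.1 : ℝ) ^ 2 ≤ q ∧ C * (rd (z.1 + z.2) : ℝ) ^ 2 ≤ q ∧
        (rd q : ℝ) * Real.sqrt ((rd z.1 : ℝ) * rd (z.1 + z.2)) ≤ (X : ℝ) ^ θ) ∨
    (∃ k m B D x y : ℕ, 2 ≤ k ∧ k ≤ E ∧ 2 ≤ m ∧ m ≤ E ∧ z.2 = B * x ^ k ∧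
        z.1 + z.2 = D * y ^ m ∧
        (rd z.1 : ℝ) * rd B * rd D * (max x y : ℝ) ^ ((2 : ℝ) / 3) ≤ (X : ℝ) ^ θ) := by
  set η : ℝ := θ - 12 / 19 with hη
  have hη0 : 0 < η := by rw [hη]; linarith
  refine ⟨⌈1 / η⌉₊ + 5, fun A => ⟨4 * A, fun C hC => ⟨⌈C ^ 4⌉₊ + 2, ?_⟩⟩⟩
  intro X hX z hz hab hR hRM hcA
  set M : ℕ := ⌈1 / η⌉₊ + 5 with hM
  have hMr : 1 / η + 5 ≤ (M : ℝ) := by
    rw [hM]
    push_cast
    linarith [Nat.le_ceil (1 / η)]
  have hX2 : 2 ≤ X := by omega
  have hXC : C ^ 4 ≤ (X : ℝ) := by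
    have h3 : (⌈C ^ 4⌉₊ : ℝ) ≤ X := by exact_mod_cast (by omega : ⌈C ^ 4⌉₊ ≤ X)
    exact (Nat.le_ceil _).trans h3
  have hX0 : (0 : ℝ) < X := by exact_mod_cast (by omega : 0 < X)
  have hX1 : (1 : ℝ) < X := by exact_mod_cast (by omega : 1 < X)
  set L := Real.log X with hL
  have hL0 : 0 < L := Real.log_pos hX1
  have hCL : 4 * Real.log C ≤ L := by
    have h3 := Real.log_le_log (by positivity) hXC
    rw [Real.log_pow] at h3
    push_cast at h3
    exact h3
  have hlC : 0 ≤ Real.log C := Real.log_nonneg hC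
  by_contra hcon
  push Not at hcon
  obtain ⟨⟨n12, n13, n23⟩, nF1, nF1', nF2⟩ := hcon
  set a := z.1 with ha
  set b := z.2 with hb
  have ha0 : 0 < a := hz.1
  have hb0 : 0 < b := hz.2.1
  have ra : (0 : ℝ) < rd a := by exact_mod_cast Pool.MP_a95293_nt.RC.rd_pos a
  have rb : (0 : ℝ) < rd b := by exact_mod_cast Pool.MP_a95293_nt.RC.rd_pos b
  have rc : (0 : ℝ) < rd (a + b) := by exact_mod_cast Pool.MP_a95293_nt.RC.rd_pos (a + b)
  set la := Real.log (rd a) with hla
  set lb := Real.log (rd b) with hlb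
  set lc := Real.log (rd (a + b)) with hlc
  have hpr : rd (pr3 z) = rd a * rd b * rd (a + b) := Pool.MP_a95293_nt.RC.rd_pr3 hz
  have hlpr : Real.log (rd (pr3 z)) = la + lb + lc := by
    rw [hpr]
    push_cast
    rw [Real.log_mul (by positivity) (by positivity), Real.log_mul (by positivity) (by positivity)]
  have hprpos : (0 : ℝ) < rd (pr3 z) := by exact_mod_cast Pool.MP_a95293_nt.RC.rd_pos (pr3 z)
  have hs : la + lb + lc ≤ L := by
    rw [← hlpr]
    exact Real.log_le_log hprpos (by exact_mod_cast hR)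
  set t := θ * L with ht
  have hrpow : ∀ w : ℝ, 0 < w → (X : ℝ) ^ θ < w → t < Real.log w := by
    intro w hw h
    have h3 := Real.log_lt_log (by positivity) h
    rwa [Real.log_rpow hX0] at h3
  have h12 : t < la + lb := by
    have h3 := hrpow _ (by positivity) n12
    rwa [Real.log_mul ra.ne' rb.ne'] at h3
  have h13 : t < la + lc := by
    have h3 := hrpow _ (by positivity) n13
    rwa [Real.log_mul ra.ne' rc.ne'] at h3
  have h23 : t < lb + lc := by
    have h3 := hrpow _ (by positivity) n23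
    rwa [Real.log_mul rb.ne' rc.ne'] at h3
  have htL : 12 / 19 * L < t := by
    rw [ht]
    exact mul_lt_mul_of_pos_right h1 hL0
  have htL2 : t < 2 / 3 * L := by
    rw [ht]
    exact mul_lt_mul_of_pos_right h2 hL0
  have hηL : η * L = t - 12 / 19 * L := by
    rw [hη, ht]
    ring
  -- sizes
  set c := a + b with hc
  have hc0 : (0 : ℝ) < c := by exact_mod_cast (by omega : 0 < c)
  have hb0r : (0 : ℝ) < b := by exact_mod_cast hb0
  have hlogc : M * (la + lb + lc) ≤ Real.log c := by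
    rw [← hlpr, ← Real.log_pow]
    exact Real.log_le_log (by positivity) (by exact_mod_cast hRM)
  have hsum : 9 / 10 * L ≤ la + lb + lc := by linarith
  have hlogc2 : (9 / 10 * M) * L ≤ Real.log c := by
    refine le_trans ?_ hlogc
    have hM0 : (0 : ℝ) ≤ M := Nat.cast_nonneg M
    nlinarith
  have hlogb : Real.log c - Real.log 2 ≤ Real.log b := by
    rw [← Real.log_div hc0.ne' (by norm_num)]
    apply Real.log_le_log (by positivity)
    rw [div_le_iff₀ (by norm_num)]
    have h3 : c ≤ b * 2 := by omega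
    exact_mod_cast h3
  have hlog2 : Real.log 2 ≤ L := by
    rw [hL]
    exact Real.log_le_log (by norm_num) (by exact_mod_cast hX2)
  have hMη : (1 / η + 5) * L ≤ M * L := mul_le_mul_of_nonneg_right hMr hL0.le
  have hηinv : 0 < 1 / η := by positivity
  have hη1L : 0 < 1 / η * L := by positivity
  have hbL : 2 * L + 9 / 10 * (1 / η * L) ≤ Real.log b := by nlinarith
  have hcL : 2 * L + 9 / 10 * (1 / η * L) ≤ Real.log c := by
    have : Real.log b ≤ Real.log c := Real.log_le_log hb0r (by exact_mod_cast (by omega : b ≤ c))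
    linarith
  have hXb : X ≤ b := by
    have h3 : Real.log X ≤ Real.log b := by linarith
    have h4 := (Real.log_le_log_iff hX0 hb0r).1 h3
    exact_mod_cast h4
  have hXc : X ≤ c := by omega
  -- upper bounds for the masses
  have ua : la < L - t := by linarith
  have ub : lb < L - t := by linarith
  have uc : lc < L - t := by linarith
  have hcAL : Real.log c ≤ A * L := by
    rw [hL, ← Real.log_pow]
    exact Real.log_le_log hc0 (by exact_mod_cast hcA)
  -- the exponent is large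
  have big : ∀ (e : ℕ) (ln l : ℝ), 1 ≤ e → 2 * L + 9 / 10 * (1 / η * L) ≤ ln → ln ≤ L + e * l →
      l < L - t → 2 ≤ e ∧ ∀ w : ℝ, 0 ≤ w → e * w ≤ L → w ≤ η * L := by
    intro e ln l he h3 h4 h5
    have he0 : (0 : ℝ) < e := by exact_mod_cast he
    have h6 : (e : ℝ) * l < e * (7 / 19 * L) := by
      apply mul_lt_mul_of_pos_left _ he0
      linarith
    have h7 : L + 9 / 10 * (1 / η * L) < 7 / 19 * e * L := by linarith
    have h8 : 1 + 9 / 10 * (1 / η) < 7 / 19 * e := by
      by_contra h9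
      push Not at h9
      have := mul_le_mul_of_nonneg_right h9 hL0.le
      linarith
    have h9 : 1 / η < e := by linarith
    constructor
    · have h10 : (1 : ℝ) < e := by
        by_contra h11
        push Not at h11
        linarith
      exact_mod_cast h10
    · intro w hw hew
      by_contra h10
      push Not at h10
      have h11 : L < (1 / η * (η * L)) * 1 + 0 ∨ 1 / η * (η * L) = L := by
        right
        field_simp
      have h12 : 1 / η * (η * L) = L := by field_simp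
      have h13 : 1 / η * (η * L) < e * w := by
        have h14 : 0 < η * L := by positivity
        calc 1 / η * (η * L) < e * (η * L) := mul_lt_mul_of_pos_right h9 h14
          _ ≤ e * w := mul_le_mul_of_nonneg_left h10.le he0.le
      linarith
  -- the square condition
  have sq : ∀ (r q : ℕ), 0 < r → Real.log r < L - t → X ≤ q → C * (r : ℝ) ^ 2 ≤ q := by
    intro r q hr h3 h4
    have hr0 : (0 : ℝ) < r := by exact_mod_cast hr
    have hC0 : 0 < C := by linarith
    have h5 : Real.log (C * (r : ℝ) ^ 2) ≤ L := by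
      rw [Real.log_mul hC0.ne' (by positivity), Real.log_pow]
      push_cast
      linarith
    have h6 : C * (r : ℝ) ^ 2 ≤ X := (Real.log_le_log_iff (by positivity) hX0).1 h5
    have h7 : (X : ℝ) ≤ q := by exact_mod_cast h4
    linarith
  obtain ⟨u, p, e, v, hn, hp, he, g1, g2, g3, hu, hv, huX, hXq, hru, hrv⟩ := greedy c X hX2 hXc
  obtain ⟨u', p', e', v', hn', hp', he', g1', g2', g3', hu', hv', huX', hXq', hru', hrv'⟩ :=
    greedy b X hX2 hXb
  obtain ⟨s1, s2, s3, s4, s5, s6, s7⟩ := Cases_side hX2 hn hp he g1 g2 g3 hu hv huX hru hrv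
  obtain ⟨s1', s2', s3', s4', s5', s6', s7'⟩ :=
    Cases_side hX2 hn' hp' he' g1' g2' g3' hu' hv' huX' hru' hrv'
  obtain ⟨he2, hw⟩ := big e _ _ he hcL s6 uc
  obtain ⟨he2', hw'⟩ := big e' _ _ he' hbL s6' ub
  have w1 := hw _ s2 s5
  have w1' := hw' _ s2' s5'
  have ra0 : 0 < rd a := Pool.MP_a95293_nt.RC.rd_pos a
  have rb0 : 0 < rd b := Pool.MP_a95293_nt.RC.rd_pos b
  have rc0 : 0 < rd c := Pool.MP_a95293_nt.RC.rd_pos c
  have hpr0 : (0 : ℝ) < p := by exact_mod_cast hp.pos
  have hpr0' : (0 : ℝ) < p' := by exact_mod_cast hp'.pos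
  have ru0 : (0 : ℝ) < rd u := by exact_mod_cast Pool.MP_a95293_nt.RC.rd_pos u
  have rv0 : (0 : ℝ) < rd v := by exact_mod_cast Pool.MP_a95293_nt.RC.rd_pos v
  have ru0' : (0 : ℝ) < rd u' := by exact_mod_cast Pool.MP_a95293_nt.RC.rd_pos u'
  have rv0' : (0 : ℝ) < rd v' := by exact_mod_cast Pool.MP_a95293_nt.RC.rd_pos v'
  have rdq : rd (u * p ^ e) = rd u * p := by
    have := Cases_rd (n := u * p ^ e) (v := 1) (by ring) hp he g1 (Nat.coprime_one_left p)
      (Nat.coprime_one_right u)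
    rw [this]
    simp [Pool.MP_a95293_nt.RC.rd]
  have rdq' : rd (u' * p' ^ e') = rd u' * p' := by
    have := Cases_rd (n := u' * p' ^ e') (v := 1) (by ring) hp' he' g1' (Nat.coprime_one_left p')
      (Nat.coprime_one_right u')
    rw [this]
    simp [Pool.MP_a95293_nt.RC.rd]
  have k1 : t < Real.log (rd u) + Real.log p + (la + lb) / 2 := by
    have h3 := nF1 (u * p ^ e) (by omega) ⟨v, hn⟩ (sq _ _ ra0 ua hXq) (sq _ _ rb0 ub hXq)
    rw [rdq] at h3
    have h4 := hrpow _ (mul_pos (by push_cast; positivity) (Real.sqrt_pos.2 (by positivity))) h3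
    push_cast at h4
    rw [Real.log_mul (by positivity) (by positivity), Real.log_mul (by positivity) (by positivity),
      Real.log_sqrt (by positivity), Real.log_mul ra.ne' rb.ne'] at h4
    exact h4
  have k1' : t < Real.log (rd u') + Real.log p' + (la + lc) / 2 := by
    have h3 := nF1' (u' * p' ^ e') (by omega) ⟨v', hn'⟩ (sq _ _ ra0 ua hXq') (sq _ _ rc0 uc hXq')
    rw [rdq'] at h3
    have h4 := hrpow _ (mul_pos (by push_cast; positivity) (Real.sqrt_pos.2 (by positivity))) h3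
    push_cast at h4
    rw [Real.log_mul (by positivity) (by positivity), Real.log_mul (by positivity) (by positivity),
      Real.log_sqrt (by positivity), Real.log_mul ra.ne' rc.ne'] at h4
    exact h4
  rw [hηL] at w1 w1'
  have key := Cases_ineq (x := Real.log p') (y := Real.log p) htL hs h12 h13 h23
    (by linarith) (by linarith)
  -- exponents bounded
  have bound : ∀ (e : ℕ) (l : ℝ), 5 / 19 * L < l → e * l ≤ A * L → e ≤ 4 * A := by
    intro e l h3 h4
    have he0 : (0 : ℝ) ≤ e := Nat.cast_nonneg e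
    have h5 : (e : ℝ) * (5 / 19 * L) ≤ A * L :=
      (mul_le_mul_of_nonneg_left h3.le he0).trans h4
    have h6 : (e : ℝ) * (5 / 19) ≤ A := by
      by_contra h7
      push Not at h7
      have := mul_lt_mul_of_pos_right h7 hL0
      linarith
    have h7 : (e : ℝ) ≤ ((4 * A : ℕ) : ℝ) := by
      push_cast
      have hA0 : (0 : ℝ) ≤ A := Nat.cast_nonneg A
      linarith
    exact_mod_cast h7
  have hlogbc : Real.log b ≤ Real.log c :=
    Real.log_le_log hb0r (by exact_mod_cast (by omega : b ≤ c))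
  have b1 := bound e (Real.log p) (by linarith) (by linarith)
  have b1' := bound e' (Real.log p') (by linarith) (by linarith)
  have h3 := nF2 e' e (u' * v') (u * v) p' p he2' b1' he2 b1
    (by rw [hn']; ring) (by rw [hn]; ring)
  have pB : (0 : ℝ) < rd (u' * v') := by exact_mod_cast Pool.MP_a95293_nt.RC.rd_pos (u' * v')
  have pD : (0 : ℝ) < rd (u * v) := by exact_mod_cast Pool.MP_a95293_nt.RC.rd_pos (u * v)
  have hmaxpos : (0 : ℝ) < max (p' : ℝ) p := lt_max_of_lt_left hpr0'
  have h4 := hrpow _ (by positivity) h3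
  have rB : (rd (u' * v') : ℝ) = rd u' * rd v' := by
    rw [Pool.MP_a95293_nt.RC.rd_mul g3']
    push_cast
    ring
  have rD : (rd (u * v) : ℝ) = rd u * rd v := by
    rw [Pool.MP_a95293_nt.RC.rd_mul g3]
    push_cast
    ring
  have hmax : Real.log (max (p' : ℝ) p) = max (Real.log p') (Real.log p) := by
    rcases le_total (p' : ℝ) p with h | h
    · rw [max_eq_right h, max_eq_right (Real.log_le_log hpr0' h)]
    · rw [max_eq_left h, max_eq_left (Real.log_le_log hpr0 h)]
  rw [rB, rD] at h4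
  rw [Real.log_mul (by positivity) (by positivity), Real.log_mul (by positivity) (by positivity),
    Real.log_mul (by positivity) (by positivity), Real.log_mul (by positivity) (by positivity),
    Real.log_mul (by positivity) (by positivity), Real.log_rpow hmaxpos, hmax] at h4
  linarith

end Pool.MP_a95293_nt.PS
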