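import Pool.Agent.Lib_MP_a95293_ps.Greedy
import Pool.Agent.Lib_MP_a95293_ps.FamJ
import Pool.Agent.Lib_MP_a95293_ps.FamC

/-!
# Piece CASESV: every triple is in one of the families, exponent `5/9`

Logarithms of the radicals: `la, lb, lc`, sum at most `L = log X`; `x, y, w` the big primes of `b, c, a`.
-/

set_option autoImplicit false

namespace Pool.MP_a95293_nt.PS

open Finset
open Pool.MP_a95293_nt.RC (rd Prm pr3)

private theorem CasesV_rd {n u p e v : ℕ} (hn : n = u * p ^ e * v) (hp : p.Prime) (he : 1 ≤ e)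
    (h1 : u.Coprime p) (h2 : v.Coprime p) (h3 : u.Coprime v) : rd n = rd u * p * rd v := by
  have e1 : rd (p ^ e) = p := by
    unfold Pool.MP_a95293_nt.RC.rd
    rw [Nat.primeFactors_prime_pow (by omega) hp, prod_singleton]
  rw [hn, Pool.MP_a95293_nt.RC.rd_mul (Nat.Coprime.mul_left h3 (Nat.Coprime.pow_left e h2.symm)),
    Pool.MP_a95293_nt.RC.rd_mul (Nat.Coprime.pow_right e h1), e1]

/-- the big prime of one side -/
private theorem CasesV_side {n X K : ℕ} {η : ℝ} (hX : 2 ≤ X) (hη : 0 < η) (hK : 1 / η ≤ K)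
    (hn : X ≤ n) (h1 : ((K : ℝ) + 1) * Real.log X ≤ Real.log n)
    (h2 : Real.log (rd n) < Real.log X) : ∃ q p e B : ℕ, q ∣ n ∧ X ≤ q ∧ n = B * p ^ e ∧ p.Prime ∧
      K < e ∧ Real.log (rd q) ≤ Real.log p + η * Real.log X ∧
      Real.log (rd B) = Real.log (rd n) - Real.log p ∧ e * Real.log p ≤ Real.log n ∧ p ≤ X := by
  obtain ⟨u, p, e, v, hn', hp, he, g1, g2, g3, hu, hv, huX, hXq, hru, hrv⟩ := greedy n X hX hn
  have hX0 : (0 : ℝ) < X := by exact_mod_cast (by omega : 0 < X)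
  have hX1 : (1 : ℝ) < X := by exact_mod_cast (by omega : 1 < X)
  have hL0 : 0 < Real.log X := Real.log_pos hX1
  have ru : (1 : ℝ) ≤ rd u := by exact_mod_cast Pool.MP_a95293_nt.RC.rd_pos u
  have rv : (1 : ℝ) ≤ rd v := by exact_mod_cast Pool.MP_a95293_nt.RC.rd_pos v
  have hp1 : (1 : ℝ) < p := by exact_mod_cast hp.one_lt
  have hp0 : (0 : ℝ) < p := by linarith
  have u0 : (0 : ℝ) < u := by exact_mod_cast hu
  have v0 : (0 : ℝ) < v := by exact_mod_cast hv
  have lu := Real.log_nonneg ru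
  have lv := Real.log_nonneg rv
  have lp := Real.log_pos hp1
  have e1 : Real.log (rd n) = Real.log (rd u) + Real.log p + Real.log (rd v) := by
    rw [CasesV_rd hn' hp he g1 g2 g3]
    push_cast
    rw [Real.log_mul (by positivity) (by positivity), Real.log_mul (by positivity) (by positivity)]
  have e2 : Real.log n = Real.log u + e * Real.log p + Real.log v := by
    rw [hn']
    push_cast
    rw [Real.log_mul (by positivity) (by positivity), Real.log_mul (by positivity) (by positivity),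
      Real.log_pow]
  have e3 : e * Real.log (rd u) ≤ Real.log u := by
    rw [← Real.log_pow]
    exact Real.log_le_log (by positivity) (by exact_mod_cast hru)
  have e4 : Real.log u ≤ Real.log X := Real.log_le_log u0 (by exact_mod_cast huX.le)
  have e5 : Real.log v ≤ e * Real.log (rd v) := by
    rw [← Real.log_pow]
    exact Real.log_le_log v0 (by exact_mod_cast hrv)
  have e6 : 0 ≤ Real.log (u : ℝ) := Real.log_nonneg (by exact_mod_cast hu)
  have e7 : 0 ≤ Real.log (v : ℝ) := Real.log_nonneg (by exact_mod_cast hv)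
  have he0 : (0 : ℝ) < e := by exact_mod_cast he
  have hKe : (K : ℝ) < e := by
    have h3 : (K : ℝ) * Real.log X ≤ e * Real.log (rd n) := by
      have : (0 : ℝ) ≤ e * Real.log (rd u) := by positivity
      have h4 : Real.log n ≤ Real.log X + e * Real.log (rd n) := by
        rw [e1, e2]
        nlinarith
      nlinarith
    have h4 : (e : ℝ) * Real.log (rd n) < e * Real.log X := mul_lt_mul_of_pos_left h2 he0
    have h5 : (K : ℝ) * Real.log X < e * Real.log X := lt_of_le_of_lt h3 h4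
    exact lt_of_mul_lt_mul_right h5 hL0.le
  have hw : Real.log (rd u) ≤ η * Real.log X := by
    by_contra h10
    push Not at h10
    have h12 : 1 / η * (η * Real.log X) = Real.log X := by field_simp
    have h13 : 1 / η * (η * Real.log X) < e * Real.log (rd u) := by
      have h14 : 0 < η * Real.log X := by positivity
      have h9 : 1 / η < e := lt_of_le_of_lt hK hKe
      calc 1 / η * (η * Real.log X) < e * (η * Real.log X) := mul_lt_mul_of_pos_right h9 h14
        _ ≤ e * Real.log (rd u) := mul_le_mul_of_nonneg_left h10.le he0.le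
    linarith
  have rdq : rd (u * p ^ e) = rd u * p := by
    have := CasesV_rd (n := u * p ^ e) (v := 1) (by ring) hp he g1 (Nat.coprime_one_left p)
      (Nat.coprime_one_right u)
    rw [this]
    simp [Pool.MP_a95293_nt.RC.rd]
  refine ⟨u * p ^ e, p, e, u * v, ⟨v, hn'⟩, hXq, ?_, hp, ?_, ?_, ?_, ?_, ?_⟩
  · rw [hn']
    ring
  · exact_mod_cast hKe
  · rw [rdq]
    push_cast
    rw [Real.log_mul (by positivity) (by positivity)]
    linarith
  · rw [Pool.MP_a95293_nt.RC.rd_mul g3]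
    push_cast
    rw [Real.log_mul (by positivity) (by positivity)]
    linarith
  · rw [e2]
    linarith
  · have h3 : Real.log p ≤ Real.log X := by linarith
    have h4 := (Real.log_le_log_iff hp0 hX0).1 h3
    exact_mod_cast h4

/-- the energy move does not apply -/
private theorem CasesV_en {q r s : ℕ} {Y : ℝ} (hr : 0 < r) (hs : 0 < s) (hq : 0 < q)
    (hY : 0 < Y) (h : ¬ (q : ℝ) * Real.sqrt ((r : ℝ) * s) ≤ Y) :
    Real.log Y < Real.log q + (Real.log r + Real.log s) / 2 := by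
  push Not at h
  have hr0 : (0 : ℝ) < r := by exact_mod_cast hr
  have hs0 : (0 : ℝ) < s := by exact_mod_cast hs
  have hq0 : (0 : ℝ) < q := by exact_mod_cast hq
  have h2 := Real.log_lt_log hY h
  rwa [Real.log_mul (by positivity) (by positivity), Real.log_sqrt (by positivity),
    Real.log_mul (by positivity) (by positivity)] at h2

private theorem CasesV_j {q r s : ℕ} {Y : ℝ} (hr : 0 < r) (hs : 0 < s) (hq : 0 < q)
    (hY : 0 < Y) (h : ¬ (q : ℝ) * r * s ≤ Y) :
    Real.log Y < Real.log q + Real.log r + Real.log s := by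
  push Not at h
  have hr0 : (0 : ℝ) < r := by exact_mod_cast hr
  have hs0 : (0 : ℝ) < s := by exact_mod_cast hs
  have hq0 : (0 : ℝ) < q := by exact_mod_cast hq
  have h2 := Real.log_lt_log hY h
  rwa [Real.log_mul (by positivity) (by positivity), Real.log_mul (by positivity) (by positivity)]
    at h2

private theorem CasesV_c {q r : ℕ} {Y : ℝ} (hr : 0 < r) (hq : 0 < q)
    (hY : 0 < Y) (h : ¬ (q : ℝ) * r ≤ Y) : Real.log Y < Real.log q + Real.log r := by
  push Not at h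
  have hr0 : (0 : ℝ) < r := by exact_mod_cast hr
  have hq0 : (0 : ℝ) < q := by exact_mod_cast hq
  have h2 := Real.log_lt_log hY h
  rwa [Real.log_mul (by positivity) (by positivity)] at h2

theorem casesV (θ : ℝ) (h1 : 5 / 9 < θ) (e₀ : ℕ) (he₀ : 2 ≤ e₀) : ∃ M : ℕ,
    ∀ A : ℕ, ∃ E : ℕ,
    ∀ C : ℝ, 1 ≤ C → ∃ X₀ : ℕ, ∀ X : ℕ, X₀ ≤ X → ∀ z : ℕ × ℕ, Prm z → z.1 ≤ z.2 →
    rd (pr3 z) ≤ X → rd (pr3 z) ^ M ≤ z.1 + z.2 → z.1 + z.2 ≤ X ^ A →
    ((rd z.1 : ℝ) * rd z.2 ≤ (X : ℝ) ^ θ ∨ (rd z.1 : ℝ) * rd (z.1 + z.2) ≤ (X : ℝ) ^ θ ∨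
        (rd z.2 : ℝ) * rd (z.1 + z.2) ≤ (X : ℝ) ^ θ) ∨
    (∃ q : ℕ, 1 ≤ q ∧ q ∣ z.1 + z.2 ∧ C * (rd z.1 : ℝ) ^ 2 ≤ q ∧ C * (rd z.2 : ℝ) ^ 2 ≤ q ∧
        (rd q : ℝ) * Real.sqrt ((rd z.1 : ℝ) * rd z.2) ≤ (X : ℝ) ^ θ) ∨
    (∃ q : ℕ, 1 ≤ q ∧ q ∣ z.2 ∧ C * (rd z.1 : ℝ) ^ 2 ≤ q ∧ C * (rd (z.1 + z.2) : ℝ) ^ 2 ≤ q ∧
        (rd q : ℝ) * Real.sqrt ((rd z.1 : ℝ) * rd (z.1 + z.2)) ≤ (X : ℝ) ^ θ) ∨
    (∃ q : ℕ, 1 ≤ q ∧ q ∣ z.1 ∧ C * (rd z.2 : ℝ) ^ 2 ≤ q ∧ C * (rd (z.1 + z.2) : ℝ) ^ 2 ≤ q ∧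
        (rd q : ℝ) * Real.sqrt ((rd z.2 : ℝ) * rd (z.1 + z.2)) ≤ (X : ℝ) ^ θ) ∨
    (PJ1 X e₀ E ((X : ℝ) ^ θ) z ∨ PJ2 X e₀ E ((X : ℝ) ^ θ) z ∨ PJ3 X e₀ E ((X : ℝ) ^ θ) z) ∨
    (z.1 * X < z.1 + z.2 ∧ (PC1 X E ((X : ℝ) ^ θ) z ∨ PC2 X E ((X : ℝ) ^ θ) z)) := by
  set η : ℝ := min (θ - 5 / 9) (1 / 50) with hη
  have hη0 : 0 < η := lt_min (by linarith) (by norm_num)
  have hη1 : η ≤ θ - 5 / 9 := min_le_left _ _
  have hη2 : η ≤ 1 / 50 := min_le_right _ _
  set K : ℕ := max e₀ ⌈1 / η⌉₊ with hK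
  have hKe : e₀ ≤ K := le_max_left _ _
  have hKη : 1 / η ≤ K := (Nat.le_ceil _).trans (by exact_mod_cast le_max_right _ _)
  refine ⟨2 * K + 4, fun A => ⟨11 * A, fun C hC => ⟨⌈C ^ 9⌉₊ + 2, ?_⟩⟩⟩
  intro X hX z hz hab hR hRM hcA
  have hX2 : 2 ≤ X := by omega
  have hXC : C ^ 9 ≤ (X : ℝ) := by
    have h3 : (⌈C ^ 9⌉₊ : ℝ) ≤ X := by exact_mod_cast (by omega : ⌈C ^ 9⌉₊ ≤ X)
    exact (Nat.le_ceil _).trans h3
  have hX0 : (0 : ℝ) < X := by exact_mod_cast (by omega : 0 < X)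
  have hX1 : (1 : ℝ) < X := by exact_mod_cast (by omega : 1 < X)
  have hL0 : 0 < Real.log X := Real.log_pos hX1
  have hCL : 9 * Real.log C ≤ Real.log X := by
    have h3 := Real.log_le_log (by positivity) hXC
    rw [Real.log_pow] at h3
    push_cast at h3
    exact h3
  have hY0 : 0 < (X : ℝ) ^ θ := by positivity
  have hlY : Real.log ((X : ℝ) ^ θ) = θ * Real.log X := Real.log_rpow hX0 θ
  by_contra hcon
  push Not at hcon
  obtain ⟨⟨n12, n13, n23⟩, nF1, nF2, nF3, ⟨nJ1, nJ2, nJ3⟩, nC⟩ := hcon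
  set a := z.1 with ha
  set b := z.2 with hb
  have ha0 : 0 < a := hz.1
  have hb0 : 0 < b := hz.2.1
  have rap : 0 < rd a := Pool.MP_a95293_nt.RC.rd_pos a
  have rbp : 0 < rd b := Pool.MP_a95293_nt.RC.rd_pos b
  have rcp : 0 < rd (a + b) := Pool.MP_a95293_nt.RC.rd_pos (a + b)
  have ra : (0 : ℝ) < rd a := by exact_mod_cast rap
  have rb : (0 : ℝ) < rd b := by exact_mod_cast rbp
  have rc : (0 : ℝ) < rd (a + b) := by exact_mod_cast rcp
  have h12 := CasesV_c rbp rap hY0 (not_le.2 n12)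
  have h13 := CasesV_c rcp rap hY0 (not_le.2 n13)
  have h23 := CasesV_c rcp rbp hY0 (not_le.2 n23)
  rw [hlY] at h12 h13 h23
  set L := Real.log X with hL
  set la := Real.log (rd a) with hla
  set lb := Real.log (rd b) with hlb
  set lc := Real.log (rd (a + b)) with hlc
  have hpr : rd (pr3 z) = rd a * rd b * rd (a + b) := Pool.MP_a95293_nt.RC.rd_pr3 hz
  have hlpr : Real.log (rd (pr3 z)) = la + lb + lc := by
    rw [hpr]
    push_cast
    rw [Real.log_mul (by positivity) (by positivity), Real.log_mul (by positivity) (by positivity)]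
  have hprpos : (0 : ℝ) < rd (pr3 z) := by exact_mod_cast Pool.MP_a95293_nt.RC.rd_pos (pr3 z)
  have hs : la + lb + lc ≤ L := by
    rw [← hlpr]
    exact Real.log_le_log hprpos (by exact_mod_cast hR)
  set t := θ * L with ht
  have htL : 5 / 9 * L < t := mul_lt_mul_of_pos_right h1 hL0
  have htη : (5 / 9 + η) * L ≤ t := mul_le_mul_of_nonneg_right (by linarith) hL0.le
  have hηL0 : 0 < η * L := by positivity
  have hηL : η * L ≤ 1 / 50 * L := mul_le_mul_of_nonneg_right hη2 hL0.le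
  have ua : la < L - t := by linarith
  have ub : lb < L - t := by linarith
  have uc : lc < L - t := by linarith
  set c := a + b with hc
  have hc0 : (0 : ℝ) < c := by exact_mod_cast (by omega : 0 < c)
  have hb0r : (0 : ℝ) < b := by exact_mod_cast hb0
  have ha0r : (0 : ℝ) < a := by exact_mod_cast ha0
  have hlogc : ((2 * K + 4 : ℕ) : ℝ) * (la + lb + lc) ≤ Real.log c := by
    rw [← hlpr, ← Real.log_pow]
    exact Real.log_le_log (by positivity) (by exact_mod_cast hRM)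
  have hsum : 5 / 6 * L ≤ la + lb + lc := by linarith
  have hK0 : (0 : ℝ) ≤ K := Nat.cast_nonneg K
  have hcL : ((K : ℝ) + 2) * L ≤ Real.log c := by
    refine le_trans ?_ hlogc
    push_cast
    nlinarith
  have hlog2 : Real.log 2 ≤ L := Real.log_le_log (by norm_num) (by exact_mod_cast hX2)
  have hlogb : Real.log c - L ≤ Real.log b := by
    have h3 : Real.log c - Real.log 2 ≤ Real.log b := by
      rw [← Real.log_div hc0.ne' (by norm_num)]
      apply Real.log_le_log (by positivity)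
      rw [div_le_iff₀ (by norm_num)]
      have h3 : c ≤ b * 2 := by omega
      exact_mod_cast h3
    linarith
  have hcAL : Real.log c ≤ A * L := by
    rw [hL, ← Real.log_pow]
    exact Real.log_le_log hc0 (by exact_mod_cast hcA)
  have hbAL : Real.log b ≤ A * L :=
    (Real.log_le_log hb0r (by exact_mod_cast (by omega : b ≤ c))).trans hcAL
  have haAL : Real.log a ≤ A * L :=
    (Real.log_le_log ha0r (by exact_mod_cast (by omega : a ≤ c))).trans hcAL
  have hge : ∀ n : ℕ, 0 < n → ((K : ℝ) + 1) * L ≤ Real.log n → X ≤ n := by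
    intro n hn h3
    have h4 : Real.log X ≤ Real.log n := by nlinarith
    have h5 := (Real.log_le_log_iff hX0 (by exact_mod_cast hn)).1 h4
    exact_mod_cast h5
  -- the square condition
  have sq : ∀ (r q : ℕ), 0 < r → Real.log r < L - t → X ≤ q → C * (r : ℝ) ^ 2 ≤ q := by
    intro r q hr h3 h4
    have hr0 : (0 : ℝ) < r := by exact_mod_cast hr
    have hC0 : 0 < C := by linarith
    have h5 : Real.log (C * (r : ℝ) ^ 2) ≤ L := by
      rw [Real.log_mul hC0.ne' (by positivity), Real.log_pow]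
      push_cast
      linarith
    have h6 : C * (r : ℝ) ^ 2 ≤ X := (Real.log_le_log_iff (by positivity) hX0).1 h5
    have h7 : (X : ℝ) ≤ q := by exact_mod_cast h4
    linarith
  -- exponents bounded
  have bound : ∀ (e : ℕ) (l : ℝ), 1 / 11 * L < l → e * l ≤ A * L → e ≤ 11 * A := by
    intro e l h3 h4
    have he0 : (0 : ℝ) ≤ e := Nat.cast_nonneg e
    have h5 : (e : ℝ) * (1 / 11 * L) ≤ A * L :=
      (mul_le_mul_of_nonneg_left h3.le he0).trans h4
    have h6 : (e : ℝ) * (1 / 11) ≤ A := by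
      by_contra h7
      push Not at h7
      have := mul_lt_mul_of_pos_right h7 hL0
      linarith
    have h7 : (e : ℝ) ≤ ((11 * A : ℕ) : ℝ) := by
      push_cast
      linarith
    exact_mod_cast h7
  have hKL : 0 ≤ (K : ℝ) * L := by positivity
  -- the sides `c` and `b`
  have hc1 : ((K : ℝ) + 1) * L ≤ Real.log c := by linarith
  have hb1 : ((K : ℝ) + 1) * L ≤ Real.log b := by linarith
  obtain ⟨q, p, e, D, hq, hXq, hn, hp, he, hlq, hlD, hep, hpX⟩ :=
    CasesV_side hX2 hη0 hKη (hge c (by omega) hc1) hc1 (by linarith)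
  obtain ⟨q', p', e', B, hq', hXq', hn', hp', he', hlq', hlB, hep', hpX'⟩ :=
    CasesV_side hX2 hη0 hKη (hge b hb0 hb1) hb1 (by linarith)
  rw [← hL] at hlq hlq'
  rw [← hlc] at hlD
  rw [← hlb] at hlB
  have k1 : t < Real.log p + η * L + (la + lb) / 2 := by
    have h3 := CasesV_en rap rbp (Pool.MP_a95293_nt.RC.rd_pos q) hY0
      (not_le.2 (nF1 q (by omega) hq (sq _ _ rap ua hXq) (sq _ _ rbp ub hXq)))
    rw [hlY] at h3
    linarith
  have k2 : t < Real.log p' + η * L + (la + lc) / 2 := by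
    have h3 := CasesV_en rap rcp (Pool.MP_a95293_nt.RC.rd_pos q') hY0
      (not_le.2 (nF2 q' (by omega) hq' (sq _ _ rap ua hXq') (sq _ _ rcp uc hXq')))
    rw [hlY] at h3
    linarith
  have be := bound e (Real.log p) (by linarith) (by linarith)
  have be' := bound e' (Real.log p') (by linarith) (by linarith)
  have rDp : 0 < rd D := Pool.MP_a95293_nt.RC.rd_pos D
  have rBp : 0 < rd B := Pool.MP_a95293_nt.RC.rd_pos B
  have j1 : t < la + (lb - Real.log p') + (lc - Real.log p) := by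
    have h3 : ¬ (rd a : ℝ) * rd B * rd D ≤ (X : ℝ) ^ θ := fun h4 => nJ1
      ⟨e', e, B, D, p', p, ⟨by omega, be'⟩, ⟨by omega, be⟩, ⟨hp', hpX'⟩, ⟨hp, hpX⟩, hn', hn, h4⟩
    have h4 := CasesV_j rBp rDp rap hY0 h3
    rw [hlY] at h4
    linarith
  by_cases hreg : a * X < c
  · obtain ⟨nC1, nC2⟩ := nC hreg
    have j2 : t < lb + (lc - Real.log p) := by
      have h3 : ¬ (rd b : ℝ) * rd D ≤ (X : ℝ) ^ θ := fun h4 => nC1
        ⟨e, D, p, ⟨by omega, be⟩, hpX, hn, h4⟩
      have h4 := CasesV_c rDp rbp hY0 h3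
      rw [hlY] at h4
      linarith
    have j3 : t < lc + (lb - Real.log p') := by
      have h3 : ¬ (rd c : ℝ) * rd B ≤ (X : ℝ) ^ θ := fun h4 => nC2
        ⟨e', B, p', ⟨by omega, be'⟩, hpX', hn', h4⟩
      have h4 := CasesV_c rBp rcp hY0 h3
      rw [hlY] at h4
      linarith
    linarith
  · push Not at hreg
    have hloga : Real.log c - L ≤ Real.log a := by
      have h3 : Real.log c ≤ Real.log ((a : ℝ) * X) :=
        Real.log_le_log hc0 (by exact_mod_cast hreg)
      rw [Real.log_mul ha0r.ne' hX0.ne'] at h3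
      linarith
    have ha1 : ((K : ℝ) + 1) * L ≤ Real.log a := by linarith
    obtain ⟨q'', p'', e'', F, hq'', hXq'', hn'', hp'', he'', hlq'', hlF, hep'', hpX''⟩ :=
      CasesV_side hX2 hη0 hKη (hge a ha0 ha1) ha1 (by linarith)
    rw [← hL] at hlq''
    rw [← hla] at hlF
    have k3 : t < Real.log p'' + η * L + (lb + lc) / 2 := by
      have h3 := CasesV_en rbp rcp (Pool.MP_a95293_nt.RC.rd_pos q'') hY0
        (not_le.2 (nF3 q'' (by omega) hq'' (sq _ _ rbp ub hXq'') (sq _ _ rcp uc hXq'')))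
      rw [hlY] at h3
      linarith
    have be'' := bound e'' (Real.log p'') (by linarith) (by linarith)
    have rFp : 0 < rd F := Pool.MP_a95293_nt.RC.rd_pos F
    have j2 : t < lb + (la - Real.log p'') + (lc - Real.log p) := by
      have h3 : ¬ (rd b : ℝ) * rd F * rd D ≤ (X : ℝ) ^ θ := fun h4 => nJ2
        ⟨e'', e, F, D, p'', p, ⟨by omega, be''⟩, ⟨by omega, be⟩, ⟨hp'', hpX''⟩, ⟨hp, hpX⟩, hn'',
          hn, h4⟩
      have h4 := CasesV_j rFp rDp rbp hY0 h3
      rw [hlY] at h4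
      linarith
    have j3 : t < lc + (la - Real.log p'') + (lb - Real.log p') := by
      have h3 : ¬ (rd c : ℝ) * rd F * rd B ≤ (X : ℝ) ^ θ := fun h4 => nJ3
        ⟨e'', e', F, B, p'', p', ⟨by omega, be''⟩, ⟨by omega, be'⟩, ⟨hp'', hpX''⟩, ⟨hp', hpX'⟩,
          hn'', hn', h4⟩
      have h4 := CasesV_j rFp rBp rcp hY0 h3
      rw [hlY] at h4
      linarith
    linarith

end Pool.MP_a95293_nt.PS
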