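import Pool.Agent.Lib_MP_a95293_rc.Rad

/-!
# MP_a95293_nt (n = 3): power saving for the number of triples violating a large exponent. Definitions

Theorem U: for every `θ > 12/19` there is `M` such that for every `A` the number of coprime triples
`a + b = c` with `rad (a b c) ≤ X` and `rad (a b c) ^ M ≤ c ≤ X ^ A` is `O (X ^ θ)`.
-/

set_option autoImplicit false

namespace Pool.MP_a95293_nt.PS

open Finset
open Pool.MP_a95293_nt.RC (rd Prm pr3)

/-- number of `k`-th roots of one modulo `q` -/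
noncomputable def nu (q k : ℕ) : ℕ := Nat.card {u : (ZMod q)ˣ // u ^ k = 1}

/-- the numbers `1, …, H` prime to `q` -/
def QQ (q H : ℕ) : Finset ℕ := (Icc 1 H).filter fun n => n.Coprime q

/-- the numbers up to `N`, prime to `q`, of radical at most `Y` -/
def SS (q Y N : ℕ) : Finset ℕ := (Icc 1 N).filter fun n => n.Coprime q ∧ rd n ≤ Y

/-- solutions of `(x₁ ⋯ x_p)^k ≡ (y₁ ⋯ y_p)^k` modulo `q` in the box `[1, H]` -/
def TT (q k p H : ℕ) : ℕ :=
  (((Fintype.piFinset fun _ : Fin p => QQ q H) ×ˢ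
    (Fintype.piFinset fun _ : Fin p => QQ q H)).filter fun z =>
      (∏ j, z.1 j) ^ k ≡ (∏ j, z.2 j) ^ k [MOD q]).card

/-- solutions of `∏ x_i^(i+1) ≡ ∏ y_i^(i+1)` modulo `q`, `x_i, y_i ≤ H_i` -/
def EE (q K : ℕ) (H : Fin K → ℕ) : ℕ :=
  (((Fintype.piFinset fun i => QQ q (H i)) ×ˢ (Fintype.piFinset fun i => QQ q (H i))).filter
    fun z => ∏ i, z.1 i ^ (i.val + 1) ≡ ∏ i, z.2 i ^ (i.val + 1) [MOD q]).card

/-- pairs in `SS q Y N` congruent modulo `q` -/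
def PP (q Y N : ℕ) : ℕ :=
  ((SS q Y N ×ˢ SS q Y N).filter fun z => z.1 ≡ z.2 [MOD q]).card

theorem mem_QQ {q H n : ℕ} : n ∈ QQ q H ↔ (1 ≤ n ∧ n ≤ H) ∧ n.Coprime q := by
  unfold QQ
  rw [mem_filter, mem_Icc]

theorem mem_SS {q Y N n : ℕ} : n ∈ SS q Y N ↔ (1 ≤ n ∧ n ≤ N) ∧ n.Coprime q ∧ rd n ≤ Y := by
  unfold SS
  rw [mem_filter, mem_Icc]

end Pool.MP_a95293_nt.PS
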