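import Pool.Agent.Lib_MP_a95293_ps.Defs

/-!
# Piece HOL: orthogonality of characters and the inequality of Hoelder

PROOF.  Characters `χ : DirichletCharacter ℂ q`, `S i χ = ∑_(x ∈ QQ q (H i)) χ x ^ (i + 1)`.
(1) Orthogonality (`DirichletCharacter.sum_char_inv_mul_char_eq`, `χ (a⁻¹) = conj (χ a)` for units since `‖χ a‖ = 1`):
for units `a, b` of `ZMod q`: `∑_χ χ a * conj (χ b) = φ(q)` if `a = b` and `0` otherwise.  Expanding the products
(`Finset.prod_univ_sum`):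
`∑_χ ∏_i ‖S i χ‖ ^ 2 = φ(q) * EE q K H`, and `∑_χ ‖S i χ‖ ^ (2 p) = φ(q) * TT q (i + 1) p (H i)`
(`(∑ χ x ^ k) ^ p = ∑_(x ∈ piFinset) (χ (∏ x_j)) ^ k`, `Finset.sum_pow'` / `Finset.prod_univ_sum`).
(2) Hoelder: weights `w = 1 / φ(q)` on the characters (total weight `1`: there are `φ(q)` characters, this is (1) with
`K = 0`), nonnegative reals `a i χ = ‖S i χ‖ ^ 2`, integers `p i ≥ 1` with `∑ 1 / p i ≤ 1`:
`∑_χ w ∏_i a i χ ≤ ∏_i (∑_χ w (a i χ) ^ (p i)) ^ (1 / p i)`.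
Proof of (2): `A i = ∑_χ w (a i χ) ^ (p i)`.  If some `A i = 0` then all `a i χ = 0` and both sides are `0`.  Otherwise, by the
weighted AM-GM inequality (`Real.inner_le_nnorm_mul_nnorm` is not needed; use `Real.geom_mean_le_arith_mean_weighted`) with weights
`1 / p i` and `1 - ∑ 1 / p i` (for the extra entry `1`):
`∏_i (a i χ / (A i) ^ (1 / p i)) ≤ ∑_i (1 / p i) (a i χ) ^ (p i) / A i + (1 - ∑ 1 / p i)`; summing over `χ` with weights `w`
the right side becomes `1`.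
-/

set_option autoImplicit false

namespace Pool.MP_a95293_nt.PS

open Finset

open scoped ComplexConjugate

private lemma Hol_conj {q : ℕ} (χ : DirichletCharacter ℂ q) {a : ZMod q} (ha : IsUnit a) :
    conj (χ a) = χ a⁻¹ := by
  have h1 : conj (χ a) = χ⁻¹ a := MulChar.star_apply' χ a
  have h2 : χ⁻¹ a = (χ a)⁻¹ := MulChar.inv_apply_eq_inv' χ a
  have h3 : χ a * χ a⁻¹ = 1 := by
    rw [← map_mul, ZMod.mul_inv_of_unit a ha, map_one]
  rw [h1, h2]
  exact inv_eq_of_mul_eq_one_right h3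

/-- orthogonality -/
private lemma Hol_orth {q : ℕ} [NeZero q] {α : Type*} [DecidableEq α] (Z : Finset α) (g : α → ℕ)
    (hg : ∀ z ∈ Z, (g z).Coprime q) :
    ∑ χ : DirichletCharacter ℂ q, ‖∑ z ∈ Z, χ ((g z : ℕ) : ZMod q)‖ ^ 2 =
      (q.totient : ℝ) * (((Z ×ˢ Z).filter fun z => g z.1 ≡ g z.2 [MOD q]).card : ℝ) := by
  have h1 : ∀ χ : DirichletCharacter ℂ q, ((‖∑ z ∈ Z, χ ((g z : ℕ) : ZMod q)‖ ^ 2 : ℝ) : ℂ) =
      ∑ z ∈ Z, ∑ z' ∈ Z, χ ((g z : ℕ) : ZMod q)⁻¹ * χ ((g z' : ℕ) : ZMod q) := by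
    intro χ
    rw [← Finset.sum_mul_sum]
    have h2 : ∑ z ∈ Z, χ ((g z : ℕ) : ZMod q)⁻¹ = conj (∑ z ∈ Z, χ ((g z : ℕ) : ZMod q)) := by
      rw [map_sum]
      apply Finset.sum_congr rfl
      intro z hz
      rw [Hol_conj χ ((ZMod.isUnit_iff_coprime _ _).2 (hg z hz))]
    rw [h2, Complex.conj_mul']
    push_cast
    rfl
  have h3 : ((∑ χ : DirichletCharacter ℂ q, ‖∑ z ∈ Z, χ ((g z : ℕ) : ZMod q)‖ ^ 2 : ℝ) : ℂ) =
      (((q.totient : ℝ) * (((Z ×ˢ Z).filter fun z => g z.1 ≡ g z.2 [MOD q]).card : ℝ) : ℝ) : ℂ) := by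
    rw [Complex.ofReal_sum, Finset.sum_congr rfl (fun χ _ => h1 χ), Finset.sum_comm]
    have h4 : ∀ z ∈ Z, ∑ χ : DirichletCharacter ℂ q, ∑ z' ∈ Z, χ ((g z : ℕ) : ZMod q)⁻¹ * χ ((g z' : ℕ) : ZMod q) =
        ∑ z' ∈ Z, if g z ≡ g z' [MOD q] then (q.totient : ℂ) else 0 := by
      intro z hz
      rw [Finset.sum_comm]
      apply Finset.sum_congr rfl
      intro z' _
      rw [DirichletCharacter.sum_char_inv_mul_char_eq ℂ ((ZMod.isUnit_iff_coprime _ _).2 (hg z hz))]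
      simp only [ZMod.natCast_eq_natCast_iff]
    rw [Finset.sum_congr rfl h4, ← Finset.sum_product', Finset.sum_ite, Finset.sum_const_zero, add_zero,
      Finset.sum_const, nsmul_eq_mul]
    push_cast
    ring
  exact_mod_cast h3

/-- the inequality of Hoelder for several functions -/
private lemma Hol_holder {ι : Type*} (s : Finset ι) (w : ι → ℝ) (hw : ∀ x ∈ s, 0 ≤ w x) (hw1 : ∑ x ∈ s, w x = 1)
    {K : ℕ} (a : Fin K → ι → ℝ) (ha : ∀ i x, 0 ≤ a i x) (p : Fin K → ℕ) (hp : ∀ i, 1 ≤ p i)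
    (hs : ∑ i, (1 : ℝ) / (p i : ℝ) ≤ 1) :
    ∑ x ∈ s, w x * ∏ i, a i x ≤ ∏ i, (∑ x ∈ s, w x * a i x ^ p i) ^ ((1 : ℝ) / (p i : ℝ)) := by
  have hA : ∀ i, 0 ≤ ∑ x ∈ s, w x * a i x ^ p i := fun i =>
    Finset.sum_nonneg fun x hx => mul_nonneg (hw x hx) (pow_nonneg (ha i x) _)
  have hR : 0 ≤ ∏ i, (∑ x ∈ s, w x * a i x ^ p i) ^ ((1 : ℝ) / (p i : ℝ)) :=
    Finset.prod_nonneg fun i _ => Real.rpow_nonneg (hA i) _
  by_cases h0 : ∃ i, ∑ x ∈ s, w x * a i x ^ p i = 0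
  · obtain ⟨i, hi⟩ := h0
    rw [Finset.sum_eq_zero_iff_of_nonneg fun x hx => mul_nonneg (hw x hx) (pow_nonneg (ha i x) _)] at hi
    have : ∑ x ∈ s, w x * ∏ i, a i x = 0 := by
      apply Finset.sum_eq_zero
      intro x hx
      rcases mul_eq_zero.1 (hi x hx) with h | h
      · rw [h, zero_mul]
      · have h' : a i x = 0 := pow_eq_zero_iff (by have := hp i; omega) |>.1 h
        rw [Finset.prod_eq_zero (Finset.mem_univ i) h', mul_zero]
    rw [this]
    exact hR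
  · push Not at h0
    have hpos : ∀ i, 0 < ∑ x ∈ s, w x * a i x ^ p i := fun i => lt_of_le_of_ne (hA i) (h0 i).symm
    set A : Fin K → ℝ := fun i => ∑ x ∈ s, w x * a i x ^ p i with hAd
    set B : Fin K → ℝ := fun i => A i ^ ((1 : ℝ) / (p i : ℝ)) with hBd
    have hB : ∀ i, 0 < B i := fun i => Real.rpow_pos_of_pos (hpos i) _
    have key : ∀ x, ∏ i, (a i x / B i) ≤ ∑ i, (1 : ℝ) / (p i : ℝ) * (a i x ^ p i / A i) + (1 - ∑ i, (1 : ℝ) / (p i : ℝ)) := by
      intro x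
      have h := Real.geom_mean_le_arith_mean_weighted (s := (Finset.univ : Finset (Option (Fin K))))
        (fun o => o.elim (1 - ∑ i, (1 : ℝ) / (p i : ℝ)) (fun i => (1 : ℝ) / (p i : ℝ)))
        (fun o => o.elim 1 (fun i => a i x ^ p i / A i))
        (by
          intro o _
          cases o with
          | none => exact sub_nonneg.2 hs
          | some i => exact div_nonneg zero_le_one (Nat.cast_nonneg _))
        (by
          rw [Fintype.sum_option]
          simp only [Option.elim]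
          ring)
        (by
          intro o _
          cases o with
          | none => exact zero_le_one
          | some i => exact div_nonneg (pow_nonneg (ha i x) _) (hA i))
      rw [Fintype.sum_option, Fintype.prod_option] at h
      simp only [Option.elim, Real.one_rpow, one_mul, mul_one] at h
      rw [add_comm]
      refine le_trans (le_of_eq ?_) h
      apply Finset.prod_congr rfl
      intro i _
      have hp0 : p i ≠ 0 := by have := hp i; omega
      rw [Real.div_rpow (pow_nonneg (ha i x) _) (hA i)]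
      congr 1
      rw [one_div, Real.pow_rpow_inv_natCast (ha i x) hp0]
    have h1 : ∑ x ∈ s, w x * ∏ i, (a i x / B i) ≤ 1 := by
      calc ∑ x ∈ s, w x * ∏ i, (a i x / B i)
          ≤ ∑ x ∈ s, w x * (∑ i, (1 : ℝ) / (p i : ℝ) * (a i x ^ p i / A i) + (1 - ∑ i, (1 : ℝ) / (p i : ℝ))) :=
            Finset.sum_le_sum fun x hx => mul_le_mul_of_nonneg_left (key x) (hw x hx)
        _ = ∑ i, (1 : ℝ) / (p i : ℝ) * ((∑ x ∈ s, w x * a i x ^ p i) / A i) +
            (∑ x ∈ s, w x) * (1 - ∑ i, (1 : ℝ) / (p i : ℝ)) := by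
            simp only [mul_add, Finset.sum_add_distrib]
            congr 1
            · simp only [Finset.mul_sum, Finset.sum_div]
              rw [Finset.sum_comm]
              apply Finset.sum_congr rfl
              intro i _
              apply Finset.sum_congr rfl
              intro x _
              ring
            · rw [Finset.sum_mul]
        _ = 1 := by
            rw [hw1, one_mul]
            have h2 : ∀ i, (1 : ℝ) / (p i : ℝ) * ((∑ x ∈ s, w x * a i x ^ p i) / A i) = (1 : ℝ) / (p i : ℝ) := by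
              intro i
              rw [div_self (hpos i).ne', mul_one]
            rw [Finset.sum_congr rfl fun i _ => h2 i]
            ring
    have h3 : ∑ x ∈ s, w x * ∏ i, a i x = (∑ x ∈ s, w x * ∏ i, (a i x / B i)) * ∏ i, B i := by
      rw [Finset.sum_mul]
      apply Finset.sum_congr rfl
      intro x _
      rw [Finset.prod_div_distrib, mul_assoc, div_mul_cancel₀ _ (Finset.prod_pos fun i _ => hB i).ne']
    rw [h3]
    calc (∑ x ∈ s, w x * ∏ i, (a i x / B i)) * ∏ i, B i ≤ 1 * ∏ i, B i :=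
          mul_le_mul_of_nonneg_right h1 (Finset.prod_nonneg fun i _ => (hB i).le)
      _ = _ := one_mul _

private lemma Hol_EE (q K : ℕ) [NeZero q] (H : Fin K → ℕ) :
    ∑ χ : DirichletCharacter ℂ q, ∏ i, ‖∑ x ∈ QQ q (H i), χ ((x : ℕ) : ZMod q) ^ (i.val + 1)‖ ^ 2 =
      (q.totient : ℝ) * (EE q K H : ℝ) := by
  classical
  have h := Hol_orth (q := q) (Fintype.piFinset fun i => QQ q (H i)) (fun z => ∏ i, z i ^ (i.val + 1)) (by
    intro z hz
    rw [Fintype.mem_piFinset] at hz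
    apply Nat.Coprime.prod_left
    intro i _
    exact Nat.Coprime.pow_left _ (mem_QQ.1 (hz i)).2)
  unfold EE
  rw [← h]
  apply Finset.sum_congr rfl
  intro χ _
  rw [Finset.prod_pow, ← norm_prod, Finset.prod_univ_sum]
  congr 2
  apply Finset.sum_congr rfl
  intro z _
  push_cast
  rw [map_prod]
  apply Finset.prod_congr rfl
  intro i _
  rw [map_pow]

private lemma Hol_TT (q k p H : ℕ) [NeZero q] :
    ∑ χ : DirichletCharacter ℂ q, (‖∑ x ∈ QQ q H, χ ((x : ℕ) : ZMod q) ^ k‖ ^ 2) ^ p =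
      (q.totient : ℝ) * (TT q k p H : ℝ) := by
  classical
  have h := Hol_orth (q := q) (Fintype.piFinset fun _ : Fin p => QQ q H) (fun z => (∏ j, z j) ^ k) (by
    intro z hz
    rw [Fintype.mem_piFinset] at hz
    apply Nat.Coprime.pow_left
    apply Nat.Coprime.prod_left
    intro i _
    exact (mem_QQ.1 (hz i)).2)
  unfold TT
  rw [← h]
  apply Finset.sum_congr rfl
  intro χ _
  rw [← pow_mul, mul_comm 2 p, pow_mul, ← norm_pow]
  congr 2
  have h1 : (∑ x ∈ QQ q H, χ ((x : ℕ) : ZMod q) ^ k) ^ p =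
      ∏ _j : Fin p, ∑ x ∈ QQ q H, χ ((x : ℕ) : ZMod q) ^ k := by
    rw [Finset.prod_const, Finset.card_univ, Fintype.card_fin]
  rw [h1, Finset.prod_univ_sum]
  apply Finset.sum_congr rfl
  intro z _
  push_cast
  rw [map_pow, map_prod, Finset.prod_pow]

theorem EE_le (q K : ℕ) (hq : 0 < q) (H : Fin K → ℕ) (p : Fin K → ℕ) (hp : ∀ i, 1 ≤ p i)
    (hs : ∑ i, (1 : ℝ) / (p i : ℝ) ≤ 1) :
    (EE q K H : ℝ) ≤ ∏ i, (TT q (i.val + 1) (p i) (H i) : ℝ) ^ ((1 : ℝ) / (p i : ℝ)) := by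
  have : NeZero q := ⟨hq.ne'⟩
  have hphi : (0 : ℝ) < (q.totient : ℝ) := by exact_mod_cast Nat.totient_pos.2 hq
  have hcard : ∑ _χ : DirichletCharacter ℂ q, ((q.totient : ℝ))⁻¹ = 1 := by
    rw [Finset.sum_const, nsmul_eq_mul, Finset.card_univ, ← Nat.card_eq_fintype_card,
      DirichletCharacter.card_eq_totient_of_hasEnoughRootsOfUnity ℂ q]
    exact mul_inv_cancel₀ hphi.ne'
  have h := Hol_holder (Finset.univ : Finset (DirichletCharacter ℂ q)) (fun _ => ((q.totient : ℝ))⁻¹)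
    (fun _ _ => (inv_pos.2 hphi).le) hcard
    (fun (i : Fin K) χ => ‖∑ x ∈ QQ q (H i), χ ((x : ℕ) : ZMod q) ^ (i.val + 1)‖ ^ 2)
    (fun i χ => by positivity) p hp hs
  have h1 : ∑ χ : DirichletCharacter ℂ q, ((q.totient : ℝ))⁻¹ *
      ∏ i, ‖∑ x ∈ QQ q (H i), χ ((x : ℕ) : ZMod q) ^ (i.val + 1)‖ ^ 2 = (EE q K H : ℝ) := by
    rw [← Finset.mul_sum, Hol_EE, ← mul_assoc, inv_mul_cancel₀ hphi.ne', one_mul]
  have h2 : ∀ i : Fin K, ∑ χ : DirichletCharacter ℂ q, ((q.totient : ℝ))⁻¹ *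
      (‖∑ x ∈ QQ q (H i), χ ((x : ℕ) : ZMod q) ^ (i.val + 1)‖ ^ 2) ^ p i = (TT q (i.val + 1) (p i) (H i) : ℝ) := by
    intro i
    rw [← Finset.mul_sum, Hol_TT, ← mul_assoc, inv_mul_cancel₀ hphi.ne', one_mul]
  rw [← h1]
  refine le_trans h (le_of_eq ?_)
  apply Finset.prod_congr rfl
  intro i _
  rw [h2 i]

end Pool.MP_a95293_nt.PS
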