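import Pool.Agent.Lib_MP_a95293_ps.Defs

/-!
# Piece ONE: energy of one variable

PROOF of `TT_le`.  There are at most `H ^ p` choices of `y`; `v = ∏ y_j` is a unit modulo `q`.  For a solution the unit
`u = ∏ x_j` satisfies `(u / v) ^ k = 1`: at most `nu q k` classes for `u`, and `1 ≤ ∏ x_j ≤ H ^ p ≤ q`, so the integer
`n = ∏ x_j` is determined by its class (`n = n'` if `n ≡ n' [MOD q]` and `1 ≤ n, n' ≤ q`).  Given `n`, every `x_j` is a divisor of `n`:
at most `D ^ p` choices.
-/

set_option autoImplicit false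

namespace Pool.MP_a95293_nt.PS

open Finset

theorem QQ_card (q H : ℕ) : (QQ q H).card ≤ H := by
  unfold QQ
  refine (card_filter_le _ _).trans ?_
  rw [Nat.card_Icc]
  omega

theorem nu_eq (q k : ℕ) [NeZero q] :
    nu q k = (univ.filter fun u : (ZMod q)ˣ => u ^ k = 1).card := by
  unfold nu
  rw [Nat.card_eq_fintype_card, Fintype.card_subtype]

private theorem One_cop {q p H : ℕ} {y : Fin p → ℕ}
    (hy : y ∈ Fintype.piFinset fun _ : Fin p => QQ q H) : (∏ j, y j).Coprime q := by
  apply Nat.Coprime.prod_left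
  intro j _
  exact (mem_QQ.1 (Fintype.mem_piFinset.1 hy j)).2

private theorem One_pos {q p H : ℕ} {y : Fin p → ℕ}
    (hy : y ∈ Fintype.piFinset fun _ : Fin p => QQ q H) : 1 ≤ ∏ j, y j := by
  apply Nat.one_le_iff_ne_zero.2
  rw [Finset.prod_ne_zero_iff]
  intro j _
  have := (mem_QQ.1 (Fintype.mem_piFinset.1 hy j)).1.1
  omega

private theorem One_le {q p H : ℕ} {y : Fin p → ℕ}
    (hy : y ∈ Fintype.piFinset fun _ : Fin p => QQ q H) : ∏ j, y j ≤ H ^ p := by
  calc ∏ j, y j ≤ ∏ _j : Fin p, H :=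
        Finset.prod_le_prod' fun j _ => (mem_QQ.1 (Fintype.mem_piFinset.1 hy j)).1.2
    _ = H ^ p := by simp

/-- at most `nu q k` integers `n ≤ q` satisfy `n ^ k ≡ v ^ k` -/
theorem roots_card (q k v : ℕ) (hq : 0 < q) (hv : v.Coprime q) (I : Finset ℕ)
    (hI : ∀ n ∈ I, 1 ≤ n ∧ n ≤ q ∧ n.Coprime q ∧ n ^ k ≡ v ^ k [MOD q]) : I.card ≤ nu q k := by
  classical
  haveI : NeZero q := ⟨hq.ne'⟩
  rw [nu_eq]
  refine card_le_card_of_injOn (fun n => if h : n.Coprime q then
    ZMod.unitOfCoprime n h * (ZMod.unitOfCoprime v hv)⁻¹ else 1) ?_ ?_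
  · intro n hn
    obtain ⟨_, _, h3, h4⟩ := hI n hn
    rw [mem_coe, mem_filter]
    refine ⟨mem_univ _, ?_⟩
    simp only [dif_pos h3]
    rw [mul_pow, inv_pow, mul_inv_eq_one]
    apply Units.ext
    rw [Units.val_pow_eq_pow_val, Units.val_pow_eq_pow_val, ZMod.coe_unitOfCoprime,
      ZMod.coe_unitOfCoprime]
    have h5 := (ZMod.natCast_eq_natCast_iff _ _ _).2 h4
    push_cast at h5
    exact h5
  · intro n hn n' hn' h
    obtain ⟨a1, a2, a3, _⟩ := hI n hn
    obtain ⟨b1, b2, b3, _⟩ := hI n' hn'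
    simp only [dif_pos a3, dif_pos b3] at h
    have h1 := mul_right_cancel h
    have h2 := congrArg (fun u : (ZMod q)ˣ => (u : ZMod q)) h1
    simp only [ZMod.coe_unitOfCoprime] at h2
    have h3 := (ZMod.natCast_eq_natCast_iff _ _ _).1 h2
    rcases Nat.lt_or_ge n n' with h4 | h4
    · have h5 := (Nat.modEq_iff_dvd' h4.le).1 h3
      have h6 := Nat.le_of_dvd (by omega) h5
      omega
    · rcases h4.eq_or_lt with h5 | h5
      · exact h5.symm
      · have h6 := (Nat.modEq_iff_dvd' h5.le).1 h3.symm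
        have h7 := Nat.le_of_dvd (by omega) h6
        omega

theorem TT_le (q k p H D : ℕ) (hq : 0 < q) (hk : 0 < k) (hH : H ^ p ≤ q)
    (hD : ∀ n, 1 ≤ n → n ≤ q → n.divisors.card ≤ D) :
    TT q k p H ≤ H ^ p * (nu q k * D ^ p) := by
  classical
  unfold TT
  set W := Fintype.piFinset fun _ : Fin p => QQ q H with hW
  have hWc : W.card ≤ H ^ p := by
    rw [hW, Fintype.card_piFinset]
    calc ∏ _j : Fin p, (QQ q H).card ≤ ∏ _j : Fin p, H :=
          Finset.prod_le_prod' fun _ _ => QQ_card q H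
      _ = H ^ p := by simp
  rw [card_filter, sum_product_right]
  calc ∑ y ∈ W, ∑ x ∈ W, (if (∏ j, x j) ^ k ≡ (∏ j, y j) ^ k [MOD q] then 1 else 0)
      ≤ ∑ _y ∈ W, nu q k * D ^ p := by
        refine sum_le_sum fun y hy => ?_
        rw [← card_filter]
        set Xy := W.filter fun x => (∏ j, x j) ^ k ≡ (∏ j, y j) ^ k [MOD q] with hXy
        have hmem : ∀ x ∈ Xy, x ∈ W ∧ (∏ j, x j) ^ k ≡ (∏ j, y j) ^ k [MOD q] := fun x hx => by
          rw [hXy, mem_filter] at hx
          exact hx
        have h1 : (Xy.image fun x => ∏ j, x j).card ≤ nu q k := by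
          apply roots_card q k (∏ j, y j) hq (One_cop hy)
          intro n hn
          obtain ⟨x, hx, rfl⟩ := mem_image.1 hn
          obtain ⟨hx1, hx2⟩ := hmem x hx
          exact ⟨One_pos hx1, (One_le hx1).trans hH, One_cop hx1, hx2⟩
        have h2 : ∀ n ∈ Xy.image fun x => ∏ j, x j,
            (Xy.filter fun x => ∏ j, x j = n).card ≤ D ^ p := by
          intro n hn
          obtain ⟨x, hx, hxn⟩ := mem_image.1 hn
          obtain ⟨hx1, _⟩ := hmem x hx
          have hn1 : 1 ≤ n := hxn ▸ One_pos hx1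
          have hnq : n ≤ q := hxn ▸ (One_le hx1).trans hH
          calc (Xy.filter fun x => ∏ j, x j = n).card
              ≤ (Fintype.piFinset fun _ : Fin p => n.divisors).card := by
                apply card_le_card
                intro x' hx'
                rw [mem_filter] at hx'
                rw [Fintype.mem_piFinset]
                intro j
                rw [Nat.mem_divisors]
                refine ⟨?_, by omega⟩
                rw [← hx'.2]
                exact dvd_prod_of_mem _ (mem_univ j)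
            _ = n.divisors.card ^ p := by
                rw [Fintype.card_piFinset]
                simp
            _ ≤ D ^ p := Nat.pow_le_pow_left (hD n hn1 hnq) p
        calc Xy.card = ∑ n ∈ Xy.image fun x => ∏ j, x j, (Xy.filter fun x => ∏ j, x j = n).card :=
              card_eq_sum_card_image _ _
          _ ≤ ∑ _n ∈ Xy.image fun x => ∏ j, x j, D ^ p := sum_le_sum h2
          _ = (Xy.image fun x => ∏ j, x j).card * D ^ p := by
              rw [sum_const, smul_eq_mul]
          _ ≤ nu q k * D ^ p := Nat.mul_le_mul_right _ h1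
    _ = W.card * (nu q k * D ^ p) := by
        rw [sum_const, smul_eq_mul]
    _ ≤ H ^ p * (nu q k * D ^ p) := Nat.mul_le_mul_right _ hWc

end Pool.MP_a95293_nt.PS
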