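import Pool.Agent.Lib_MP_a95293_ps.Defs

/-!
# Piece ROOT: the number of `k`-th roots of one modulo `q`

PROOF.  Let `N G = #{u ∈ G : u ^ k = 1}` for a finite commutative group `G`.
(1) `N (G × G') = N G * N G'`; `N` depends only on the isomorphism class; for coprime `a, b`
`(ZMod (a * b))ˣ ≃* (ZMod a)ˣ × (ZMod b)ˣ` (`ZMod.chineseRemainder`, `Units.mapEquiv`, `MulEquiv.prodUnits`).
So `nu (a * b) k = nu a k * nu b k`, and one can argue by `Nat.recOnPosPrimePosCoprime`.
(2) `p` an odd prime: `(ZMod (p ^ n))ˣ` is cyclic (`ZMod.isCyclic_units_of_prime_pow`), so `N ≤ k`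
(`IsCyclic.card_pow_eq_one_le`).
(3) `p = 2`: `N ≤ 2 * k`.  `n ≤ 2`: the group has at most `2` elements.  `n ≥ 3`: `5` has order `2 ^ (n - 2)` (`ZMod.orderOf_five`), the
group has `2 ^ (n - 1)` elements, so the subgroup `⟨5⟩ = Subgroup.zpowers` has index `2`; it is cyclic, so it contains at most
`k` solutions, and if `u₀` is a solution outside `⟨5⟩` then every solution outside is `u₀ * v`, `v ∈ ⟨5⟩` a solution.
(4) Product over the primes of `q`: `nu q k ≤ 2 * k ^ ω(q)` (the factor `2` comes from the prime `2` only; e.g. prove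
`nu q k ≤ k ^ ω(q)` for odd `q` and write `q = 2 ^ n * q'`).
-/

set_option autoImplicit false

namespace Pool.MP_a95293_nt.PS

open Finset

private theorem rt_congr {G H : Type} [CommGroup G] [CommGroup H] (e : G ≃* H) (k : ℕ) :
    Nat.card {u : G // u ^ k = 1} = Nat.card {u : H // u ^ k = 1} := by
  refine Nat.card_congr (e.toEquiv.subtypeEquiv fun u => ?_)
  show u ^ k = 1 ↔ (e u) ^ k = 1
  rw [← map_pow, map_eq_one_iff e e.injective]

private theorem rt_prod {G H : Type} [CommGroup G] [CommGroup H] (k : ℕ) :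
    Nat.card {u : G × H // u ^ k = 1} =
      Nat.card {u : G // u ^ k = 1} * Nat.card {u : H // u ^ k = 1} := by
  rw [← Nat.card_prod]
  refine Nat.card_congr ⟨fun u => (⟨u.1.1, ?_⟩, ⟨u.1.2, ?_⟩), fun v => ⟨(v.1.1, v.2.1), ?_⟩,
    fun u => rfl, fun v => rfl⟩
  · exact congrArg Prod.fst u.2
  · exact congrArg Prod.snd u.2
  · exact Prod.ext v.1.2 v.2.2

private theorem rt_cyclic {G : Type} [CommGroup G] [Finite G] [IsCyclic G] {k : ℕ} (hk : 0 < k) :
    Nat.card {u : G // u ^ k = 1} ≤ k := by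
  classical
  have := Fintype.ofFinite G
  rw [Nat.card_eq_fintype_card, Fintype.card_subtype]
  exact IsCyclic.card_pow_eq_one_le hk

private theorem rt_index {G : Type} [CommGroup G] [Finite G] (H : Subgroup G) [IsCyclic H]
    (hH : H.index ∣ 2) {k : ℕ} (hk : 0 < k) : Nat.card {u : G // u ^ k = 1} ≤ 2 * k := by
  classical
  set K : Subgroup G := (powMonoidHom k : G →* G).ker with hK
  have hmem : ∀ u : G, u ∈ K ↔ u ^ k = 1 := fun u => by
    rw [hK, MonoidHom.mem_ker]; rfl
  have h1 : Nat.card {u : G // u ^ k = 1} = Nat.card K :=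
    Nat.card_congr (Equiv.subtypeEquivRight fun u => (hmem u).symm)
  have h2 := (H.subgroupOf K).card_mul_index
  have h3 : (H.subgroupOf K).index ∣ 2 := dvd_trans (Subgroup.relIndex_dvd_index_of_normal H K) hH
  have h4 : (H.subgroupOf K).index ≤ 2 := Nat.le_of_dvd (by norm_num) h3
  have h5 : Nat.card (H.subgroupOf K) ≤ k := by
    refine le_trans (Nat.card_le_card_of_injective
      (fun u => (⟨⟨u.1.1, u.2⟩, ?_⟩ : {v : H // v ^ k = 1})) ?_) (rt_cyclic (G := H) hk)
    · exact Subtype.ext ((hmem u.1.1).1 u.1.2)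
    · intro u v huv
      have h := congrArg (fun w : {v : H // v ^ k = 1} => (w.1.1 : G)) huv
      exact Subtype.ext (Subtype.ext h)
  rw [h1, ← h2, mul_comm]
  exact Nat.mul_le_mul h4 h5

private theorem rt_two_pow (n k : ℕ) (hk : 0 < k) : nu (2 ^ n) k ≤ 2 * k := by
  unfold nu
  have : NeZero (2 ^ n : ℕ) := ⟨by positivity⟩
  rcases Nat.lt_or_ge n 2 with h | h
  · have h1 : Nat.card {u : (ZMod (2 ^ n))ˣ // u ^ k = 1} ≤ Nat.card (ZMod (2 ^ n))ˣ :=
      Nat.card_le_card_of_injective _ Subtype.val_injective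
    have h2 : Nat.card (ZMod (2 ^ n))ˣ = 1 := by
      rw [Nat.card_eq_fintype_card, ZMod.card_units_eq_totient]
      interval_cases n
      · simp
      · simp
    omega
  · obtain ⟨m, rfl⟩ := Nat.exists_eq_add_of_le' h
    let five : (ZMod (2 ^ (m + 2)))ˣ := ZMod.unitOfCoprime 5 (Nat.Coprime.pow_right _ (by norm_num))
    have h1 : orderOf five = 2 ^ m := by
      rw [← ZMod.orderOf_five m, ← orderOf_units]
      rfl
    have h2 : Nat.card (ZMod (2 ^ (m + 2)))ˣ = 2 ^ (m + 1) := by
      rw [Nat.card_eq_fintype_card, ZMod.card_units_eq_totient,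
        Nat.totient_prime_pow Nat.prime_two (by omega)]
      simp
    have h3 := (Subgroup.zpowers five).card_mul_index
    rw [Nat.card_zpowers, h1, h2] at h3
    have h4 : (Subgroup.zpowers five).index = 2 :=
      Nat.eq_of_mul_eq_mul_left (show 0 < 2 ^ m by positivity) (h3.trans (pow_succ 2 m))
    exact rt_index (Subgroup.zpowers five) (by rw [h4]) hk

private theorem rt_odd_pow (p n k : ℕ) (hp : p.Prime) (hp2 : p ≠ 2) (hk : 0 < k) :
    nu (p ^ n) k ≤ k := by
  unfold nu
  have : NeZero (p ^ n : ℕ) := ⟨pow_ne_zero _ hp.ne_zero⟩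
  have := ZMod.isCyclic_units_of_prime_pow p hp hp2 n
  exact rt_cyclic hk

private theorem rt_mul (a b k : ℕ) (h : a.Coprime b) : nu (a * b) k = nu a k * nu b k := by
  unfold nu
  rw [← rt_prod]
  exact rt_congr ((Units.mapEquiv (ZMod.chineseRemainder h).toMulEquiv).trans MulEquiv.prodUnits) k

private theorem rt_main (k : ℕ) (hk : 0 < k) (q : ℕ) (hq : 0 < q) :
    nu q k ≤ (if 2 ∣ q then 2 else 1) * k ^ q.primeFactors.card := by
  induction q using Nat.recOnPosPrimePosCoprime with
  | prime_pow p n hp hn =>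
    rw [Nat.primeFactors_prime_pow hn.ne' hp, card_singleton, pow_one]
    rcases eq_or_ne p 2 with rfl | h2
    · rw [if_pos (dvd_pow_self 2 hn.ne')]
      exact rt_two_pow n k hk
    · rw [if_neg, one_mul]
      · exact rt_odd_pow p n k hp h2 hk
      · intro h
        have h3 := Nat.prime_two.dvd_of_dvd_pow h
        exact h2 ((Nat.prime_dvd_prime_iff_eq Nat.prime_two hp).1 h3).symm
  | zero => exact absurd hq (lt_irrefl 0)
  | one =>
    rw [if_neg (by norm_num), Nat.primeFactors_one, card_empty, pow_zero]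
    unfold nu
    have h2 : Nat.card (ZMod 1)ˣ = 1 := by
      rw [Nat.card_eq_fintype_card, ZMod.card_units_eq_totient]
      simp
    have h1 : Nat.card {u : (ZMod 1)ˣ // u ^ k = 1} ≤ Nat.card (ZMod 1)ˣ :=
      Nat.card_le_card_of_injective _ Subtype.val_injective
    omega
  | coprime a b ha hb hab iha ihb =>
    rw [rt_mul a b k hab, hab.primeFactors_mul,
      card_union_of_disjoint hab.disjoint_primeFactors, pow_add]
    have h1 := iha (by omega)
    have h2 := ihb (by omega)
    have h3 : (if 2 ∣ a * b then 2 else 1) = (if 2 ∣ a then 2 else 1) * (if 2 ∣ b then 2 else 1) := by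
      by_cases h4 : 2 ∣ a
      · have h5 : ¬ 2 ∣ b := fun h5 => by
          have := Nat.dvd_gcd h4 h5
          rw [Nat.Coprime.gcd_eq_one hab] at this
          omega
        rw [if_pos h4, if_neg h5, if_pos (Dvd.dvd.mul_right h4 b)]
      · by_cases h5 : 2 ∣ b
        · rw [if_neg h4, if_pos h5, if_pos (Dvd.dvd.mul_left h5 a)]
        · rw [if_neg h4, if_neg h5, if_neg]
          intro h6
          rcases (Nat.Prime.dvd_mul Nat.prime_two).1 h6 with h | h
          · exact h4 h
          · exact h5 h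
    rw [h3]
    calc nu a k * nu b k ≤ ((if 2 ∣ a then 2 else 1) * k ^ a.primeFactors.card) *
          ((if 2 ∣ b then 2 else 1) * k ^ b.primeFactors.card) := Nat.mul_le_mul h1 h2
      _ = _ := by ring

theorem nu_le (q k : ℕ) (hq : 0 < q) (hk : 0 < k) : nu q k ≤ 2 * k ^ q.primeFactors.card := by
  refine le_trans (rt_main k hk q hq) (Nat.mul_le_mul_right _ ?_)
  split_ifs <;> norm_num

theorem nu_pos (q k : ℕ) (hq : 0 < q) : 1 ≤ nu q k := by
  have : NeZero q := ⟨hq.ne'⟩
  unfold nu
  have : Nonempty {u : (ZMod q)ˣ // u ^ k = 1} := ⟨⟨1, one_pow k⟩⟩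
  exact Nat.card_pos

end Pool.MP_a95293_nt.PS
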