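import Pool.Agent.Lib_MP_a95293_ps.Omg
import Pool.Agent.Lib_MP_a95293_ps.Root
import Pool.Agent.Lib_MP_a95293_ps.One
import Pool.Agent.Lib_MP_a95293_ps.Hol

/-!
# Piece ENK: energy of `K` variables

PROOF.  Replace `H i` by `H' i = 2 * H i ≥ 2` and let `p i` be the largest integer with `H' i ^ p i ≤ q` (`Nat.log`), so
`q < H' i ^ (2 p i)` and `∑ 1 / p i ≤ 2 log (∏ H' i) / log q ≤ 1`.  Then `EE_le`, `TT_le`, `nu_le`, `pow_omega`, `card_div`.
-/

set_option autoImplicit false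

namespace Pool.MP_a95293_nt.PS

open Finset

private theorem EnK_mono {q K : ℕ} {H H' : Fin K → ℕ} (h : ∀ i, H i ≤ H' i) :
    EE q K H ≤ EE q K H' := by
  classical
  unfold EE
  apply card_le_card
  intro z hz
  rw [mem_filter, mem_product, Fintype.mem_piFinset, Fintype.mem_piFinset] at hz ⊢
  refine ⟨⟨fun i => ?_, fun i => ?_⟩, hz.2⟩
  · have := mem_QQ.1 (hz.1.1 i)
    exact mem_QQ.2 ⟨⟨this.1.1, this.1.2.trans (h i)⟩, this.2⟩
  · have := mem_QQ.1 (hz.1.2 i)
    exact mem_QQ.2 ⟨⟨this.1.1, this.1.2.trans (h i)⟩, this.2⟩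

private theorem EnK_inv {H q : ℕ} (hH : 2 ≤ H) (hHq : H ≤ q) :
    1 ≤ Nat.log H q ∧ H ^ Nat.log H q ≤ q ∧
      (1 : ℝ) / (Nat.log H q : ℝ) ≤ 2 * Real.log H / Real.log q := by
  have h1 : 1 ≤ Nat.log H q := Nat.log_pos (by omega) hHq
  refine ⟨h1, Nat.pow_log_le_self H (by omega), ?_⟩
  have hq : (1 : ℝ) < q := by exact_mod_cast (by omega : 1 < q)
  have hlq := Real.log_pos hq
  have hp : (0 : ℝ) < (Nat.log H q : ℝ) := by exact_mod_cast h1
  rw [div_le_div_iff₀ hp hlq, one_mul]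
  have h2 : q < H ^ (Nat.log H q + 1) := Nat.lt_pow_succ_log_self (by omega) q
  have h3 : H ^ (Nat.log H q + 1) ≤ H ^ (2 * Nat.log H q) :=
    Nat.pow_le_pow_right (by omega) (by omega)
  have h4 : (q : ℝ) ≤ (H : ℝ) ^ (2 * Nat.log H q) := by exact_mod_cast (h2.trans_le h3).le
  have h5 := Real.log_le_log (by linarith) h4
  rw [Real.log_pow] at h5
  push_cast at h5
  linarith

theorem enK (K A : ℕ) (ε : ℝ) (hε : 0 < ε) : ∃ C : ℝ, 1 ≤ C ∧ ∀ X q : ℕ, 1 ≤ X → 1 ≤ q →
    q ≤ X ^ A → ∀ H : Fin K → ℕ, (∀ i, 1 ≤ H i) → 4 ^ K * (∏ i, H i) ^ 2 ≤ q →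
    (EE q K H : ℝ) ≤ C * (X : ℝ) ^ ε * ∏ i, (H i : ℝ) := by
  classical
  set ε₁ : ℝ := ε / (2 * A * K + 1) with hε₁
  have hden : (0 : ℝ) < 2 * A * K + 1 := by positivity
  have hε₁0 : 0 < ε₁ := div_pos hε hden
  obtain ⟨C₁, hC₁, h₁⟩ := card_div ε₁ hε₁0
  obtain ⟨C₂, hC₂, h₂⟩ := pow_omega K ε₁ hε₁0
  refine ⟨(4 * C₁ * C₂) ^ K, one_le_pow₀ (by nlinarith), ?_⟩
  intro X q hX hq hqX H hH hHq
  set H' : Fin K → ℕ := fun i => 2 * H i with hH'
  have hprod : ∏ i, H' i = 2 ^ K * ∏ i, H i := by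
    rw [hH', prod_mul_distrib]
    simp
  have hsq : (∏ i, H' i) ^ 2 ≤ q := by
    rw [hprod, mul_pow, ← pow_mul, mul_comm K 2, pow_mul]
    exact hHq
  have hH'2 : ∀ i, 2 ≤ H' i := fun i => by
    have := hH i
    show 2 ≤ 2 * H i
    omega
  have hpos : ∀ i, 1 ≤ H' i := fun i => by
    have := hH'2 i
    omega
  have hPpos : 1 ≤ ∏ i, H' i := by
    apply Nat.one_le_iff_ne_zero.2
    rw [Finset.prod_ne_zero_iff]
    intro i _
    have := hpos i
    omega
  have hle : ∀ i, H' i ≤ q := fun i => by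
    have h3 : H' i ≤ ∏ i, H' i := Nat.le_of_dvd hPpos (dvd_prod_of_mem _ (mem_univ i))
    nlinarith
  have hinv := fun i => EnK_inv (hH'2 i) (hle i)
  have hsum : ∑ i, (1 : ℝ) / (Nat.log (H' i) q : ℝ) ≤ 1 := by
    rcases Nat.eq_zero_or_pos K with hK | hK
    · subst hK
      simp
    · have hq1 : (1 : ℝ) < q := by
        have h3 := hH'2 ⟨0, hK⟩
        have h4 := hle ⟨0, hK⟩
        exact_mod_cast (by omega : 1 < q)
      have hlq := Real.log_pos hq1
      calc ∑ i, (1 : ℝ) / (Nat.log (H' i) q : ℝ)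
          ≤ ∑ i, 2 * Real.log (H' i) / Real.log q := sum_le_sum fun i _ => (hinv i).2.2
        _ = 2 * (∑ i, Real.log (H' i)) / Real.log q := by
            rw [mul_sum, sum_div]
        _ = Real.log (((∏ i, H' i) ^ 2 : ℕ) : ℝ) / Real.log q := by
            push_cast
            rw [Real.log_pow, Real.log_prod]
            · push_cast
              ring
            · intro i _
              have := hpos i
              positivity
        _ ≤ 1 := by
            rw [div_le_one hlq]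
            apply Real.log_le_log
            · have : 1 ≤ (∏ i, H' i) ^ 2 := Nat.one_le_pow _ _ hPpos
              exact_mod_cast this
            · exact_mod_cast hsq
  have hE := EE_le q K hq H' (fun i => Nat.log (H' i) q) (fun i => (hinv i).1) hsum
  have hq0 : (0 : ℝ) < q := by exact_mod_cast hq
  have hq1 : (1 : ℝ) ≤ q := by exact_mod_cast hq
  set D : ℕ := ⌊C₁ * (q : ℝ) ^ ε₁⌋₊ with hD
  have hDle : (D : ℝ) ≤ C₁ * (q : ℝ) ^ ε₁ := Nat.floor_le (by positivity)
  have hdiv : ∀ n, 1 ≤ n → n ≤ q → n.divisors.card ≤ D := by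
    intro n hn hnq
    apply Nat.le_floor
    refine (h₁ n hn).trans ?_
    apply mul_le_mul_of_nonneg_left _ (by linarith)
    exact Real.rpow_le_rpow (by positivity) (by exact_mod_cast hnq) hε₁0.le
  have hfac : ∀ i, (TT q (i.val + 1) (Nat.log (H' i) q) (H' i) : ℝ) ^
      ((1 : ℝ) / (Nat.log (H' i) q : ℝ)) ≤ H i * (4 * C₁ * C₂ * (q : ℝ) ^ (2 * ε₁)) := by
    intro i
    obtain ⟨hp1, hp2, _⟩ := hinv i
    set P := Nat.log (H' i) q with hP
    have hT := TT_le q (i.val + 1) P (H' i) D hq (by omega) hp2 hdiv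
    have hnu1 := nu_pos q (i.val + 1) hq
    have hnu := nu_le q (i.val + 1) hq (by omega)
    have hnu2 : (nu q (i.val + 1) : ℝ) ≤ 2 * (C₂ * (q : ℝ) ^ ε₁) := by
      have h3 : nu q (i.val + 1) ≤ 2 * K ^ q.primeFactors.card :=
        hnu.trans (Nat.mul_le_mul_left 2 (Nat.pow_le_pow_left i.2 _))
      have h4 : (nu q (i.val + 1) : ℝ) ≤ 2 * (K : ℝ) ^ q.primeFactors.card := by exact_mod_cast h3
      have h5 := h₂ q hq
      linarith
    have h3 : (TT q (i.val + 1) P (H' i) : ℝ) ≤ ((H' i : ℝ) * (nu q (i.val + 1) * D)) ^ P := by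
      have h4 : TT q (i.val + 1) P (H' i) ≤ (H' i * (nu q (i.val + 1) * D)) ^ P := by
        refine hT.trans ?_
        rw [mul_pow (H' i), mul_pow (nu q (i.val + 1))]
        apply Nat.mul_le_mul_left
        apply Nat.mul_le_mul_right
        exact Nat.le_self_pow (by omega) _
      exact_mod_cast h4
    calc (TT q (i.val + 1) P (H' i) : ℝ) ^ ((1 : ℝ) / (P : ℝ))
        ≤ (((H' i : ℝ) * (nu q (i.val + 1) * D)) ^ P) ^ ((1 : ℝ) / (P : ℝ)) :=
          Real.rpow_le_rpow (by positivity) h3 (by positivity)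
      _ = (H' i : ℝ) * (nu q (i.val + 1) * D) := by
          rw [one_div]
          exact Real.pow_rpow_inv_natCast (by positivity) (by omega)
      _ ≤ (H' i : ℝ) * (2 * (C₂ * (q : ℝ) ^ ε₁) * (C₁ * (q : ℝ) ^ ε₁)) := by
          apply mul_le_mul_of_nonneg_left _ (by positivity)
          exact mul_le_mul hnu2 hDle (by positivity) (by positivity)
      _ = H i * (4 * C₁ * C₂ * (q : ℝ) ^ (2 * ε₁)) := by
          rw [two_mul ε₁, Real.rpow_add hq0, hH']
          push_cast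
          ring
  calc (EE q K H : ℝ) ≤ EE q K H' := by
        exact_mod_cast EnK_mono fun i => by
          show H i ≤ 2 * H i
          omega
    _ ≤ ∏ i, (TT q (i.val + 1) (Nat.log (H' i) q) (H' i) : ℝ) ^
          ((1 : ℝ) / (Nat.log (H' i) q : ℝ)) := hE
    _ ≤ ∏ i, (H i : ℝ) * (4 * C₁ * C₂ * (q : ℝ) ^ (2 * ε₁)) :=
        prod_le_prod (fun i _ => by positivity) fun i _ => hfac i
    _ = (4 * C₁ * C₂) ^ K * (q : ℝ) ^ (2 * ε₁ * K) * ∏ i, (H i : ℝ) := by
        rw [prod_mul_distrib, prod_const, card_univ, Fintype.card_fin, mul_pow,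
          ← Real.rpow_natCast ((q : ℝ) ^ (2 * ε₁)) K, ← Real.rpow_mul hq0.le]
        ring
    _ ≤ (4 * C₁ * C₂) ^ K * (X : ℝ) ^ ε * ∏ i, (H i : ℝ) := by
        apply mul_le_mul_of_nonneg_right _ (by positivity)
        apply mul_le_mul_of_nonneg_left _ (by positivity)
        have hX1 : (1 : ℝ) ≤ X := by exact_mod_cast hX
        calc (q : ℝ) ^ (2 * ε₁ * K) ≤ ((X : ℝ) ^ A) ^ (2 * ε₁ * K) :=
              Real.rpow_le_rpow hq0.le (by exact_mod_cast hqX) (by positivity)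
          _ = (X : ℝ) ^ ((A : ℝ) * (2 * ε₁ * K)) := by
              rw [← Real.rpow_natCast (X : ℝ) A, ← Real.rpow_mul (by positivity)]
          _ ≤ (X : ℝ) ^ ε := by
              apply Real.rpow_le_rpow_of_exponent_le hX1
              have h3 : (A : ℝ) * (2 * ε₁ * K) = ε * (2 * A * K / (2 * A * K + 1)) := by
                rw [hε₁]
                ring
              rw [h3]
              have h4 : 2 * (A : ℝ) * K / (2 * A * K + 1) ≤ 1 := by
                rw [div_le_one hden]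
                linarith
              nlinarith

end Pool.MP_a95293_nt.PS
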