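import Mathlib

/-!
# Piece JAR: integer points on the curve `C y^m = B x^k + a` (Jarnik's argument)

PROOF.  On the curve `y = f x`, `f x = ((B x ^ k + a) / C) ^ (1 / m)` for real `x > 0`; `f > 0` is strictly increasing and smooth on `(0, ∞)`.
(1) `f' = (k B / (m C)) x ^ (k - 1) / f ^ (m - 1) > 0` and `log f' = const + (k - 1) log x - (m - 1) log f`, whose derivative is
`(k - 1) / x - (m - 1) f' / f = (k - 1) / x - (m - 1) k B x ^ (k - 1) / (m (B x ^ k + a))`
`= [ (k - 1) m (B x ^ k + a) - (m - 1) k B x ^ k ] / (m x (B x ^ k + a)) = [ (k - 1) m a - (k - m) B x ^ k ] / (m x (B x ^ k + a))`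
(check: `(k - 1) m - (m - 1) k = k - m`, so the numerator is `(k - m) B x ^ k + (k - 1) m a`).
So `f'` is strictly increasing where `(k - m) B x ^ k + (k - 1) m a > 0` and strictly decreasing where it is `< 0`: two intervals
`(0, x₀]` and `[x₀, ∞)` (if `k ≥ m` it is positive everywhere).  So `f` is strictly convex on the first and strictly concave on the second one.
(2) Let `x₁ < x₂ < … < x_n` be the abscissae of the points of `S` in one of the two intervals, `y_i = f x_i` (increasing).  The slopes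
`(y_(i+1) - y_i) / (x_(i+1) - x_i)` are strictly monotone in `i`, so the vectors `(x_(i+1) - x_i, y_(i+1) - y_i)` are pairwise
distinct, with positive integer entries; the sum of all `x_(i+1) - x_i` is `< P`, the same for `y`.  With `T = P ^ (1/3)`: at most
`T ^ 2` of them have both entries `≤ T`, fewer than `P / T` have first entry `> T`, fewer than `P / T` second entry `> T`.
So `n ≤ 1 + 3 P ^ (2/3) ≤ 4 P ^ (2/3)`; two intervals give `8 P ^ (2/3)`.
(An alternative to (1): any argument showing that a given difference vector occurs at most twice among consecutive points.)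
-/

set_option autoImplicit false

namespace Pool.MP_a95293_nt.PS

open Finset

private theorem jr_sum (n : ℕ) (x : ℕ → ℕ) (hx : ∀ i < n, x i < x (i + 1)) :
    (∑ i ∈ range n, (x (i + 1) - x i)) + x 0 = x n := by
  induction n with
  | zero => simp
  | succ n ih =>
    rw [Finset.sum_range_succ]
    have h1 := ih (fun i hi => hx i (by omega))
    have h2 := hx n (by omega)
    omega

private theorem jr_big (n P : ℕ) (x : ℕ → ℕ) (hx : ∀ i < n, x i < x (i + 1)) (hxP : x n ≤ P)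
    (T : ℝ) :
    (((range n).filter (fun i => T < ((x (i + 1) - x i : ℕ) : ℝ))).card : ℝ) * T ≤ P := by
  have h1 : (((range n).filter (fun i => T < ((x (i + 1) - x i : ℕ) : ℝ))).card : ℝ) * T
      ≤ ∑ i ∈ (range n).filter (fun i => T < ((x (i + 1) - x i : ℕ) : ℝ)), ((x (i + 1) - x i : ℕ) : ℝ) := by
    rw [← nsmul_eq_mul]
    apply Finset.card_nsmul_le_sum
    intro i hi
    exact (Finset.mem_filter.mp hi).2.le
  have h2 : ∑ i ∈ (range n).filter (fun i => T < ((x (i + 1) - x i : ℕ) : ℝ)), ((x (i + 1) - x i : ℕ) : ℝ)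
      ≤ ∑ i ∈ range n, ((x (i + 1) - x i : ℕ) : ℝ) :=
    Finset.sum_le_sum_of_subset_of_nonneg (Finset.filter_subset _ _) (fun i _ _ => Nat.cast_nonneg _)
  have h3 : ∑ i ∈ range n, ((x (i + 1) - x i : ℕ) : ℝ) ≤ P := by
    rw [← Nat.cast_sum]
    have := jr_sum n x hx
    exact_mod_cast (by omega : ∑ i ∈ range n, (x (i + 1) - x i) ≤ P)
  linarith

private theorem jr_seq (n P : ℕ) (x y : ℕ → ℕ) (hP : 1 ≤ P) (hx : ∀ i < n, x i < x (i + 1))
    (hy : ∀ i < n, y i < y (i + 1)) (hxP : x n ≤ P) (hyP : y n ≤ P)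
    (hinj : ∀ i j, i < j → j < n → ¬ (x (i + 1) - x i = x (j + 1) - x j ∧
      y (i + 1) - y i = y (j + 1) - y j)) :
    (n : ℝ) ≤ 3 * (P : ℝ) ^ ((2 : ℝ) / 3) := by
  have hP' : (1 : ℝ) ≤ P := by exact_mod_cast hP
  have hP0 : (0 : ℝ) < P := by linarith
  set T : ℝ := (P : ℝ) ^ ((1 : ℝ) / 3) with hTdef
  have hT : 0 < T := Real.rpow_pos_of_pos hP0 _
  have hT2 : T ^ 2 = (P : ℝ) ^ ((2 : ℝ) / 3) := by
    rw [hTdef, ← Real.rpow_natCast, ← Real.rpow_mul hP0.le]
    norm_num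
  have hTP : T ^ 2 * T = P := by
    rw [hT2, hTdef, ← Real.rpow_add hP0]
    norm_num
  have hb1 := jr_big n P x hx hxP T
  have hb2 := jr_big n P y hy hyP T
  have hc1 : (((range n).filter (fun i => T < ((x (i + 1) - x i : ℕ) : ℝ))).card : ℝ) ≤ T ^ 2 := by
    rw [← hTP] at hb1
    exact le_of_mul_le_mul_right hb1 hT
  have hc2 : (((range n).filter (fun i => T < ((y (i + 1) - y i : ℕ) : ℝ))).card : ℝ) ≤ T ^ 2 := by
    rw [← hTP] at hb2
    exact le_of_mul_le_mul_right hb2 hT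
  have hc3 : (((range n).filter (fun i => ((x (i + 1) - x i : ℕ) : ℝ) ≤ T ∧
      ((y (i + 1) - y i : ℕ) : ℝ) ≤ T)).card : ℝ) ≤ T ^ 2 := by
    have h1 : ((range n).filter (fun i => ((x (i + 1) - x i : ℕ) : ℝ) ≤ T ∧
      ((y (i + 1) - y i : ℕ) : ℝ) ≤ T)).card ≤ (Icc 1 ⌊T⌋₊ ×ˢ Icc 1 ⌊T⌋₊).card := by
      apply Finset.card_le_card_of_injOn (fun i => (x (i + 1) - x i, y (i + 1) - y i))
      · intro i hi
        simp only [Finset.coe_filter, Set.mem_ofPred_eq, Finset.mem_range] at hi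
        simp only [Finset.coe_product, Finset.coe_Icc, Set.mem_prod, Set.mem_Icc]
        have h1 := hx i hi.1
        have h2 := hy i hi.1
        exact ⟨⟨by omega, Nat.le_floor hi.2.1⟩, ⟨by omega, Nat.le_floor hi.2.2⟩⟩
      · intro i hi j hj hij
        simp only [Finset.coe_filter, Set.mem_ofPred_eq, Finset.mem_range] at hi hj
        simp only [Prod.mk.injEq] at hij
        rcases lt_trichotomy i j with h | h | h
        · exact absurd hij (hinj i j h hj.1)
        · exact h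
        · exact absurd ⟨hij.1.symm, hij.2.symm⟩ (hinj j i h hi.1)
    have h2 : (Icc 1 ⌊T⌋₊ ×ˢ Icc 1 ⌊T⌋₊).card = ⌊T⌋₊ * ⌊T⌋₊ := by
      rw [Finset.card_product]
      simp
    rw [h2] at h1
    have h3 : ((⌊T⌋₊ : ℕ) : ℝ) ≤ T := Nat.floor_le hT.le
    have h4 : (((range n).filter (fun i => ((x (i + 1) - x i : ℕ) : ℝ) ≤ T ∧
      ((y (i + 1) - y i : ℕ) : ℝ) ≤ T)).card : ℝ) ≤ (⌊T⌋₊ : ℝ) * ⌊T⌋₊ := by exact_mod_cast h1
    have h5 : (⌊T⌋₊ : ℝ) * ⌊T⌋₊ ≤ T * T := mul_le_mul h3 h3 (Nat.cast_nonneg _) hT.le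
    nlinarith
  have hcov : (range n) ⊆ ((range n).filter (fun i => T < ((x (i + 1) - x i : ℕ) : ℝ))) ∪
      (((range n).filter (fun i => T < ((y (i + 1) - y i : ℕ) : ℝ))) ∪
      ((range n).filter (fun i => ((x (i + 1) - x i : ℕ) : ℝ) ≤ T ∧
      ((y (i + 1) - y i : ℕ) : ℝ) ≤ T))) := by
    intro i hi
    simp only [Finset.mem_union, Finset.mem_filter]
    by_cases h1 : T < ((x (i + 1) - x i : ℕ) : ℝ)
    · exact Or.inl ⟨hi, h1⟩
    · by_cases h2 : T < ((y (i + 1) - y i : ℕ) : ℝ)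
      · exact Or.inr (Or.inl ⟨hi, h2⟩)
      · exact Or.inr (Or.inr ⟨hi, not_lt.mp h1, not_lt.mp h2⟩)
  have hcard := Finset.card_le_card hcov
  have hu1 := Finset.card_union_le ((range n).filter (fun i => T < ((x (i + 1) - x i : ℕ) : ℝ)))
      (((range n).filter (fun i => T < ((y (i + 1) - y i : ℕ) : ℝ))) ∪
      ((range n).filter (fun i => ((x (i + 1) - x i : ℕ) : ℝ) ≤ T ∧
      ((y (i + 1) - y i : ℕ) : ℝ) ≤ T)))
  have hu2 := Finset.card_union_le ((range n).filter (fun i => T < ((y (i + 1) - y i : ℕ) : ℝ)))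
      ((range n).filter (fun i => ((x (i + 1) - x i : ℕ) : ℝ) ≤ T ∧
      ((y (i + 1) - y i : ℕ) : ℝ) ≤ T))
  rw [Finset.card_range] at hcard
  have hfin : (n : ℝ) ≤ (((range n).filter (fun i => T < ((x (i + 1) - x i : ℕ) : ℝ))).card : ℝ) +
      ((((range n).filter (fun i => T < ((y (i + 1) - y i : ℕ) : ℝ))).card : ℝ) +
      (((range n).filter (fun i => ((x (i + 1) - x i : ℕ) : ℝ) ≤ T ∧
      ((y (i + 1) - y i : ℕ) : ℝ) ≤ T)).card : ℝ)) := by
    exact_mod_cast hcard.trans (hu1.trans (Nat.add_le_add_left hu2 _))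
  rw [← hT2]
  linarith

/-- points on the graph of a strictly increasing function whose secant slopes are distinct -/
private theorem jr_graph (P : ℕ) (hP : 1 ≤ P) (D : Set ℝ) (f : ℝ → ℝ)
    (hf : StrictMonoOn f D)
    (hsl : ∀ x y z w : ℝ, x ∈ D → y ∈ D → z ∈ D → w ∈ D → x < y → y ≤ z → z < w →
      (f y - f x) / (y - x) ≠ (f w - f z) / (w - z))
    (A : Finset ℕ) (g : ℕ → ℕ) (hA : ∀ x ∈ A, x ≤ P ∧ g x ≤ P ∧ (x : ℝ) ∈ D ∧ f x = g x) :
    (A.card : ℝ) ≤ 4 * (P : ℝ) ^ ((2 : ℝ) / 3) := by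
  have hP' : (1 : ℝ) ≤ P := by exact_mod_cast hP
  have hone : (1 : ℝ) ≤ (P : ℝ) ^ ((2 : ℝ) / 3) := Real.one_le_rpow hP' (by norm_num)
  rcases Nat.eq_zero_or_pos A.card with h0 | hpos
  · rw [h0]
    simp only [Nat.cast_zero]
    positivity
  obtain ⟨n, hn⟩ : ∃ n, A.card = n + 1 := ⟨A.card - 1, by omega⟩
  let e : Fin (n + 1) ↪o ℕ := A.orderEmbOfFin hn
  let x : ℕ → ℕ := fun i => if h : i < n + 1 then e ⟨i, h⟩ else 0
  have hxe : ∀ i (h : i < n + 1), x i = e ⟨i, h⟩ := fun i h => by simp only [x, dif_pos h]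
  have hxA : ∀ i, i < n + 1 → x i ∈ A := by
    intro i h
    rw [hxe i h]
    exact Finset.orderEmbOfFin_mem A hn _
  have hxlt : ∀ i j, i < j → j < n + 1 → x i < x j := by
    intro i j hij hj
    rw [hxe i (by omega), hxe j hj]
    exact e.strictMono (by exact hij)
  have hgf : ∀ i, i < n + 1 → f (x i) = g (x i) := fun i hi => (hA _ (hxA i hi)).2.2.2
  have hD : ∀ i, i < n + 1 → (x i : ℝ) ∈ D := fun i hi => (hA _ (hxA i hi)).2.2.1
  have hglt : ∀ i j, i < j → j < n + 1 → g (x i) < g (x j) := by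
    intro i j hij hj
    have h1 := hf (hD i (by omega)) (hD j hj) (by exact_mod_cast hxlt i j hij hj)
    rw [hgf i (by omega), hgf j hj] at h1
    exact_mod_cast h1
  have key : (n : ℝ) ≤ 3 * (P : ℝ) ^ ((2 : ℝ) / 3) := by
    apply jr_seq n P x (fun i => g (x i)) hP
    · intro i hi
      exact hxlt i (i + 1) (by omega) (by omega)
    · intro i hi
      exact hglt i (i + 1) (by omega) (by omega)
    · exact (hA _ (hxA n (by omega))).1
    · exact (hA _ (hxA n (by omega))).2.1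
    · intro i j hij hj h
      obtain ⟨h1, h2⟩ := h
      have hx1 := hxlt i (i + 1) (by omega) (by omega)
      have hx2 := hxlt j (j + 1) (by omega) (by omega)
      have hg1 := hglt i (i + 1) (by omega) (by omega)
      have hg2 := hglt j (j + 1) (by omega) (by omega)
      have hx3 : x (i + 1) ≤ x j := by
        rcases Nat.lt_or_ge (i + 1) j with h' | h'
        · exact (hxlt _ _ h' (by omega)).le
        · have : i + 1 = j := by omega
          rw [this]
      apply hsl (x i) (x (i + 1)) (x j) (x (j + 1)) (hD _ (by omega)) (hD _ (by omega)) (hD _ (by omega))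
        (hD _ (by omega)) (by exact_mod_cast hx1) (by exact_mod_cast hx3) (by exact_mod_cast hx2)
      rw [hgf _ (by omega), hgf _ (by omega), hgf _ (by omega), hgf _ (by omega)]
      have e1 : (x (i + 1) : ℝ) - x i = (x (j + 1) : ℝ) - x j := by
        rw [← Nat.cast_sub hx1.le, ← Nat.cast_sub hx2.le, h1]
      have e2 : (g (x (i + 1)) : ℝ) - g (x i) = (g (x (j + 1)) : ℝ) - g (x j) := by
        rw [← Nat.cast_sub hg1.le, ← Nat.cast_sub hg2.le]
        exact_mod_cast h2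
      rw [e1, e2]
  rw [hn]
  push_cast
  linarith

private theorem jr_conv (D : Set ℝ) (f : ℝ → ℝ) (h : StrictConvexOn ℝ D f) (x y z w : ℝ)
    (hx : x ∈ D) (hy : y ∈ D) (hz : z ∈ D) (hw : w ∈ D) (h1 : x < y) (h2 : y ≤ z) (h3 : z < w) :
    (f y - f x) / (y - x) ≠ (f w - f z) / (w - z) := by
  apply ne_of_lt
  rcases eq_or_lt_of_le h2 with h2 | h2
  · subst h2
    exact h.slope_strict_mono_adjacent hx hw h1 h3
  · exact (h.slope_strict_mono_adjacent hx hz h1 h2).trans (h.slope_strict_mono_adjacent hy hw h2 h3)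

private theorem jr_conc (D : Set ℝ) (f : ℝ → ℝ) (h : StrictConcaveOn ℝ D f) (x y z w : ℝ)
    (hx : x ∈ D) (hy : y ∈ D) (hz : z ∈ D) (hw : w ∈ D) (h1 : x < y) (h2 : y ≤ z) (h3 : z < w) :
    (f y - f x) / (y - x) ≠ (f w - f z) / (w - z) := by
  apply ne_of_gt
  rcases eq_or_lt_of_le h2 with h2 | h2
  · subst h2
    exact h.slope_anti_adjacent hx hw h1 h3
  · exact (h.slope_anti_adjacent hy hw h2 h3).trans (h.slope_anti_adjacent hx hz h1 h2)

private theorem jr_d1 (k m : ℕ) (α β : ℝ) (hα : 0 < α) (hβ : 0 < β) (x : ℝ) (hx : 0 < x) :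
    HasDerivAt (fun x : ℝ => (α * x ^ k + β) ^ ((1 : ℝ) / m))
      (α * (k * x ^ (k - 1)) * ((1 : ℝ) / m) * (α * x ^ k + β) ^ ((1 : ℝ) / m - 1)) x := by
  have h1 : HasDerivAt (fun x : ℝ => α * x ^ k + β) (α * (k * x ^ (k - 1))) x :=
    ((hasDerivAt_pow k x).const_mul α).add_const β
  exact h1.rpow_const (Or.inl (by positivity))

private theorem jr_d2 (k m : ℕ) (hk : 2 ≤ k) (hm : 2 ≤ m) (α β : ℝ) (hα : 0 < α) (hβ : 0 < β) (x : ℝ)
    (hx : 0 < x) :
    HasDerivAt (fun x : ℝ => α * (k * x ^ (k - 1)) * ((1 : ℝ) / m) * (α * x ^ k + β) ^ ((1 : ℝ) / m - 1))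
      ((α * k * (1 / (m : ℝ)) ^ 2 * x ^ (k - 2) * (α * x ^ k + β) ^ ((1 : ℝ) / m - 2)) *
        (((k : ℝ) - m) * (α * x ^ k) + ((k : ℝ) - 1) * m * β)) x := by
  have hm0 : (0 : ℝ) < m := by
    have : 0 < m := by omega
    exact_mod_cast this
  have hpos : 0 < α * x ^ k + β := by positivity
  have h1 : HasDerivAt (fun x : ℝ => α * x ^ k + β) (α * (k * x ^ (k - 1))) x :=
    ((hasDerivAt_pow k x).const_mul α).add_const β
  have h2 := h1.rpow_const (p := (1 : ℝ) / m - 1) (Or.inl hpos.ne')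
  have h3 : HasDerivAt (fun x : ℝ => α * (k * x ^ (k - 1)) * ((1 : ℝ) / m))
      (α * (k * (((k - 1 : ℕ) : ℝ) * x ^ (k - 1 - 1))) * ((1 : ℝ) / m)) x :=
    (((hasDerivAt_pow (k - 1) x).const_mul (k : ℝ)).const_mul α).mul_const _
  have h4 := h3.mul h2
  refine h4.congr_deriv ?_
  obtain ⟨j, rfl⟩ : ∃ j, k = j + 2 := ⟨k - 2, by omega⟩
  have e1 : j + 2 - 1 - 1 = j := by omega
  have e2 : j + 2 - 1 = j + 1 := by omega
  have e3 : j + 2 - 2 = j := by omega
  rw [e1, e3, e2]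
  have e4 : (α * x ^ (j + 2) + β) ^ ((1 : ℝ) / m - 1) =
      (α * x ^ (j + 2) + β) ^ ((1 : ℝ) / m - 2) * (α * x ^ (j + 2) + β) := by
    rw [← Real.rpow_add_one hpos.ne']
    congr 1
    ring
  have e5 : (1 : ℝ) / m - 1 - 1 = (1 : ℝ) / m - 2 := by ring
  rw [e5, e4]
  push_cast
  field_simp
  ring

private theorem jr_convex (k m : ℕ) (hk : 2 ≤ k) (hm : 2 ≤ m) (α β : ℝ) (hα : 0 < α) (hβ : 0 < β)
    (D : Set ℝ) (hD : Convex ℝ D) (hDo : IsOpen D) (hD0 : ∀ x ∈ D, 0 < x)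
    (hs : ∀ x ∈ D, 0 < ((k : ℝ) - m) * (α * x ^ k) + ((k : ℝ) - 1) * m * β) :
    StrictConvexOn ℝ D (fun x : ℝ => (α * x ^ k + β) ^ ((1 : ℝ) / m)) := by
  have hm0 : (0 : ℝ) < m := by
    have : 0 < m := by omega
    exact_mod_cast this
  have hk0 : (0 : ℝ) < k := by
    have : 0 < k := by omega
    exact_mod_cast this
  apply StrictMonoOn.strictConvexOn_of_deriv hD
  · intro x hx
    exact (jr_d1 k m α β hα hβ x (hD0 x hx)).continuousAt.continuousWithinAt
  · rw [hDo.interior_eq]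
    have h1 : StrictMonoOn (fun x : ℝ => α * (k * x ^ (k - 1)) * ((1 : ℝ) / m) *
        (α * x ^ k + β) ^ ((1 : ℝ) / m - 1)) D := by
      apply strictMonoOn_of_deriv_pos hD
      · intro x hx
        exact (jr_d2 k m hk hm α β hα hβ x (hD0 x hx)).continuousAt.continuousWithinAt
      · intro x hx
        rw [hDo.interior_eq] at hx
        rw [(jr_d2 k m hk hm α β hα hβ x (hD0 x hx)).deriv]
        have hx0 := hD0 x hx
        have := hs x hx
        apply mul_pos _ this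
        positivity
    intro x hx y hy hxy
    rw [(jr_d1 k m α β hα hβ x (hD0 x hx)).deriv, (jr_d1 k m α β hα hβ y (hD0 y hy)).deriv]
    exact h1 hx hy hxy

private theorem jr_concave (k m : ℕ) (hk : 2 ≤ k) (hm : 2 ≤ m) (α β : ℝ) (hα : 0 < α) (hβ : 0 < β)
    (D : Set ℝ) (hD : Convex ℝ D) (hDo : IsOpen D) (hD0 : ∀ x ∈ D, 0 < x)
    (hs : ∀ x ∈ D, ((k : ℝ) - m) * (α * x ^ k) + ((k : ℝ) - 1) * m * β < 0) :
    StrictConcaveOn ℝ D (fun x : ℝ => (α * x ^ k + β) ^ ((1 : ℝ) / m)) := by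
  have hm0 : (0 : ℝ) < m := by
    have : 0 < m := by omega
    exact_mod_cast this
  have hk0 : (0 : ℝ) < k := by
    have : 0 < k := by omega
    exact_mod_cast this
  apply StrictAntiOn.strictConcaveOn_of_deriv hD
  · intro x hx
    exact (jr_d1 k m α β hα hβ x (hD0 x hx)).continuousAt.continuousWithinAt
  · rw [hDo.interior_eq]
    have h1 : StrictAntiOn (fun x : ℝ => α * (k * x ^ (k - 1)) * ((1 : ℝ) / m) *
        (α * x ^ k + β) ^ ((1 : ℝ) / m - 1)) D := by
      apply strictAntiOn_of_deriv_neg hD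
      · intro x hx
        exact (jr_d2 k m hk hm α β hα hβ x (hD0 x hx)).continuousAt.continuousWithinAt
      · intro x hx
        rw [hDo.interior_eq] at hx
        rw [(jr_d2 k m hk hm α β hα hβ x (hD0 x hx)).deriv]
        have hx0 := hD0 x hx
        have := hs x hx
        apply mul_neg_of_pos_of_neg _ this
        positivity
    intro x hx y hy hxy
    rw [(jr_d1 k m α β hα hβ x (hD0 x hx)).deriv, (jr_d1 k m α β hα hβ y (hD0 y hy)).deriv]
    exact h1 hx hy hxy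

private theorem jr_mono (k m : ℕ) (hk : 2 ≤ k) (hm : 2 ≤ m) (α β : ℝ) (hα : 0 < α) (hβ : 0 < β)
    (D : Set ℝ) (hD0 : ∀ x ∈ D, 0 < x) :
    StrictMonoOn (fun x : ℝ => (α * x ^ k + β) ^ ((1 : ℝ) / m)) D := by
  have hm0 : (0 : ℝ) < m := by
    have : 0 < m := by omega
    exact_mod_cast this
  intro x hx y hy hxy
  have hx0 := hD0 x hx
  have h1 : x ^ k < y ^ k := pow_lt_pow_left₀ hxy hx0.le (by omega)
  have h2 : α * x ^ k + β < α * y ^ k + β := by nlinarith
  exact Real.rpow_lt_rpow (by positivity) h2 (by positivity)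

private theorem jr_root (m : ℕ) (hm : 2 ≤ m) (y : ℕ) (v : ℝ) (h : v = (y : ℝ) ^ m) :
    v ^ ((1 : ℝ) / m) = y := by
  rw [h, one_div]
  exact Real.pow_rpow_inv_natCast (Nat.cast_nonneg _) (by omega)

theorem jarnik (k m a B C P : ℕ) (hk : 2 ≤ k) (hm : 2 ≤ m) (ha : 1 ≤ a) (hB : 1 ≤ B) (hC : 1 ≤ C)
    (hP : 1 ≤ P) (S : Finset (ℕ × ℕ))
    (hS : ∀ z ∈ S, 1 ≤ z.1 ∧ z.1 ≤ P ∧ 1 ≤ z.2 ∧ z.2 ≤ P ∧ C * z.2 ^ m = B * z.1 ^ k + a) :
    (S.card : ℝ) ≤ 16 * (P : ℝ) ^ ((2 : ℝ) / 3) := by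
  have hP' : (1 : ℝ) ≤ P := by exact_mod_cast hP
  have hone : (1 : ℝ) ≤ (P : ℝ) ^ ((2 : ℝ) / 3) := Real.one_le_rpow hP' (by norm_num)
  have hC0 : (0 : ℝ) < C := by exact_mod_cast hC
  have hB0 : (0 : ℝ) < B := by exact_mod_cast hB
  have ha0 : (0 : ℝ) < a := by exact_mod_cast ha
  have hm0 : (0 : ℝ) < m := by
    have : 0 < m := by omega
    exact_mod_cast this
  have hk1 : (1 : ℝ) < k := by
    have : 1 < k := by omega
    exact_mod_cast this
  set α : ℝ := (B : ℝ) / C with hαdef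
  set β : ℝ := (a : ℝ) / C with hβdef
  have hα : 0 < α := div_pos hB0 hC0
  have hβ : 0 < β := div_pos ha0 hC0
  set f : ℝ → ℝ := fun x : ℝ => (α * x ^ k + β) ^ ((1 : ℝ) / m) with hfdef
  have hval : ∀ z ∈ S, f z.1 = z.2 := by
    intro z hz
    obtain ⟨-, -, -, -, h⟩ := hS z hz
    have h' : (C : ℝ) * (z.2 : ℝ) ^ m = B * (z.1 : ℝ) ^ k + a := by exact_mod_cast h
    simp only [hfdef]
    apply jr_root m hm
    rw [hαdef, hβdef]
    field_simp
    linarith
  -- the general bound for the part of `S` over a set `D`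
  have part : ∀ D : Set ℝ, (∀ x ∈ D, 0 < x) →
      (∀ x y z w : ℝ, x ∈ D → y ∈ D → z ∈ D → w ∈ D → x < y → y ≤ z → z < w →
      (f y - f x) / (y - x) ≠ (f w - f z) / (w - z)) →
      ∀ S' : Finset (ℕ × ℕ), S' ⊆ S → (∀ z ∈ S', (z.1 : ℝ) ∈ D) →
      (S'.card : ℝ) ≤ 4 * (P : ℝ) ^ ((2 : ℝ) / 3) := by
    intro D hD0 hsl S' hS' hS'D
    have hinj : Set.InjOn (Prod.fst : ℕ × ℕ → ℕ) (S' : Set (ℕ × ℕ)) := by
      intro z hz w hw hzw
      have h1 := hval z (hS' hz)
      have h2 := hval w (hS' hw)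
      have hzw' : z.1 = w.1 := hzw
      rw [hzw'] at h1
      have h3 : (z.2 : ℝ) = w.2 := by rw [← h1, ← h2]
      exact Prod.ext hzw' (by exact_mod_cast h3)
    have hcard : (S'.image Prod.fst).card = S'.card := Finset.card_image_of_injOn hinj
    rw [← hcard]
    have hg : ∀ x ∈ S'.image Prod.fst, ∃ y, (x, y) ∈ S' := by
      intro x hx
      obtain ⟨z, hz, rfl⟩ := Finset.mem_image.mp hx
      exact ⟨z.2, hz⟩
    classical
    let g : ℕ → ℕ := fun x => if h : ∃ y, (x, y) ∈ S' then h.choose else 0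
    apply jr_graph P hP D f (jr_mono k m hk hm α β hα hβ D hD0) hsl (S'.image Prod.fst) g
    intro x hx
    have h1 := hg x hx
    have h2 : (x, g x) ∈ S' := by
      simp only [g, dif_pos h1]
      exact h1.choose_spec
    obtain ⟨-, h3, -, h4, -⟩ := hS _ (hS' h2)
    exact ⟨h3, h4, hS'D _ h2, hval _ (hS' h2)⟩
  have hposS : ∀ z ∈ S, (0 : ℝ) < (z.1 : ℝ) := by
    intro z hz
    have : 0 < z.1 := (hS z hz).1
    exact_mod_cast this
  rcases Nat.lt_or_ge k m with hkm | hkm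
  · -- inflection point
    have hkm' : (k : ℝ) < m := by exact_mod_cast hkm
    set q : ℝ := (((k : ℝ) - 1) * m * β) / (((m : ℝ) - k) * α) with hqdef
    have hq : 0 < q := by
      apply div_pos
      · have : 0 < (k : ℝ) - 1 := by linarith
        positivity
      · have : 0 < (m : ℝ) - k := by linarith
        positivity
    set x₀ : ℝ := q ^ ((k : ℝ)⁻¹) with hx₀def
    have hx₀ : 0 < x₀ := Real.rpow_pos_of_pos hq _
    have hx₀k : x₀ ^ k = q := Real.rpow_inv_natCast_pow hq.le (by omega)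
    have hqe : ((m : ℝ) - k) * α * x₀ ^ k = ((k : ℝ) - 1) * m * β := by
      rw [hx₀k, hqdef]
      have h1 : ((m : ℝ) - k) * α ≠ 0 := by
        have : 0 < (m : ℝ) - k := by linarith
        positivity
      rw [mul_div_assoc', mul_div_cancel_left₀ _ h1]
    have hcoef : 0 < ((m : ℝ) - k) * α := by
      have : 0 < (m : ℝ) - k := by linarith
      positivity
    have c1 : StrictConvexOn ℝ (Set.Ioo 0 x₀) f := by
      apply jr_convex k m hk hm α β hα hβ _ (convex_Ioo _ _) isOpen_Ioo (fun x hx => hx.1)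
      intro x hx
      have h1 : x ^ k < x₀ ^ k := pow_lt_pow_left₀ hx.2 hx.1.le (by omega)
      have h2 := mul_lt_mul_of_pos_left h1 hcoef
      nlinarith
    have c2 : StrictConcaveOn ℝ (Set.Ioi x₀) f := by
      apply jr_concave k m hk hm α β hα hβ _ (convex_Ioi _) isOpen_Ioi (fun x hx => hx₀.trans hx)
      intro x hx
      have h1 : x₀ ^ k < x ^ k := pow_lt_pow_left₀ hx hx₀.le (by omega)
      have h2 := mul_lt_mul_of_pos_left h1 hcoef
      nlinarith
    classical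
    have p1 := part (Set.Ioo 0 x₀) (fun x hx => hx.1) (fun x y z w hx hy hz hw => jr_conv _ _ c1 x y z w hx hy hz hw)
      (S.filter (fun z => (z.1 : ℝ) < x₀)) (Finset.filter_subset _ _)
      (fun z hz => ⟨hposS z (Finset.mem_filter.mp hz).1, (Finset.mem_filter.mp hz).2⟩)
    have p2 := part (Set.Ioi x₀) (fun x hx => hx₀.trans hx) (fun x y z w hx hy hz hw => jr_conc _ _ c2 x y z w hx hy hz hw)
      (S.filter (fun z => x₀ < (z.1 : ℝ))) (Finset.filter_subset _ _)
      (fun z hz => (Finset.mem_filter.mp hz).2)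
    have p3 : (S.filter (fun z => (z.1 : ℝ) = x₀)).card ≤ 1 := by
      rw [Finset.card_le_one]
      intro z hz w hw
      rw [Finset.mem_filter] at hz hw
      have h1 := hval z hz.1
      have h2 := hval w hw.1
      have h3 : (z.1 : ℝ) = w.1 := by rw [hz.2, hw.2]
      rw [h3] at h1
      have h4 : (z.2 : ℝ) = w.2 := by rw [← h1, ← h2]
      exact Prod.ext (by exact_mod_cast h3) (by exact_mod_cast h4)
    have hcov : S ⊆ (S.filter (fun z => (z.1 : ℝ) < x₀)) ∪ ((S.filter (fun z => x₀ < (z.1 : ℝ))) ∪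
        (S.filter (fun z => (z.1 : ℝ) = x₀))) := by
      intro z hz
      simp only [Finset.mem_union, Finset.mem_filter]
      rcases lt_trichotomy (z.1 : ℝ) x₀ with h | h | h
      · exact Or.inl ⟨hz, h⟩
      · exact Or.inr (Or.inr ⟨hz, h⟩)
      · exact Or.inr (Or.inl ⟨hz, h⟩)
    have hcard := Finset.card_le_card hcov
    have hu1 := Finset.card_union_le (S.filter (fun z => (z.1 : ℝ) < x₀)) ((S.filter (fun z => x₀ < (z.1 : ℝ))) ∪
        (S.filter (fun z => (z.1 : ℝ) = x₀)))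
    have hu2 := Finset.card_union_le (S.filter (fun z => x₀ < (z.1 : ℝ))) (S.filter (fun z => (z.1 : ℝ) = x₀))
    have hfin : (S.card : ℝ) ≤ ((S.filter (fun z => (z.1 : ℝ) < x₀)).card : ℝ) +
        (((S.filter (fun z => x₀ < (z.1 : ℝ))).card : ℝ) + 1) := by
      exact_mod_cast hcard.trans (hu1.trans (Nat.add_le_add_left (hu2.trans (Nat.add_le_add_left p3 _)) _))
    linarith
  · have hkm' : (m : ℝ) ≤ k := by exact_mod_cast hkm
    have c1 : StrictConvexOn ℝ (Set.Ioi 0) f := by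
      apply jr_convex k m hk hm α β hα hβ _ (convex_Ioi _) isOpen_Ioi (fun x hx => hx)
      intro x hx
      have hx0 : (0 : ℝ) < x := hx
      have h1 : 0 ≤ ((k : ℝ) - m) * (α * x ^ k) := mul_nonneg (by linarith) (by positivity)
      have h2 : 0 < (k : ℝ) - 1 := by linarith
      have h3 : 0 < ((k : ℝ) - 1) * m * β := by positivity
      linarith
    have p1 := part (Set.Ioi 0) (fun x hx => hx) (fun x y z w hx hy hz hw => jr_conv _ _ c1 x y z w hx hy hz hw)
      S (Finset.Subset.refl _) (fun z hz => hposS z hz)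
    linarith

end Pool.MP_a95293_nt.PS
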