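import Pool.Agent.Lib_MP_a95293_ps.Gcp
import Pool.Agent.Lib_MP_a95293_ps.Jar

/-!
# Piece FAM2: the convexity move
-/

set_option autoImplicit false

namespace Pool.MP_a95293_nt.PS

open Finset
open Pool.MP_a95293_nt.RC (rd Prm pr3)

/-- the case of given exponents `k`, `m` -/
private theorem Fam2_aux (A : ℕ) (ε : ℝ) (hε : 0 < ε) : ∃ C : ℝ, 1 ≤ C ∧ ∀ (X : ℕ) (Y : ℝ),
    1 ≤ X → 0 ≤ Y → ∀ (k m : ℕ) (S : Finset (ℕ × ℕ)) (B D x y : ℕ × ℕ → ℕ), 2 ≤ k → 2 ≤ m →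
    (∀ z ∈ S, Prm z ∧ z.1 + z.2 ≤ X ^ A ∧ z.2 = B z * x z ^ k ∧ z.1 + z.2 = D z * y z ^ m ∧
      (rd z.1 : ℝ) * rd (B z) * rd (D z) * (max (x z) (y z) : ℝ) ^ ((2 : ℝ) / 3) ≤ Y) →
    (S.card : ℝ) ≤ C * (X : ℝ) ^ ε * Y := by
  classical
  obtain ⟨C, hC, h⟩ := gcp A ε hε
  refine ⟨16 * C, by linarith, ?_⟩
  intro X Y hX hY k m S B D x y hk hm hS
  have pos : ∀ z ∈ S, 1 ≤ z.1 ∧ 1 ≤ B z ∧ 1 ≤ D z ∧ 1 ≤ x z ∧ 1 ≤ y z ∧ B z ≤ z.2 ∧
      D z ≤ z.1 + z.2 := by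
    intro z hz
    obtain ⟨p1, p2, p3, p4, _⟩ := hS z hz
    have z1 : 1 ≤ z.1 := p1.1
    have z2 : 1 ≤ z.2 := p1.2.1
    have hB : 1 ≤ B z := by
      rcases Nat.eq_zero_or_pos (B z) with h0 | h0
      · rw [h0, zero_mul] at p3
        omega
      · exact h0
    have hD : 1 ≤ D z := by
      rcases Nat.eq_zero_or_pos (D z) with h0 | h0
      · rw [h0, zero_mul] at p4
        omega
      · exact h0
    have hx : 1 ≤ x z := by
      rcases Nat.eq_zero_or_pos (x z) with h0 | h0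
      · rw [h0, zero_pow (by omega), mul_zero] at p3
        omega
      · exact h0
    have hy : 1 ≤ y z := by
      rcases Nat.eq_zero_or_pos (y z) with h0 | h0
      · rw [h0, zero_pow (by omega), mul_zero] at p4
        omega
      · exact h0
    refine ⟨z1, hB, hD, hx, hy, ?_, ?_⟩
    · rw [p3]
      exact Nat.le_mul_of_pos_right _ (pow_pos hx _)
    · rw [p4]
      exact Nat.le_mul_of_pos_right _ (pow_pos hy _)
  set w : ℕ × ℕ → ℝ := fun s => 16 * (max (x s) (y s) : ℝ) ^ ((2 : ℝ) / 3) with hw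
  have main := h X (16 * Y) hX (by positivity) S (fun z => z.1) B D w
    (fun z hz => ⟨(pos z hz).1, by have := (hS z hz).2.1; omega⟩)
    (fun z hz => ⟨(pos z hz).2.1, by
      have := (hS z hz).2.1
      have := (pos z hz).2.2.2.2.2.1
      omega⟩)
    (fun z hz => ⟨(pos z hz).2.2.1, by
      have := (hS z hz).2.1
      have := (pos z hz).2.2.2.2.2.2
      omega⟩)
    ?_ ?_
  · refine main.trans (le_of_eq ?_)
    ring
  · intro s hs
    set F := S.filter fun t => t.1 = s.1 ∧ B t = B s ∧ D t = D s with hF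
    have hsF : s ∈ F := by
      rw [hF, mem_filter]
      exact ⟨hs, rfl, rfl, rfl⟩
    obtain ⟨s', hs', hmax⟩ := Finset.exists_max_image F (fun t => max (x t) (y t)) ⟨s, hsF⟩
    rw [hF, mem_filter] at hs'
    obtain ⟨hs'S, g1, g2, g3⟩ := hs'
    refine ⟨s', hs'S, g1, g2, g3, ?_⟩
    have hinj : Set.InjOn (fun t : ℕ × ℕ => (x t, y t)) (F : Set (ℕ × ℕ)) := by
      intro t ht t' ht' e
      rw [mem_coe, hF, mem_filter] at ht ht'
      simp only [Prod.mk.injEq] at e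
      refine Prod.ext (ht.2.1.trans ht'.2.1.symm) ?_
      rw [(hS t ht.1).2.2.1, (hS t' ht'.1).2.2.1, ht.2.2.1, ht'.2.2.1, e.1]
    have hcard : (F.image fun t => (x t, y t)).card = F.card := card_image_of_injOn hinj
    have ps := pos s hs
    have ps' := pos s' hs'S
    have hj := jarnik k m s.1 (B s) (D s) (max (x s') (y s')) hk hm ps.1 ps.2.1 ps.2.2.1
      (le_max_of_le_left ps'.2.2.2.1) (F.image fun t => (x t, y t)) (by
        intro z hz
        obtain ⟨t, ht, rfl⟩ := mem_image.1 hz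
        have hle : max (x t) (y t) ≤ max (x s') (y s') := hmax t ht
        rw [hF, mem_filter] at ht
        have pt := pos t ht.1
        refine ⟨pt.2.2.2.1, (le_max_left _ _).trans hle, pt.2.2.2.2.1,
          (le_max_right _ _).trans hle, ?_⟩
        show D s * y t ^ m = B s * x t ^ k + s.1
        rw [← ht.2.1, ← ht.2.2.1, ← ht.2.2.2, ← (hS t ht.1).2.2.1, ← (hS t ht.1).2.2.2.1]
        omega)
    rw [hcard, Nat.cast_max] at hj
    exact hj
  · intro s hs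
    have h5 := (hS s hs).2.2.2.2
    rw [hw]
    show (rd s.1 : ℝ) * rd (B s) * rd (D s) * (16 * (max (x s) (y s) : ℝ) ^ ((2 : ℝ) / 3)) ≤ 16 * Y
    calc (rd s.1 : ℝ) * rd (B s) * rd (D s) * (16 * (max (x s) (y s) : ℝ) ^ ((2 : ℝ) / 3))
        = 16 * ((rd s.1 : ℝ) * rd (B s) * rd (D s) * (max (x s) (y s) : ℝ) ^ ((2 : ℝ) / 3)) := by
          ring
      _ ≤ 16 * Y := by linarith

theorem fam2 (A E : ℕ) (ε : ℝ) (hε : 0 < ε) : ∃ C : ℝ, 1 ≤ C ∧ ∀ (X : ℕ) (Y : ℝ), 1 ≤ X → 0 ≤ Y →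
    ∀ S : Finset (ℕ × ℕ), (∀ z ∈ S, Prm z ∧ z.1 + z.2 ≤ X ^ A ∧
      ∃ k m B D x y : ℕ, 2 ≤ k ∧ k ≤ E ∧ 2 ≤ m ∧ m ≤ E ∧ z.2 = B * x ^ k ∧ z.1 + z.2 = D * y ^ m ∧
        (rd z.1 : ℝ) * rd B * rd D * (max x y : ℝ) ^ ((2 : ℝ) / 3) ≤ Y) →
    (S.card : ℝ) ≤ C * (X : ℝ) ^ ε * Y := by
  classical
  obtain ⟨C, hC, h⟩ := Fam2_aux A ε hε
  refine ⟨((E + 1 : ℕ) : ℝ) ^ 2 * C, ?_, ?_⟩
  · have : (1 : ℝ) ≤ ((E + 1 : ℕ) : ℝ) ^ 2 := by
      exact_mod_cast Nat.one_le_pow _ _ (Nat.succ_pos E)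
    exact one_le_mul_of_one_le_of_one_le this hC
  intro X Y hX hY S hS
  choose! k m B D x y hq using fun z (hz : z ∈ S) => (hS z hz).2.2
  have hfib : S.card = ∑ p ∈ range (E + 1) ×ˢ range (E + 1),
      (S.filter fun z => (k z, m z) = p).card := by
    apply card_eq_sum_card_fiberwise
    intro z hz
    rw [mem_coe] at hz
    rw [mem_coe, mem_product, mem_range, mem_range]
    have h1 := hq z hz
    have h2 : k z < E + 1 := by omega
    have h3 : m z < E + 1 := by omega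
    exact ⟨h2, h3⟩
  have hb : ∀ p ∈ range (E + 1) ×ˢ range (E + 1),
      ((S.filter fun z => (k z, m z) = p).card : ℝ) ≤ C * (X : ℝ) ^ ε * Y := by
    intro p _
    rcases (S.filter fun z => (k z, m z) = p).eq_empty_or_nonempty with h0 | ⟨s, hs⟩
    · rw [h0]
      simp only [card_empty, Nat.cast_zero]
      positivity
    · rw [mem_filter] at hs
      obtain ⟨hs, hp⟩ := hs
      have hq0 := hq s hs
      refine h X Y hX hY (k s) (m s) _ B D x y hq0.1 hq0.2.2.1 ?_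
      intro z hz
      rw [mem_filter] at hz
      obtain ⟨hz, hz2⟩ := hz
      rw [← hp, Prod.mk.injEq] at hz2
      obtain ⟨q1, q2, q3, q4, q5, q6, q7⟩ := hq z hz
      refine ⟨(hS z hz).1, (hS z hz).2.1, ?_, ?_, q7⟩
      · rw [← hz2.1]
        exact q5
      · rw [← hz2.2]
        exact q6
  rw [hfib]
  push_cast
  calc ∑ p ∈ range (E + 1) ×ˢ range (E + 1), ((S.filter fun z => (k z, m z) = p).card : ℝ)
      ≤ ∑ _p ∈ range (E + 1) ×ˢ range (E + 1), C * (X : ℝ) ^ ε * Y := sum_le_sum hb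
    _ = ((E : ℝ) + 1) ^ 2 * C * (X : ℝ) ^ ε * Y := by
        rw [sum_const, card_product, card_range, nsmul_eq_mul]
        push_cast
        ring

end Pool.MP_a95293_nt.PS
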