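import Pool.Agent.Lib_MP_a95293_ps.Defs

/-!
# Piece GREEDY: cutting `n` at the place where the product of the prime powers of large exponent reaches `X`

PROOF.  For a finite set `T` of primes of `n` let `q T = ∏_(p ∈ T) p ^ v_p(n)`.  Consider the sets `T ⊆ n.primeFactors` with
`q T ≥ X` and `v_p(n) ≥ v_(p')(n)` for all `p ∈ T`, `p' ∈ n.primeFactors \ T`; `T = n.primeFactors` is one.  Choose one with the smallest number of elements; it
is nonempty (`X > 1`).  Let `p ∈ T` have the smallest exponent `e` in `T`.  `T.erase p` has the second property, so `q (T.erase p) < X`.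
Put `u = q (T.erase p)`, `v = q (n.primeFactors \ T)`.  All exponents in `u` are `≥ e`, so `rd u ^ e ≤ u`; all exponents in `v` are `≤ e`
(compare with `p ∈ T`), so `v ≤ rd v ^ e`.
-/

set_option autoImplicit false

namespace Pool.MP_a95293_nt.PS

open Finset
open Pool.MP_a95293_nt.RC (rd Prm pr3)

private lemma greedy_full (n : ℕ) (hn : n ≠ 0) :
    ∏ p ∈ n.primeFactors, p ^ n.factorization p = n :=
  Nat.prod_factorization_pow_eq_self hn

private lemma greedy_fact_pos (n p : ℕ) (hp : p ∈ n.primeFactors) : 0 < n.factorization p :=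
  Nat.pos_of_ne_zero (Finsupp.mem_support_iff.1 (by rwa [Nat.support_factorization]))

private lemma greedy_cop (n : ℕ) (S T : Finset ℕ) (hS : S ⊆ n.primeFactors)
    (hT : T ⊆ n.primeFactors) (hd : Disjoint S T) :
    (∏ p ∈ S, p ^ n.factorization p).Coprime (∏ p ∈ T, p ^ n.factorization p) := by
  apply Nat.Coprime.prod_left
  intro a ha
  apply Nat.Coprime.prod_right
  intro p hp
  apply Nat.Coprime.pow
  apply (Nat.coprime_primes (Nat.prime_of_mem_primeFactors (hS ha))
    (Nat.prime_of_mem_primeFactors (hT hp))).2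
  rintro rfl
  exact (Finset.disjoint_left.1 hd) ha hp

private lemma greedy_rd (n : ℕ) (S : Finset ℕ) (hS : S ⊆ n.primeFactors) :
    rd (∏ p ∈ S, p ^ n.factorization p) = ∏ p ∈ S, p := by
  induction S using Finset.induction_on with
  | empty => simp [rd]
  | insert a S ha ih =>
    have haP : a.Prime := Nat.prime_of_mem_primeFactors (hS (mem_insert_self a S))
    have hapos := greedy_fact_pos n a (hS (mem_insert_self a S))
    have hS' : S ⊆ n.primeFactors := fun x hx => hS (mem_insert_of_mem hx)
    have hc : (a ^ n.factorization a).Coprime (∏ p ∈ S, p ^ n.factorization p) := by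
      have := greedy_cop n {a} S (by
        rw [singleton_subset_iff]
        exact hS (mem_insert_self a S)) hS' (by
        rw [disjoint_singleton_left]
        exact ha)
      rwa [prod_singleton] at this
    rw [prod_insert ha, prod_insert ha, RC.rd_mul hc, ih hS']
    congr 1
    unfold rd
    rw [Nat.primeFactors_prime_pow hapos.ne' haP, prod_singleton]

theorem greedy (n X : ℕ) (hX : 2 ≤ X) (hn : X ≤ n) : ∃ u p e v : ℕ, n = u * p ^ e * v ∧ p.Prime ∧
    1 ≤ e ∧ u.Coprime p ∧ v.Coprime p ∧ u.Coprime v ∧ 1 ≤ u ∧ 1 ≤ v ∧ u < X ∧ X ≤ u * p ^ e ∧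
    rd u ^ e ≤ u ∧ v ≤ rd v ^ e := by
  have hn0 : n ≠ 0 := by omega
  set q : Finset ℕ → ℕ := fun S => ∏ p ∈ S, p ^ n.factorization p with hq
  have hposq : ∀ S, S ⊆ n.primeFactors → 1 ≤ q S := by
    intro S hS
    refine Nat.succ_le_of_lt ?_
    apply Finset.prod_pos
    intro p hp
    exact pow_pos (Nat.prime_of_mem_primeFactors (hS hp)).pos _
  set F : Finset (Finset ℕ) := n.primeFactors.powerset.filter fun T => X ≤ q T ∧
    ∀ p ∈ T, ∀ p' ∈ n.primeFactors \ T, n.factorization p' ≤ n.factorization p with hF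
  have hFne : F.Nonempty := by
    refine ⟨n.primeFactors, ?_⟩
    rw [hF, mem_filter, mem_powerset]
    refine ⟨Subset.refl _, ?_, ?_⟩
    · show X ≤ ∏ p ∈ n.primeFactors, p ^ n.factorization p
      rw [greedy_full n hn0]
      exact hn
    · intro p _ p' hp'
      rw [sdiff_self] at hp'
      simp at hp'
  obtain ⟨T, hTF, hTmin⟩ := Finset.exists_min_image F Finset.card hFne
  have hTF' := hTF
  rw [hF, mem_filter, mem_powerset] at hTF
  obtain ⟨hTs, hTX, hTup⟩ := hTF
  have hTne : T.Nonempty := by
    rw [Finset.nonempty_iff_ne_empty]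
    rintro rfl
    simp [hq] at hTX
    omega
  obtain ⟨p, hpT, hpmin⟩ := Finset.exists_min_image T (fun p => n.factorization p) hTne
  have hpp : p.Prime := Nat.prime_of_mem_primeFactors (hTs hpT)
  have hErs : T.erase p ⊆ n.primeFactors := (erase_subset _ _).trans hTs
  have hSds : n.primeFactors \ T ⊆ n.primeFactors := sdiff_subset
  have hqT : q T = q (T.erase p) * p ^ n.factorization p := by
    show ∏ p ∈ T, p ^ n.factorization p = _
    rw [mul_comm, ← Finset.mul_prod_erase T (fun p => p ^ n.factorization p) hpT]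
  have hqn : n = q T * q (n.primeFactors \ T) := by
    conv_lhs => rw [← greedy_full n hn0]
    rw [mul_comm]
    exact (Finset.prod_sdiff hTs).symm
  have hu : q (T.erase p) < X := by
    by_contra hcon
    push Not at hcon
    have hmem : T.erase p ∈ F := by
      rw [hF, mem_filter, mem_powerset]
      refine ⟨hErs, hcon, ?_⟩
      intro a ha p' hp'
      rw [mem_sdiff] at hp'
      by_cases hp'T : p' ∈ T
      · have : p' = p := by
          by_contra hne
          exact hp'.2 (mem_erase.2 ⟨hne, hp'T⟩)
        subst this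
        exact hpmin a (mem_of_mem_erase ha)
      · exact hTup a (mem_of_mem_erase ha) p' (mem_sdiff.2 ⟨hp'.1, hp'T⟩)
    have h1 := hTmin _ hmem
    rw [card_erase_of_mem hpT] at h1
    have h2 := hTne.card_pos
    omega
  refine ⟨q (T.erase p), p, n.factorization p, q (n.primeFactors \ T), ?_, hpp,
    greedy_fact_pos n p (hTs hpT), ?_, ?_, ?_, hposq _ hErs, hposq _ hSds, hu, ?_, ?_, ?_⟩
  · rw [← hqT]
    exact hqn
  · apply Nat.Coprime.prod_left
    intro a ha
    apply Nat.Coprime.pow_left
    exact (Nat.coprime_primes (Nat.prime_of_mem_primeFactors (hErs ha)) hpp).2 (ne_of_mem_erase ha)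
  · apply Nat.Coprime.prod_left
    intro a ha
    apply Nat.Coprime.pow_left
    apply (Nat.coprime_primes (Nat.prime_of_mem_primeFactors (hSds ha)) hpp).2
    rintro rfl
    exact (mem_sdiff.1 ha).2 hpT
  · apply greedy_cop n _ _ hErs hSds
    exact disjoint_of_subset_left (erase_subset _ _) disjoint_sdiff
  · rw [← hqT]
    exact hTX
  · show rd (∏ p ∈ T.erase p, p ^ n.factorization p) ^ n.factorization p ≤
      ∏ p ∈ T.erase p, p ^ n.factorization p
    rw [greedy_rd n _ hErs, ← Finset.prod_pow]
    apply Finset.prod_le_prod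
    · intro a _
      exact Nat.zero_le _
    · intro a ha
      exact Nat.pow_le_pow_right (Nat.prime_of_mem_primeFactors (hErs ha)).pos
        (hpmin a (mem_of_mem_erase ha))
  · show (∏ p ∈ n.primeFactors \ T, p ^ n.factorization p) ≤
      rd (∏ p ∈ n.primeFactors \ T, p ^ n.factorization p) ^ n.factorization p
    rw [greedy_rd n _ hSds, ← Finset.prod_pow]
    apply Finset.prod_le_prod
    · intro a _
      exact Nat.zero_le _
    · intro a ha
      exact Nat.pow_le_pow_right (Nat.prime_of_mem_primeFactors (hSds ha)).pos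
        (hTup p hpT a ha)

end Pool.MP_a95293_nt.PS
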